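import Mathlib

/-!
# The van der Waerden game: definitions for the potential argument (MP_5a0b46_co)
-/

set_option autoImplicit false

namespace Pool.Agent.H23.VW

open Finset

/-- Value of the set `U` in the state with free points `F` and Maker's points `M`, base `b`:
`b ^ (number of free points of U)` if no point of `U` is outside `F ∪ M`, else `0`. -/
noncomputable def G (b : ℝ) (F M U : Finset ℕ) : ℝ :=
  if U ⊆ F ∪ M then b ^ (U ∩ F).card else 0

/-- The same value, counted only if `x ∈ U`. -/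
noncomputable def Gx (b : ℝ) (F M U : Finset ℕ) (x : ℕ) : ℝ :=
  if x ∈ U then G b F M U else 0

/-- Maker, who is to move, wins from the position (free points `F`, Maker's points `M`). -/
inductive MWin (Win : Finset ℕ → Prop) : Finset ℕ → Finset ℕ → Prop
  | done (F M : Finset ℕ) : Win M → MWin Win F M
  | step (F M : Finset ℕ) (v : ℕ) : v ∈ F →
      (∀ u ∈ F.erase v, MWin Win ((F.erase v).erase u) (insert v M)) →
      (F.erase v = ∅ → Win (insert v M)) → MWin Win F M

/-- A finite system of windows `A i` (`i ∈ I`), each with a successor point `s i` and a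
direction `dir i`. -/
structure Sys (ι : Type) where
  I : Finset ι
  A : ι → Finset ℕ
  s : ι → ℕ
  dir : ι → ℕ

namespace Sys

variable {ι : Type} (S : Sys ι)

/-- The extended window. -/
def Ap (i : ι) : Finset ℕ := insert (S.s i) (S.A i)

/-- Windows and extended windows in one family. -/
def U (j : ι × Bool) : Finset ℕ := if j.2 then S.Ap j.1 else S.A j.1

/-- The index set of all windows and extended windows. -/
def J : Finset (ι × Bool) := S.I ×ˢ Finset.univ

/-- Winning sets: Maker has a whole window. -/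
def Wins (M : Finset ℕ) : Prop := ∃ i ∈ S.I, S.A i ⊆ M

/-- Pairs of sets of different directions with at least two common points. -/
def PP : Finset ((ι × Bool) × (ι × Bool)) :=
  (S.J ×ˢ S.J).filter (fun p => S.dir p.1.1 ≠ S.dir p.2.1 ∧ 2 ≤ (S.U p.1 ∩ S.U p.2).card)

/-- Triples of sets with a common point and pairwise at most one common point. -/
def TT : Finset ((ι × Bool) × (ι × Bool) × (ι × Bool)) :=
  (S.J ×ˢ S.J ×ˢ S.J).filter (fun p => (S.U p.1 ∩ S.U p.2.1).card ≤ 1 ∧
    (S.U p.1 ∩ S.U p.2.2).card ≤ 1 ∧ (S.U p.2.1 ∩ S.U p.2.2).card ≤ 1 ∧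
    (S.U p.1 ∩ (S.U p.2.1 ∩ S.U p.2.2)).Nonempty)

/-- The value of a window minus the value of the extended window. -/
noncomputable def h (b : ℝ) (F M : Finset ℕ) (i : ι) : ℝ :=
  G b F M (S.A i) - G b F M (S.Ap i)

/-- The number of free points of a window. -/
noncomputable def f (F : Finset ℕ) (i : ι) : ℝ := ((S.A i ∩ F).card : ℝ)

/-- The total value at the point `y`. -/
noncomputable def Sv (b : ℝ) (F M : Finset ℕ) (y : ℕ) : ℝ :=
  ∑ i ∈ S.I.filter (fun i => y ∈ S.A i), S.h b F M i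

/-- The part of `Sv` at `y` that goes through `x`. -/
noncomputable def Sx (b : ℝ) (F M : Finset ℕ) (y x : ℕ) : ℝ :=
  ∑ i ∈ S.I.filter (fun i => y ∈ S.A i), (Gx b F M (S.A i) x - Gx b F M (S.Ap i) x)

/-- The part of `Sv` at `y` that goes through `u` and `v`. -/
noncomputable def Sxx (b : ℝ) (F M : Finset ℕ) (y u v : ℕ) : ℝ :=
  ∑ i ∈ S.I.filter (fun i => y ∈ S.A i),
    ((if u ∈ S.A i then Gx b F M (S.A i) v else 0) -
      (if u ∈ S.Ap i then Gx b F M (S.Ap i) v else 0))

/-- Unsigned version of `Sx`. -/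
noncomputable def H (b : ℝ) (F M : Finset ℕ) (y x : ℕ) : ℝ :=
  ∑ i ∈ S.I.filter (fun i => y ∈ S.A i ∧ x ∈ S.Ap i), S.h b F M i

/-- Total value of the windows whose extension contains `x`. -/
noncomputable def Sp (b : ℝ) (F M : Finset ℕ) (x : ℕ) : ℝ :=
  ∑ i ∈ S.I.filter (fun i => x ∈ S.Ap i), S.h b F M i

/-- Weighted value of the windows whose extension contains `u` and `v`. -/
noncomputable def X1 (b : ℝ) (F M : Finset ℕ) (u v : ℕ) : ℝ :=
  ∑ i ∈ S.I.filter (fun i => u ∈ S.Ap i ∧ v ∈ S.Ap i), S.f F i * S.h b F M i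

/-- The pair potential. -/
noncomputable def P (b : ℝ) (F M : Finset ℕ) : ℝ :=
  ∑ p ∈ S.PP, G b F M (S.U p.1 ∪ S.U p.2)

/-- The part of the pair potential at `x`. -/
noncomputable def Px (b : ℝ) (F M : Finset ℕ) (x : ℕ) : ℝ :=
  ∑ p ∈ S.PP, Gx b F M (S.U p.1 ∪ S.U p.2) x

/-- The triple potential. -/
noncomputable def Q (b : ℝ) (F M : Finset ℕ) : ℝ :=
  ∑ p ∈ S.TT, G b F M (S.U p.1 ∪ (S.U p.2.1 ∪ S.U p.2.2))

/-- The part of the triple potential at `x`. -/
noncomputable def Qx (b : ℝ) (F M : Finset ℕ) (x : ℕ) : ℝ :=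
  ∑ p ∈ S.TT, Gx b F M (S.U p.1 ∪ (S.U p.2.1 ∪ S.U p.2.2)) x

/-- The exponential potential over the centres `y ∈ F ∩ Y`. -/
noncomputable def Z (Y : Finset ℕ) (L b : ℝ) (F M : Finset ℕ) : ℝ :=
  ∑ y ∈ F ∩ Y, Real.exp (-(L * S.Sv b F M y))

/-- The whole potential. -/
noncomputable def Pot (Y : Finset ℕ) (L k1 k7 b : ℝ) (F M : Finset ℕ) : ℝ :=
  S.Z Y L b F M + k1 * S.P b F M + k7 * S.Q b F M

/-- The positive part of the linearised value of the point `x`. -/
noncomputable def YZ (Y : Finset ℕ) (L b : ℝ) (F M : Finset ℕ) (x : ℕ) : ℝ :=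
  ∑ y ∈ (F ∩ Y).erase x, L * Real.exp (-(L * S.Sv b F M y)) * S.Sx b F M y x

/-- The linearised value of the point `x`. -/
noncomputable def Yf (Y : Finset ℕ) (L k1 k7 b : ℝ) (F M : Finset ℕ) (x : ℕ) : ℝ :=
  S.YZ Y L b F M x - k1 * S.Px b F M x - k7 * S.Qx b F M x

/-- Second order term at the point `x`. -/
noncomputable def R (n : ℕ) (L b : ℝ) (F M : Finset ℕ) (x : ℕ) : ℝ :=
  32 * L ^ 2 * (5 / 2 * S.Sp b F M x + 4 * n * S.Px b F M x)

/-- The hypotheses on a system of windows which the potential argument uses. -/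
structure Good (n : ℕ) : Prop where
  card_le : ∀ i ∈ S.I, (S.A i).card ≤ n
  s_notMem : ∀ i ∈ S.I, S.s i ∉ S.A i
  line : ∀ (b : ℝ) (F M : Finset ℕ), 0 < b → b ≤ 1 / 2 → Disjoint F M → ∀ x ∈ F, ∀ d : ℕ,
    ∑ i ∈ S.I.filter (fun i => S.dir i = d ∧ x ∈ S.Ap i), S.f F i * S.h b F M i ≤ 5 / 2

end Sys

end Pool.Agent.H23.VW
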