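import Mathlib
import Pool.Agent.H23.VW.Defs

/-!
# The system of all `n`-term arithmetic progressions in `{1, ..., N}`
-/

set_option autoImplicit false

namespace Pool.Agent.H23.VW

open Finset

/-- The `k`-term progression with first term `a` and difference `d`. -/
def prog (k a d : ℕ) : Finset ℕ := (range k).image (fun i => a + i * d)

/-- The system of all `n`-term progressions in `{1, ..., N}`; the successor of `(a, d)` is
`a + n d`, the direction is the difference `d`. -/
def apSys (n N : ℕ) : Sys (ℕ × ℕ) where
  I := (Icc 1 N ×ˢ Icc 1 N).filter (fun p => p.1 + (n - 1) * p.2 ≤ N)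
  A := fun p => prog n p.1 p.2
  s := fun p => p.1 + n * p.2
  dir := fun p => p.2

theorem mem_prog {k a d x : ℕ} : x ∈ prog k a d ↔ ∃ i < k, a + i * d = x := by
  simp [prog]

theorem mem_apI {n N a d : ℕ} : (a, d) ∈ (apSys n N).I ↔
    1 ≤ a ∧ 1 ≤ d ∧ a ≤ N ∧ d ≤ N ∧ a + (n - 1) * d ≤ N := by
  simp only [apSys, mem_filter, mem_product, mem_Icc]
  tauto

/-- The extended window is the `(n+1)`-term progression. -/
theorem apSys_Ap (n N : ℕ) (p : ℕ × ℕ) : (apSys n N).Ap p = prog (n + 1) p.1 p.2 := by
  unfold Sys.Ap prog apSys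
  simp only [range_add_one, image_insert, prog]

theorem card_prog {k a d : ℕ} (hd : 1 ≤ d) : (prog k a d).card = k := by
  unfold prog
  rw [card_image_of_injective, card_range]
  intro i j h
  simp only at h
  have : i * d = j * d := by omega
  exact Nat.eq_of_mul_eq_mul_right hd this

end Pool.Agent.H23.VW
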