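import Mathlib
import Pool.Agent.H23.VW.APDefs

/-!
# Windows through a point, as a sum over the differences (module [H23 VW DEGSUM])

Proof. For every `d ∈ Icc 1 (N/(2n))` the windows of difference `d` through `y` are at least
`min n (m/d + 1)` in number, `m = min y (N+1-y) - 1` (natural division). Case `2 y ≤ N + 1`
(then `m = y - 1`): for `i < min n (m/d + 1)` we have `i d ≤ m = y - 1`; the window with first term
`a = y - i d ≥ 1` contains `y` (index `i < n`), and it is in `[1, N]`:
`2 (a + (n-1) d) ≤ 2 y + 2 (n-1) d ≤ N + 1 + N - 2 d ≤ 2 N - 1` (from `2 n d ≤ N`, `d ≥ 1`).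
Different `i` give different `a`. Case `2 y > N + 1` (then `m = N - y`): for `i < min n (m/d+1)`,
`i d ≤ N - y`; the window with last term `y + i d ≤ N`, i.e. first term
`a = y + i d - (n-1) d`, contains `y` (index `n - 1 - i`), and `a ≥ 1` because
`2 (y - (n-1) d) ≥ N + 2 - (N - 2 d) ≥ 2`.
Formal way: the right side is `∑ d ∈ Icc 1 N, (number with difference d)`
(`card_eq_sum_card_fiberwise`), or map the sigma type `{(d, i)}` injectively
(`Finset.card_sigma`, `card_le_card_of_injOn`).
-/

set_option autoImplicit false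

namespace Pool.Agent.H23.VW

open Finset

/-- Windows through `y`, counted by difference. -/
theorem deg_ge_sum {n N y : ℕ} (hn : 2 ≤ n) (hy1 : 1 ≤ y) (hyN : y ≤ N) :
    ∑ d ∈ Icc 1 (N / (2 * n)), min n ((min y (N + 1 - y) - 1) / d + 1) ≤
      ((apSys n N).I.filter (fun i => y ∈ (apSys n N).A i)).card := by
  have e : ∑ d ∈ Icc 1 (N / (2 * n)), min n ((min y (N + 1 - y) - 1) / d + 1) =
      ((Icc 1 (N / (2 * n))).sigma
        (fun d => range (min n ((min y (N + 1 - y) - 1) / d + 1)))).card := by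
    rw [card_sigma]
    apply sum_congr rfl
    intro d _
    rw [card_range]
  rw [e]
  have key : ∀ d i : ℕ, d ∈ Icc 1 (N / (2 * n)) →
      i ∈ range (min n ((min y (N + 1 - y) - 1) / d + 1)) →
      1 ≤ d ∧ 2 * (n * d) ≤ N ∧ i < n ∧ i * d ≤ min y (N + 1 - y) - 1 := by
    intro d i hd hi
    rw [mem_Icc] at hd
    rw [mem_range, lt_min_iff] at hi
    have h1 : d * (2 * n) ≤ N := (Nat.le_div_iff_mul_le (by omega)).1 hd.2
    have h2 : i ≤ (min y (N + 1 - y) - 1) / d := by omega
    have h3 : i * d ≤ min y (N + 1 - y) - 1 := (Nat.le_div_iff_mul_le (by omega)).1 h2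
    refine ⟨hd.1, ?_, hi.1, h3⟩
    calc 2 * (n * d) = d * (2 * n) := by ring
      _ ≤ N := h1
  have hnd : ∀ d : ℕ, (n - 1) * d + d = n * d := by
    intro d
    obtain ⟨k, rfl⟩ : ∃ k, n = k + 1 := ⟨n - 1, by omega⟩
    rw [Nat.add_sub_cancel, add_mul, one_mul]
  by_cases hc : 2 * y ≤ N + 1
  · have hm : min y (N + 1 - y) - 1 = y - 1 := by rw [min_eq_left (by omega)]
    apply card_le_card_of_injOn (fun p => (y - p.2 * p.1, p.1))
    · rintro ⟨d, i⟩ hp
      rw [mem_coe, mem_sigma] at hp
      obtain ⟨h1, h2, h3, h4⟩ := key d i hp.1 hp.2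
      rw [hm] at h4
      have h5 := hnd d
      have h6 : d ≤ n * d := Nat.le_mul_of_pos_left d (by omega)
      rw [mem_coe, mem_filter]
      refine ⟨?_, ?_⟩
      · rw [mem_apI]
        dsimp only
        refine ⟨by omega, h1, by omega, by omega, by omega⟩
      · show y ∈ prog n (y - i * d) d
        rw [mem_prog]
        exact ⟨i, h3, by omega⟩
    · rintro ⟨d, i⟩ hp ⟨d', i'⟩ hp' heq
      rw [mem_coe, mem_sigma] at hp hp'
      obtain ⟨h1, -, -, h4⟩ := key d i hp.1 hp.2
      obtain ⟨-, -, -, h4'⟩ := key d' i' hp'.1 hp'.2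
      rw [hm] at h4 h4'
      simp only [Prod.mk.injEq] at heq
      obtain ⟨ha, rfl⟩ := heq
      have : i * d = i' * d := by omega
      have := Nat.eq_of_mul_eq_mul_right h1 this
      subst this
      rfl
  · have hm : min y (N + 1 - y) - 1 = N - y := by rw [min_eq_right (by omega)]; omega
    apply card_le_card_of_injOn (fun p => (y + p.2 * p.1 - (n - 1) * p.1, p.1))
    · rintro ⟨d, i⟩ hp
      rw [mem_coe, mem_sigma] at hp
      obtain ⟨h1, h2, h3, h4⟩ := key d i hp.1 hp.2
      rw [hm] at h4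
      have h5 := hnd d
      have h6 : d ≤ n * d := Nat.le_mul_of_pos_left d (by omega)
      rw [mem_coe, mem_filter]
      refine ⟨?_, ?_⟩
      · rw [mem_apI]
        dsimp only
        refine ⟨by omega, h1, by omega, by omega, by omega⟩
      · show y ∈ prog n (y + i * d - (n - 1) * d) d
        rw [mem_prog]
        refine ⟨n - 1 - i, by omega, ?_⟩
        have h7 : (n - 1 - i) * d = (n - 1) * d - i * d := Nat.sub_mul _ _ _
        have h8 : i * d ≤ (n - 1) * d := Nat.mul_le_mul_right d (by omega)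
        omega
    · rintro ⟨d, i⟩ hp ⟨d', i'⟩ hp' heq
      rw [mem_coe, mem_sigma] at hp hp'
      obtain ⟨h1, h2, -, h4⟩ := key d i hp.1 hp.2
      obtain ⟨-, -, -, h4'⟩ := key d' i' hp'.1 hp'.2
      rw [hm] at h4 h4'
      simp only [Prod.mk.injEq] at heq
      obtain ⟨ha, rfl⟩ := heq
      have h5 := hnd d
      have : i * d = i' * d := by omega
      have := Nat.eq_of_mul_eq_mul_right h1 this
      subst this
      rfl

end Pool.Agent.H23.VW
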