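import Mathlib
import Pool.Agent.H23.VW.APDegSum

/-!
# Lower bound for the number of windows through a point (module [H23 VW DEG])

Proof. Let `m = min y (N+1-y) - 1`, so `2^(K+4) (m+1) ≥ N`. Put `D = N / (n 2^(K+4))` (natural
division); `D ≥ 2^(K+6)` by `hN`, and `m ≥ n D - 1`. For `j ≤ K + 2` let `B_j = Ioc (2^j D) (2^(j+1) D)`;
these blocks are disjoint and contained in `Icc 1 (N/(2n))` (as `2^(K+3) D ≤ N/(2n)`). For
`d ∈ B_j`: `min n (m/d + 1) ≥ n / 2^(j+1)` in the reals: `m/d + 1 (natural division) ≥ (m+1)/d` real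
`≥ n D / (2^(j+1) D) = n / 2^(j+1)`. So the block contributes at least
`2^j D * n / 2^(j+1) = n D / 2`, the `K + 3` blocks together at least `(K+3) n D / 2`, and
`n D ≥ N / 2^(K+4) - n ≥ N / 2^(K+5)` (by `hN`). Hence the sum in `deg_ge_sum` is at least
`(K+3) N / 2^(K+6) ≥ K N / (64 * 2^K)`.
-/

set_option autoImplicit false

namespace Pool.Agent.H23.VW

open Finset

private lemma deg_block {n m D J : ℕ} (hD : 1 ≤ D) (hm : n * D ≤ m + 1) :
    D * n ≤ 2 * ∑ d ∈ Ioc (2 ^ J * D) (2 ^ (J + 1) * D), min n (m / d + 1) := by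
  have h1 : ∀ d ∈ Ioc (2 ^ J * D) (2 ^ (J + 1) * D), n ≤ 2 ^ (J + 1) * min n (m / d + 1) := by
    intro d hd
    rw [mem_Ioc] at hd
    have hd0 : 0 < d := by omega
    have h2 : m + 1 ≤ d * (m / d + 1) := Nat.lt_mul_div_succ m hd0
    have h3 : n * D ≤ (2 ^ (J + 1) * (m / d + 1)) * D := by
      calc n * D ≤ m + 1 := hm
        _ ≤ d * (m / d + 1) := h2
        _ ≤ (2 ^ (J + 1) * D) * (m / d + 1) := Nat.mul_le_mul_right _ hd.2
        _ = _ := by ring
    have h4 := Nat.le_of_mul_le_mul_right h3 (by omega)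
    rcases le_total n (m / d + 1) with h | h
    · rw [min_eq_left h]
      exact Nat.le_mul_of_pos_left n (by positivity)
    · rw [min_eq_right h]
      exact h4
  have h2 : (2 ^ J * D) * n ≤ 2 ^ (J + 1) *
      ∑ d ∈ Ioc (2 ^ J * D) (2 ^ (J + 1) * D), min n (m / d + 1) := by
    rw [mul_sum]
    calc (2 ^ J * D) * n = ∑ d ∈ Ioc (2 ^ J * D) (2 ^ (J + 1) * D), n := by
          rw [sum_const, Nat.card_Ioc, smul_eq_mul]
          congr 1
          rw [pow_succ]
          have : 2 ^ J * 2 * D = 2 ^ J * D + 2 ^ J * D := by ring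
          rw [this]
          omega
      _ ≤ _ := sum_le_sum h1
  have h3 : 2 ^ J * (D * n) ≤ 2 ^ J * (2 *
      ∑ d ∈ Ioc (2 ^ J * D) (2 ^ (J + 1) * D), min n (m / d + 1)) := by
    calc 2 ^ J * (D * n) = (2 ^ J * D) * n := by ring
      _ ≤ _ := h2
      _ = _ := by rw [pow_succ]; ring
  exact Nat.le_of_mul_le_mul_left h3 (by positivity)

private lemma deg_blocks {n m D : ℕ} (hD : 1 ≤ D) (hm : n * D ≤ m + 1) (J : ℕ) :
    J * (D * n) ≤ 2 * ∑ d ∈ Ioc D (2 ^ J * D), min n (m / d + 1) := by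
  induction J with
  | zero => simp
  | succ J ih =>
    have h := deg_block (J := J) hD hm
    rw [← sum_Ioc_consecutive (fun d => min n (m / d + 1)) (m := D) (n := 2 ^ J * D)
      (k := 2 ^ (J + 1) * D), Nat.add_mul, Nat.mul_add, one_mul]
    · exact Nat.add_le_add ih h
    · exact Nat.le_mul_of_pos_left D (by positivity)
    · exact Nat.mul_le_mul_right D (Nat.pow_le_pow_right (by norm_num) (by omega))

/-- The number of windows through `y` is at least `(K/64) 2^{-K} N` for all `y` at distance at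
least `2^{-K} N / 16` from the ends, for `N` large. -/
theorem deg_ge {n N y K : ℕ} (hn : 2 ≤ n) (hN : 2 ^ (2 * K + 10) * n ≤ N)
    (hy1 : N ≤ 2 ^ (K + 4) * y) (hy2 : N ≤ 2 ^ (K + 4) * (N + 1 - y)) (hyN : y ≤ N) :
    (K : ℝ) / 64 / 2 ^ K * N ≤
      (((apSys n N).I.filter (fun i => y ∈ (apSys n N).A i)).card : ℝ) := by
  have hN0 : 0 < N := lt_of_lt_of_le (by positivity) hN
  have hy0 : 1 ≤ y := by
    rcases Nat.eq_zero_or_pos y with h | h
    · rw [h] at hy1
      omega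
    · exact h
  have hsum := deg_ge_sum (n := n) (N := N) (y := y) hn hy0 hyN
  set c := ((apSys n N).I.filter (fun i => y ∈ (apSys n N).A i)).card with hc
  set m := min y (N + 1 - y) - 1 with hm
  set D := N / (n * 2 ^ (K + 4)) with hD
  have hpos : 0 < n * 2 ^ (K + 4) := by positivity
  have hD1 : n * 2 ^ (K + 4) * D ≤ N := Nat.mul_div_le N _
  have hD2 : N < n * 2 ^ (K + 4) * (D + 1) := Nat.lt_mul_div_succ N hpos
  have hDpos : 1 ≤ D := by
    rw [hD, Nat.le_div_iff_mul_le hpos, one_mul]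
    refine le_trans ?_ hN
    rw [mul_comm]
    exact Nat.mul_le_mul_right n (Nat.pow_le_pow_right (by norm_num) (by omega))
  have hm1 : m + 1 = min y (N + 1 - y) := by
    rw [hm]
    have : 1 ≤ min y (N + 1 - y) := le_min hy0 (by omega)
    omega
  have hm2 : N ≤ 2 ^ (K + 4) * (m + 1) := by
    rw [hm1]
    rcases le_total y (N + 1 - y) with h | h
    · rw [min_eq_left h]
      exact hy1
    · rw [min_eq_right h]
      exact hy2
  have hm3 : n * D ≤ m + 1 := by
    have h1 : 2 ^ (K + 4) * (n * D) ≤ 2 ^ (K + 4) * (m + 1) := by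
      calc 2 ^ (K + 4) * (n * D) = n * 2 ^ (K + 4) * D := by ring
        _ ≤ N := hD1
        _ ≤ _ := hm2
    exact Nat.le_of_mul_le_mul_left h1 (by positivity)
  have hblocks := deg_blocks hDpos hm3 (K + 3)
  have hsub : Ioc D (2 ^ (K + 3) * D) ⊆ Icc 1 (N / (2 * n)) := by
    intro d hd
    rw [mem_Ioc] at hd
    rw [mem_Icc]
    refine ⟨by omega, ?_⟩
    rw [Nat.le_div_iff_mul_le (by omega)]
    calc d * (2 * n) ≤ (2 ^ (K + 3) * D) * (2 * n) := Nat.mul_le_mul_right _ hd.2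
      _ = n * 2 ^ (K + 4) * D := by rw [pow_succ 2 (K + 3)]; ring
      _ ≤ N := hD1
  have hle : ∑ d ∈ Ioc D (2 ^ (K + 3) * D), min n (m / d + 1) ≤
      ∑ d ∈ Icc 1 (N / (2 * n)), min n (m / d + 1) := sum_le_sum_of_subset hsub
  have htot : (K + 3) * (D * n) ≤ 2 * c := by
    calc (K + 3) * (D * n) ≤ 2 * ∑ d ∈ Ioc D (2 ^ (K + 3) * D), min n (m / d + 1) := hblocks
      _ ≤ 2 * c := Nat.mul_le_mul_left 2 (hle.trans hsum)
  -- n D ≥ N / 2^(K+5)
  have hnD : N ≤ 2 ^ (K + 5) * (D * n) := by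
    have h1 : 2 ^ (K + 5) * n ≤ N := by
      refine le_trans ?_ hN
      exact Nat.mul_le_mul_right n (Nat.pow_le_pow_right (by norm_num) (by omega))
    have h2 : n * 2 ^ (K + 4) * (D + 1) = 2 ^ (K + 4) * (D * n) + 2 ^ (K + 4) * n := by ring
    have h3 : 2 ^ (K + 5) * n = 2 * (2 ^ (K + 4) * n) := by rw [pow_succ 2 (K + 4)]; ring
    have h4 : 2 ^ (K + 5) * (D * n) = 2 * (2 ^ (K + 4) * (D * n)) := by
      rw [pow_succ 2 (K + 4)]; ring
    omega
  have hfin : K * N ≤ 64 * 2 ^ K * c := by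
    calc K * N ≤ (K + 3) * (2 ^ (K + 5) * (D * n)) := Nat.mul_le_mul (by omega) hnD
      _ = 2 ^ (K + 5) * ((K + 3) * (D * n)) := by ring
      _ ≤ 2 ^ (K + 5) * (2 * c) := Nat.mul_le_mul_left _ htot
      _ = 64 * 2 ^ K * c := by rw [pow_add]; ring
  have hfinR : (K : ℝ) * N ≤ 64 * 2 ^ K * c := by exact_mod_cast hfin
  rw [div_div, div_mul_eq_mul_div, div_le_iff₀ (by positivity)]
  linarith

end Pool.Agent.H23.VW
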