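import Mathlib
import Pool.Agent.H23.VW.APDefs

/-!
# Intersection of progressions of different differences (module [H23 VW INTER])

Proof. By symmetry (`inter_comm`, `max_comm`) let `d < d'`. Let `T ⊆ range k` be the set of
indices `i < k` with `a + i d ∈ prog k' a' d'`; then `card (prog k a d ∩ prog k' a' d') ≤ T.card`
(the intersection is the image of `T`). Two different members `i < j` of `T` satisfy `j ≥ i + 2`:
`(j - i) d` is a positive multiple of `d'` (difference of two elements of `prog k' a' d'`), so
`(j - i) d ≥ d' > d`, hence `j - i ≥ 2`. A subset `T` of `range k` without two consecutive members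
has `2 * T.card ≤ k + 1`: the sets `T` and `T + 1 = T.image (· + 1)` are disjoint subsets of
`range (k + 1)`. So `2 * card ≤ k + 1 ≤ max k k' + 1`.
-/

set_option autoImplicit false

namespace Pool.Agent.H23.VW

open Finset

/-- the case `d < d'` -/
private theorem inter_aux {k k' a a' d d' : ℕ} (hd : 1 ≤ d) (hlt : d < d') :
    2 * (prog k a d ∩ prog k' a' d').card ≤ k + 1 := by
  classical
  obtain ⟨T, hT⟩ : ∃ T : Finset ℕ, T = (range k).filter (fun i => a + i * d ∈ prog k' a' d') :=
    ⟨_, rfl⟩
  have hcard : (prog k a d ∩ prog k' a' d').card ≤ T.card := by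
    have hsub : prog k a d ∩ prog k' a' d' ⊆ T.image (fun i => a + i * d) := by
      intro x hx
      rw [mem_inter] at hx
      obtain ⟨hx1, hx2⟩ := hx
      unfold prog at hx1
      rw [mem_image] at hx1
      obtain ⟨i, hi, rfl⟩ := hx1
      rw [mem_image]
      exact ⟨i, by rw [hT, mem_filter]; exact ⟨hi, hx2⟩, rfl⟩
    exact (card_le_card hsub).trans card_image_le
  have hstep : ∀ i ∈ T, i + 1 ∉ T := by
    intro i hi hi1
    rw [hT, mem_filter] at hi hi1
    obtain ⟨_, h1⟩ := hi
    obtain ⟨_, h2⟩ := hi1
    unfold prog at h1 h2
    rw [mem_image] at h1 h2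
    obtain ⟨x, _, hx⟩ := h1
    obtain ⟨y, _, hy⟩ := h2
    have h3 : x * d' + d = y * d' := by
      have e : (i + 1) * d = i * d + d := by ring
      have hx' : a' + x * d' = a + i * d := hx
      have hy' : a' + y * d' = a + (i + 1) * d := hy
      omega
    have h4 : x < y := by
      by_contra hcon
      push Not at hcon
      have := Nat.mul_le_mul_right d' hcon
      omega
    have h5 : (x + 1) * d' ≤ y * d' := Nat.mul_le_mul_right d' h4
    have h6 : (x + 1) * d' = x * d' + d' := by ring
    omega
  have hdis : Disjoint T (T.image (fun i => i + 1)) := by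
    rw [disjoint_left]
    intro j hj hj'
    rw [mem_image] at hj'
    obtain ⟨i, hi, rfl⟩ := hj'
    exact hstep i hi hj
  have himg : (T.image (fun i => i + 1)).card = T.card := by
    apply card_image_of_injective
    intro x y h
    simpa using h
  have hsub : T ∪ T.image (fun i => i + 1) ⊆ range (k + 1) := by
    intro j hj
    rw [mem_union] at hj
    rw [mem_range]
    rcases hj with hj | hj
    · rw [hT, mem_filter, mem_range] at hj
      omega
    · rw [mem_image] at hj
      obtain ⟨i, hi, rfl⟩ := hj
      rw [hT, mem_filter, mem_range] at hi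
      omega
  have h1 := card_le_card hsub
  rw [card_union_of_disjoint hdis, himg, card_range] at h1
  omega

/-- Progressions of different differences share at most every second term of one of them. -/
theorem card_inter_prog_le {k k' a a' d d' : ℕ} (hd : 1 ≤ d) (hd' : 1 ≤ d') (hne : d ≠ d') :
    2 * (prog k a d ∩ prog k' a' d').card ≤ max k k' + 1 := by
  rcases lt_or_gt_of_ne hne with h | h
  · have h1 := inter_aux (k := k) (k' := k') (a := a) (a' := a') hd h
    have h2 := le_max_left k k'
    omega
  · have h1 := inter_aux (k := k') (k' := k) (a := a') (a' := a) hd' h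
    rw [inter_comm] at h1
    have h2 := le_max_right k k'
    omega

end Pool.Agent.H23.VW
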