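import Mathlib

/-!
# Rank lemma (module [H23 VW RANK])

Proof. Induction on `C.card` (for all `C`; `finset.strongInduction` or `Finset.card` induction):
if `C` is empty the sum is `0`. Sharper statement to prove by induction: for `C.card = k`,
`∑ i ∈ C, (f i) (1/2)^(f i) ≤ 1/2 + ∑ j ∈ range (k-1), (j+1) (1/2)^(j+1)` or simply
`≤ a k` with `a 0 = 0`, `a (k+1) = 1/2 + ∑_{j<k} (j+1)/2^(j+1)`.
Take the member `m` with the largest label. All other members have smaller labels (injectivity), so
`f m ≥ k - 1` (`k = C.card`), hence `f m (1/2)^(f m) ≤ (k-1)(1/2)^(k-1)` if `k ≥ 2`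
(the function `j ↦ j 2^{-j}` is nonincreasing for `j ≥ 1`) and `≤ 1/2` for `k = 1`
(`j 2^{-j} ≤ 1/2` for all `j`, since `2 j ≤ 2^j`). Apply the induction hypothesis to `C.erase m`
(the filters over `C.erase m` are the same as over `C` for the remaining members, because `m` has
the largest label). Finally `1/2 + ∑_{j ≤ k} j 2^{-j} ≤ 1/2 + 2`, since
`∑_{j=1}^{k} j 2^{-j} = 2 - (k+2) 2^{-k}`.
-/

set_option autoImplicit false

namespace Pool.Agent.H23.VW

open Finset

/-- Majorant of `n / 2^n` over `n ≥ m`. -/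
private noncomputable def rg (m : ℕ) : ℝ := if m = 0 then 1 / 2 else (m : ℝ) * (1 / 2) ^ m

private theorem rg_nonneg (m : ℕ) : 0 ≤ rg m := by
  unfold rg
  split_ifs <;> positivity

private theorem half_le (n : ℕ) : (n : ℝ) * (1 / 2) ^ n ≤ 1 / 2 := by
  rcases Nat.eq_zero_or_pos n with h | h
  · subst h; norm_num
  · have h1 : n ≤ 2 ^ (n - 1) := by
      have := @Nat.lt_two_pow_self (n - 1)
      omega
    have h2 : (n : ℝ) ≤ 2 ^ (n - 1) := by exact_mod_cast h1
    obtain ⟨k, rfl⟩ : ∃ k, n = k + 1 := ⟨n - 1, by omega⟩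
    rw [Nat.add_sub_cancel] at h2
    calc ((k + 1 : ℕ) : ℝ) * (1 / 2) ^ (k + 1) ≤ 2 ^ k * (1 / 2) ^ (k + 1) :=
          mul_le_mul_of_nonneg_right h2 (by positivity)
      _ = 1 / 2 := by rw [pow_succ, ← mul_assoc, ← mul_pow]; norm_num

private theorem le_rg {m n : ℕ} (h : m ≤ n) : (n : ℝ) * (1 / 2) ^ n ≤ rg m := by
  unfold rg
  split_ifs with h0
  · exact half_le n
  · induction n, h using Nat.le_induction with
    | base => exact le_rfl
    | succ n hn ih =>
      refine le_trans ?_ ih
      have h1 : (1 : ℝ) ≤ n := by exact_mod_cast (by omega : 1 ≤ n)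
      rw [pow_succ]
      push_cast
      have h2 : (0 : ℝ) < (1 / 2) ^ n := by positivity
      nlinarith

private theorem sum_rg (k : ℕ) : ∑ m ∈ range (k + 1), rg m = 5 / 2 - (k + 2) * (1 / 2) ^ k := by
  induction k with
  | zero =>
    rw [zero_add, sum_range_one]
    unfold rg
    norm_num
  | succ k ih =>
    rw [sum_range_succ, ih]
    unfold rg
    rw [if_neg (by omega), pow_succ]
    push_cast
    ring

private theorem sum_rg_le (k : ℕ) : ∑ m ∈ range k, rg m ≤ 5 / 2 := by
  cases k with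
  | zero => simp; norm_num
  | succ k =>
    rw [sum_rg]
    have : (0 : ℝ) ≤ (k + 2) * (1 / 2) ^ k := by positivity
    linarith

/-- General lemma: if the members of `C` have distinct labels and `f i` is at least the number
of members with smaller label, then the sum of `f i * (1/2)^(f i)` is at most `5/2`. -/
theorem sum_rank_le {ι : Type} (C : Finset ι) (lab f : ι → ℕ)
    (hinj : ∀ i ∈ C, ∀ j ∈ C, lab i = lab j → i = j)
    (hf : ∀ i ∈ C, (C.filter (fun j => lab j < lab i)).card ≤ f i) :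
    ∑ i ∈ C, (f i : ℝ) * (1 / 2) ^ (f i) ≤ 5 / 2 := by
  classical
  set r : ι → ℕ := fun i => (C.filter (fun j => lab j < lab i)).card with hr
  have hlt : ∀ i ∈ C, ∀ j ∈ C, lab i < lab j → r i < r j := by
    intro i hi j _ hij
    apply card_lt_card
    rw [ssubset_iff_of_subset]
    · refine ⟨i, ?_, ?_⟩
      · rw [mem_filter]; exact ⟨hi, hij⟩
      · rw [mem_filter]; exact fun h => lt_irrefl _ h.2
    · intro x hx
      rw [mem_filter] at hx ⊢
      exact ⟨hx.1, hx.2.trans hij⟩
  have hinj' : Set.InjOn r (C : Set ι) := by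
    intro i hi j hj h
    rcases lt_trichotomy (lab i) (lab j) with h1 | h1 | h1
    · exact absurd h (hlt i hi j hj h1).ne
    · exact hinj i hi j hj h1
    · exact absurd h (hlt j hj i hi h1).ne'
  have hrange : C.image r ⊆ range C.card := by
    intro m hm
    rw [mem_image] at hm
    obtain ⟨i, hi, rfl⟩ := hm
    rw [mem_range]
    apply card_lt_card
    rw [ssubset_iff_of_subset (filter_subset _ _)]
    exact ⟨i, hi, by rw [mem_filter]; exact fun h => lt_irrefl _ h.2⟩
  calc ∑ i ∈ C, (f i : ℝ) * (1 / 2) ^ (f i) ≤ ∑ i ∈ C, rg (r i) :=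
        sum_le_sum (fun i hi => le_rg (hf i hi))
    _ = ∑ m ∈ C.image r, rg m := (sum_image hinj').symm
    _ ≤ ∑ m ∈ range C.card, rg m :=
        sum_le_sum_of_subset_of_nonneg hrange (fun m _ _ => rg_nonneg m)
    _ ≤ 5 / 2 := sum_rg_le _

end Pool.Agent.H23.VW
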