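import Mathlib
import Pool.Agent.H23.VW.Defs

/-!
# Basic facts about the values `G` and `h`
-/

set_option autoImplicit false

namespace Pool.Agent.H23.VW

open Finset

theorem G_nonneg {b : ℝ} (hb : 0 ≤ b) (F M U : Finset ℕ) : 0 ≤ G b F M U := by
  unfold G; split_ifs
  · positivity
  · exact le_rfl

theorem G_le_pow {b : ℝ} (hb : 0 ≤ b) (F M U : Finset ℕ) : G b F M U ≤ b ^ (U ∩ F).card := by
  unfold G; split_ifs
  · exact le_rfl
  · positivity

theorem G_le_one {b : ℝ} (hb : 0 ≤ b) (hb1 : b ≤ 1) (F M U : Finset ℕ) : G b F M U ≤ 1 :=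
  (G_le_pow hb F M U).trans (pow_le_one₀ hb hb1)

theorem G_mul_le {b : ℝ} (hb : 0 ≤ b) (hb1 : b ≤ 1) (F M U W : Finset ℕ) :
    G b F M U * G b F M W ≤ G b F M (U ∪ W) := by
  unfold G
  by_cases h1 : U ⊆ F ∪ M
  · by_cases h2 : W ⊆ F ∪ M
    · rw [if_pos h1, if_pos h2, if_pos (union_subset h1 h2), ← pow_add]
      apply pow_le_pow_of_le_one hb hb1
      rw [union_inter_distrib_right]
      exact card_union_le _ _
    · rw [if_neg h2, mul_zero]
      split_ifs <;> positivity
  · rw [if_neg h1, zero_mul]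
    split_ifs <;> positivity

theorem G_anti {b : ℝ} (hb : 0 ≤ b) (hb1 : b ≤ 1) (F M : Finset ℕ) {U W : Finset ℕ}
    (hUW : U ⊆ W) : G b F M W ≤ G b F M U := by
  unfold G
  by_cases h2 : W ⊆ F ∪ M
  · rw [if_pos h2, if_pos (hUW.trans h2)]
    exact pow_le_pow_of_le_one hb hb1 (card_le_card (inter_subset_inter_right hUW))
  · rw [if_neg h2]
    split_ifs <;> positivity

theorem G_breaker {b : ℝ} {F M : Finset ℕ} {u : ℕ} (huM : u ∉ M) (U : Finset ℕ) :
    G b (F.erase u) M U = if u ∈ U then 0 else G b F M U := by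
  unfold G
  by_cases hU : u ∈ U
  · rw [if_pos hU, if_neg]
    intro h
    have := h hU
    simp [huM] at this
  · rw [if_neg hU]
    have h1 : U ⊆ F.erase u ∪ M ↔ U ⊆ F ∪ M := by
      constructor
      · exact fun h => h.trans (union_subset_union_left (erase_subset _ _))
      · intro h x hx
        rcases mem_union.1 (h hx) with h' | h'
        · exact mem_union_left _ (mem_erase.2 ⟨fun e => hU (e ▸ hx), h'⟩)
        · exact mem_union_right _ h'
    have h2 : U ∩ F.erase u = U ∩ F := by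
      ext x; simp only [mem_inter, mem_erase]
      constructor
      · rintro ⟨a, _, c⟩; exact ⟨a, c⟩
      · rintro ⟨a, c⟩; exact ⟨a, fun e => hU (e ▸ a), c⟩
    rw [h2]; simp only [h1]

theorem G_maker {b : ℝ} (hb : b ≠ 0) {F M : Finset ℕ} {v : ℕ} (hv : v ∈ F) (U : Finset ℕ) :
    G b (F.erase v) (insert v M) U = if v ∈ U then G b F M U / b else G b F M U := by
  unfold G
  have h1 : F.erase v ∪ insert v M = F ∪ M := by
    ext x; simp only [mem_union, mem_erase, mem_insert]
    constructor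
    · rintro (⟨_, h⟩ | rfl | h)
      · exact Or.inl h
      · exact Or.inl hv
      · exact Or.inr h
    · rintro (h | h)
      · by_cases e : x = v
        · exact Or.inr (Or.inl e)
        · exact Or.inl ⟨e, h⟩
      · exact Or.inr (Or.inr h)
  rw [h1]
  by_cases hU : v ∈ U
  · rw [if_pos hU]
    by_cases hs : U ⊆ F ∪ M
    · rw [if_pos hs, if_pos hs]
      have h2 : (U ∩ F).card = (U ∩ F.erase v).card + 1 := by
        have : U ∩ F.erase v = (U ∩ F).erase v := by
          ext x; simp only [mem_inter, mem_erase]; tauto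
        rw [this, card_erase_of_mem (mem_inter.2 ⟨hU, hv⟩)]
        have : 0 < (U ∩ F).card := card_pos.2 ⟨v, mem_inter.2 ⟨hU, hv⟩⟩
        omega
      rw [h2, pow_succ]
      field_simp
    · rw [if_neg hs, if_neg hs, zero_div]
  · rw [if_neg hU]
    have h2 : U ∩ F.erase v = U ∩ F := by
      ext x; simp only [mem_inter, mem_erase]
      constructor
      · rintro ⟨a, _, c⟩; exact ⟨a, c⟩
      · rintro ⟨a, c⟩; exact ⟨a, fun e => hU (e ▸ a), c⟩
    rw [h2]

/-- One round: Maker takes `v`, Breaker takes `u`. -/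
theorem G_round {b : ℝ} (hb : b ≠ 0) {F M : Finset ℕ} (hFM : Disjoint F M) {u v : ℕ}
    (hv : v ∈ F) (hu : u ∈ F.erase v) (U : Finset ℕ) :
    G b ((F.erase v).erase u) (insert v M) U =
      G b F M U + (1 / b - 1) * (Gx b F M U v - (if u ∈ U then Gx b F M U v else 0)) -
        Gx b F M U u := by
  have huF : u ∈ F := mem_of_mem_erase hu
  have huv : u ≠ v := (mem_erase.1 hu).1
  have huM : u ∉ insert v M := by
    rw [mem_insert]; push Not
    exact ⟨huv, fun h => (disjoint_left.1 hFM) huF h⟩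
  rw [G_breaker huM, G_maker hb hv]
  unfold Gx
  by_cases h1 : u ∈ U
  · simp only [if_pos h1]; ring
  · by_cases h2 : v ∈ U
    · simp only [if_neg h1, if_pos h2]
      field_simp
      ring
    · simp only [if_neg h1, if_neg h2]; ring

theorem G_time {b b' : ℝ} (hb : b ≠ 0) (F M U : Finset ℕ) :
    G b' F M U = G b F M U * (b' / b) ^ (U ∩ F).card := by
  unfold G
  split_ifs
  · rw [← mul_pow, mul_div_cancel₀ _ hb]
  · rw [zero_mul]

theorem Gx_nonneg {b : ℝ} (hb : 0 ≤ b) (F M U : Finset ℕ) (x : ℕ) : 0 ≤ Gx b F M U x := by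
  unfold Gx; split_ifs
  · exact G_nonneg hb F M U
  · exact le_rfl

theorem Gx_le {b : ℝ} (hb : 0 ≤ b) (F M U : Finset ℕ) (x : ℕ) : Gx b F M U x ≤ G b F M U := by
  unfold Gx; split_ifs
  · exact le_rfl
  · exact G_nonneg hb F M U

/-- The sum of the parts over the free points counts the free points. -/
theorem sum_Gx (b : ℝ) (F M U : Finset ℕ) :
    ∑ x ∈ F, Gx b F M U x = ((U ∩ F).card : ℝ) * G b F M U := by
  unfold Gx
  rw [← sum_filter, sum_const, nsmul_eq_mul]
  congr 2
  congr 1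
  ext x; simp only [mem_filter, mem_inter]; tauto

namespace Sys

variable {ι : Type} (S : Sys ι)

theorem A_subset_Ap (i : ι) : S.A i ⊆ S.Ap i := subset_insert _ _

theorem s_mem_Ap (i : ι) : S.s i ∈ S.Ap i := mem_insert_self _ _

/-- The value of the extended window when the successor is free. -/
theorem G_Ap_of_free {b : ℝ} {F M : Finset ℕ} {i : ι} (hs : S.s i ∉ S.A i) (hF : S.s i ∈ F) :
    G b F M (S.Ap i) = b * G b F M (S.A i) := by
  unfold G Ap
  have h1 : insert (S.s i) (S.A i) ⊆ F ∪ M ↔ S.A i ⊆ F ∪ M := by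
    rw [insert_subset_iff]
    exact and_iff_right (mem_union_left _ hF)
  have h2 : (insert (S.s i) (S.A i) ∩ F).card = (S.A i ∩ F).card + 1 := by
    rw [insert_inter_of_mem hF, card_insert_of_notMem]
    simp [hs]
  simp only [h1, h2]
  split_ifs
  · ring
  · ring

/-- The value of the extended window when the successor is Maker's. -/
theorem G_Ap_of_maker {b : ℝ} {F M : Finset ℕ} (hFM : Disjoint F M) {i : ι} (hM : S.s i ∈ M) :
    G b F M (S.Ap i) = G b F M (S.A i) := by
  unfold G Ap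
  have h1 : insert (S.s i) (S.A i) ⊆ F ∪ M ↔ S.A i ⊆ F ∪ M := by
    rw [insert_subset_iff]
    exact and_iff_right (mem_union_right _ hM)
  have h2 : insert (S.s i) (S.A i) ∩ F = S.A i ∩ F := by
    rw [insert_inter_of_notMem]
    exact fun h => (disjoint_left.1 hFM) h hM
  simp only [h1, h2]

/-- The value of the extended window when the successor is Breaker's or outside. -/
theorem G_Ap_of_out {b : ℝ} {F M : Finset ℕ} {i : ι} (h1 : S.s i ∉ F) (h2 : S.s i ∉ M) :
    G b F M (S.Ap i) = 0 := by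
  unfold G
  rw [if_neg]
  intro h
  have := h (S.s_mem_Ap i)
  simp [h1, h2] at this

theorem h_of_free {b : ℝ} {F M : Finset ℕ} {i : ι} (hs : S.s i ∉ S.A i) (hF : S.s i ∈ F) :
    S.h b F M i = (1 - b) * G b F M (S.A i) := by
  unfold h; rw [S.G_Ap_of_free hs hF]; ring

theorem h_of_maker {b : ℝ} {F M : Finset ℕ} (hFM : Disjoint F M) {i : ι} (hM : S.s i ∈ M) :
    S.h b F M i = 0 := by
  unfold h; rw [S.G_Ap_of_maker hFM hM]; ring

theorem h_of_out {b : ℝ} {F M : Finset ℕ} {i : ι} (h1 : S.s i ∉ F) (h2 : S.s i ∉ M) :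
    S.h b F M i = G b F M (S.A i) := by
  unfold h; rw [S.G_Ap_of_out h1 h2]; ring

theorem h_nonneg {b : ℝ} (hb : 0 ≤ b) (hb1 : b ≤ 1) (F M : Finset ℕ) (i : ι) :
    0 ≤ S.h b F M i := by
  unfold h
  have := G_anti hb hb1 F M (S.A_subset_Ap i)
  linarith

theorem h_le_G {b : ℝ} (hb : 0 ≤ b) (F M : Finset ℕ) (i : ι) :
    S.h b F M i ≤ G b F M (S.A i) := by
  unfold h
  have := G_nonneg hb F M (S.Ap i)
  linarith

/-- If the successor is free and `1/3 ≤ b`, then `h ≤ 2 G(A⁺)`. -/
theorem h_le_two_mul {b : ℝ} (hb : 1 / 3 ≤ b) {F M : Finset ℕ} {i : ι} (hs : S.s i ∉ S.A i)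
    (hF : S.s i ∈ F) : S.h b F M i ≤ 2 * G b F M (S.Ap i) := by
  rw [S.h_of_free hs hF, S.G_Ap_of_free hs hF]
  have := G_nonneg (by linarith : (0:ℝ) ≤ b) F M (S.A i)
  nlinarith

/-- If the successor is free and `b ≤ 1/2`, then `G(A⁺) ≤ h`. -/
theorem G_Ap_le_h {b : ℝ} (hb0 : 0 ≤ b) (hb : b ≤ 1 / 2) {F M : Finset ℕ} {i : ι}
    (hs : S.s i ∉ S.A i) (hF : S.s i ∈ F) : G b F M (S.Ap i) ≤ S.h b F M i := by
  rw [S.h_of_free hs hF, S.G_Ap_of_free hs hF]
  have := G_nonneg hb0 F M (S.A i)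
  nlinarith

/-- A window of positive value which is not complete has a free point. -/
theorem h_le_f_mul {b : ℝ} (hb : 0 ≤ b) (hb1 : b ≤ 1) {F M : Finset ℕ} {i : ι}
    (hw : ¬ S.A i ⊆ M) : S.h b F M i ≤ S.f F i * S.h b F M i := by
  by_cases hal : S.A i ⊆ F ∪ M
  · have h1 : 1 ≤ S.f F i := by
      unfold f
      have : (S.A i ∩ F).Nonempty := by
        by_contra hne
        rw [not_nonempty_iff_eq_empty] at hne
        apply hw
        intro x hx
        rcases mem_union.1 (hal hx) with h' | h'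
        · have : x ∈ S.A i ∩ F := mem_inter.2 ⟨hx, h'⟩
          rw [hne] at this
          exact absurd this (notMem_empty _)
        · exact h'
      exact_mod_cast card_pos.2 this
    have := S.h_nonneg hb hb1 F M i
    nlinarith
  · have h0 : S.h b F M i = 0 := by
      have h1 : G b F M (S.A i) = 0 := by unfold G; rw [if_neg hal]
      have h2 := S.h_le_G hb F M i
      have h3 := S.h_nonneg hb hb1 F M i
      linarith
    rw [h0]; simp

end Sys

end Pool.Agent.H23.VW
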