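import Mathlib
import Pool.Agent.H23.VW.APDefs
import Pool.Agent.H23.VW.Basic
import Pool.Agent.H23.VW.APRank

/-!
# The line bound for progressions of a fixed difference (module [H23 VW LINE])

Proof of `ap_rank`. Let `i = (a, d)` in `C` and let `j = (a', d)` in `C` with
`s j = a' + n d < s i = a + n d`, i.e. `a' < a`. The point `s j` belongs to `A i`:
`x` is in `Ap i` and in `Ap j` (`apSys_Ap`: `Ap (a,d) = prog (n+1) a d`), so
`x = a + t d = a' + t' d` with `t, t' ≤ n`, hence `a ≡ a' (mod d)` and `s j = a' + n d` equals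
`a + r d` with `r = n - (t' - t)`, where `t' > t` (because `a' < a`, `d ≥ 1`), so `0 ≤ r < n`
(use `t' ≤ n`). So `s j ∈ A i ⊆ F ∪ M`, and `s j ∉ M` (as `j ∈ C`), so `s j ∈ F`. The map
`j ↦ s j` is injective on `C` (same `d`). So the image of the filter under `s` is a subset of
`A i ∩ F`, and `card_image_of_injOn` gives the claim.

Proof of `apSys_line`. Terms with `h = 0` contribute `0`; a window with `h ≠ 0` satisfies
`A i ⊆ F ∪ M` (else `G (A i) = 0` and `0 ≤ h ≤ G (A i)`, `Sys.h_nonneg`, `Sys.h_le_G`) and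
`s i ∉ M` (`Sys.h_of_maker`). So the sum is over the set `C` of `ap_rank`
(`sum_filter_of_ne` / `sum_subset`), and each term is at most
`(card (A i ∩ F)) * (1/2)^(card (A i ∩ F))` (`Sys.h_le_G`, `G_le_pow`, `pow_le_pow_left₀`).
Apply `sum_rank_le` with label `s` (injective on `C` since all members have the same `d`) and
`f i = (A i ∩ F).card`.
-/

set_option autoImplicit false

namespace Pool.Agent.H23.VW

open Finset

/-- The number of free points of a window of positive value: it contains the successors of all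
windows of the same difference through `x` (extended) with smaller start. -/
theorem ap_rank {n N : ℕ} {F M : Finset ℕ} (x d : ℕ)
    (C : Finset (ℕ × ℕ))
    (hC : C = ((apSys n N).I.filter (fun i => (apSys n N).dir i = d ∧ x ∈ (apSys n N).Ap i)).filter
      (fun i => (apSys n N).A i ⊆ F ∪ M ∧ (apSys n N).s i ∉ M)) :
    ∀ i ∈ C, (C.filter (fun j => (apSys n N).s j < (apSys n N).s i)).card ≤
      ((apSys n N).A i ∩ F).card := by
  have hmem : ∀ i, i ∈ C ↔ (i ∈ (apSys n N).I ∧ (apSys n N).dir i = d ∧ x ∈ (apSys n N).Ap i) ∧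
      (apSys n N).A i ⊆ F ∪ M ∧ (apSys n N).s i ∉ M := by
    intro i
    rw [hC, mem_filter, mem_filter]
  rintro ⟨a, d1⟩ hi
  obtain ⟨⟨-, hdi, hxi⟩, hAi, -⟩ := (hmem _).1 hi
  have hd1 : d1 = d := hdi
  subst hd1
  rw [apSys_Ap, mem_prog] at hxi
  obtain ⟨t, ht, htx⟩ := hxi
  simp only at htx
  refine card_le_card_of_injOn (fun j => (apSys n N).s j) ?_ ?_
  · rintro ⟨a', d2⟩ hj
    obtain ⟨hjC, hlt⟩ := mem_filter.1 hj
    obtain ⟨⟨-, hdj, hxj⟩, -, hsj⟩ := (hmem _).1 hjC
    have hd2 : d2 = d1 := hdj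
    subst hd2
    rw [apSys_Ap, mem_prog] at hxj
    obtain ⟨t', ht', htx'⟩ := hxj
    simp only at htx'
    have hlt' : a' + n * d2 < a + n * d2 := hlt
    have haa : a' < a := by omega
    have htt : t < t' := by
      by_contra hc
      push Not at hc
      have := Nat.mul_le_mul_right d2 hc
      omega
    obtain ⟨e, rfl⟩ := Nat.exists_eq_add_of_lt htt
    have hae : a = a' + (e + 1) * d2 := by
      have : (t + e + 1) * d2 = t * d2 + (e + 1) * d2 := by ring
      omega
    obtain ⟨r, hr⟩ := Nat.exists_eq_add_of_le (show e + 1 ≤ n by omega)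
    have hs : (apSys n N).s (a', d2) ∈ (apSys n N).A (a, d2) := by
      change a' + n * d2 ∈ prog n a d2
      rw [mem_prog]
      refine ⟨r, by omega, ?_⟩
      rw [hae, hr]
      ring
    have hFM := hAi hs
    exact mem_inter.2 ⟨hs, (mem_union.1 hFM).resolve_right hsj⟩
  · rintro ⟨a', d2⟩ hj ⟨a'', d3⟩ hj' h
    have e1 : d2 = d1 := ((hmem _).1 (mem_filter.1 hj).1).1.2.1
    have e2 : d3 = d1 := ((hmem _).1 (mem_filter.1 hj').1).1.2.1
    have h' : a' + n * d2 = a'' + n * d3 := h
    rw [e1, e2] at h'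
    rw [e1, e2]
    have : a' = a'' := by omega
    rw [this]

theorem apSys_line {n N : ℕ} (b : ℝ) (F M : Finset ℕ) (hb0 : 0 < b) (hb : b ≤ 1 / 2)
    (hFM : Disjoint F M) (x : ℕ) (hx : x ∈ F) (d : ℕ) :
    ∑ i ∈ (apSys n N).I.filter (fun i => (apSys n N).dir i = d ∧ x ∈ (apSys n N).Ap i),
      (apSys n N).f F i * (apSys n N).h b F M i ≤ 5 / 2 := by
  set C : Finset (ℕ × ℕ) :=
    ((apSys n N).I.filter (fun i => (apSys n N).dir i = d ∧ x ∈ (apSys n N).Ap i)).filter
      (fun i => (apSys n N).A i ⊆ F ∪ M ∧ (apSys n N).s i ∉ M) with hC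
  have hsum : ∑ i ∈ (apSys n N).I.filter (fun i => (apSys n N).dir i = d ∧ x ∈ (apSys n N).Ap i),
      (apSys n N).f F i * (apSys n N).h b F M i =
      ∑ i ∈ C, (apSys n N).f F i * (apSys n N).h b F M i := by
    rw [hC]
    refine (sum_filter_of_ne ?_).symm
    intro i _ hne
    constructor
    · by_contra hA
      have h1 : G b F M ((apSys n N).A i) = 0 := by
        unfold G
        exact if_neg hA
      have h2 := (apSys n N).h_le_G hb0.le F M i
      have h3 := (apSys n N).h_nonneg hb0.le (by linarith) F M i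
      have h4 : (apSys n N).h b F M i = 0 := by linarith
      exact hne (by rw [h4, mul_zero])
    · intro hM
      exact hne (by rw [(apSys n N).h_of_maker hFM hM, mul_zero])
  rw [hsum]
  refine le_trans (sum_le_sum fun i _ => ?_)
    (sum_rank_le C (fun i => (apSys n N).s i) (fun i => ((apSys n N).A i ∩ F).card) ?_
      (ap_rank x d C hC))
  · unfold Sys.f
    refine mul_le_mul_of_nonneg_left ?_ (Nat.cast_nonneg _)
    exact ((apSys n N).h_le_G hb0.le F M i).trans ((G_le_pow hb0.le F M _).trans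
      (pow_le_pow_left₀ hb0.le hb _))
  · rintro ⟨a', d2⟩ hj ⟨a'', d3⟩ hj' h
    have e1 : d2 = d := (mem_filter.1 (mem_filter.1 hj).1).2.1
    have e2 : d3 = d := (mem_filter.1 (mem_filter.1 hj').1).2.1
    have h' : a' + n * d2 = a'' + n * d3 := h
    rw [e1, e2] at h'
    rw [e1, e2]
    have : a' = a'' := by omega
    rw [this]

end Pool.Agent.H23.VW
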