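import Mathlib
import Pool.Agent.H23.VW.APDefs
import Pool.Agent.H23.VW.Basic

/-!
# Number of pairs of windows with two common points (module [H23 VW PCOUNT])

Proof. `PP` consists of pairs `(j, k)` of elements of `J = I ×ˢ {false,true}`,
`U ((a,d),false) = prog n a d`, `U ((a,d),true) = prog (n+1) a d` (`apSys_Ap`), with
`dir j ≠ dir k` and at least two common points (`one_lt_card`). Map such a pair to
`(j, e, i1, i2, l1, l2)` where `e` is the Bool of `k` and the common points `x ≠ y` are the terms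
of index `i1, i2 ≤ n` of `U j` and of index `l1, l2 ≤ n` of `U k`. This data determines `k`:
`a' + l1 d' = x`, `a' + l2 d' = y`, `l1 ≠ l2`, so `d'` and `a'` are determined. So the number is at
most `(card J) * 2 * (n+1)^4 ≤ 2 N^2 * 2 * (n+1)^4` (`card I ≤ N^2`: subset of
`Icc 1 N ×ˢ Icc 1 N`). The easiest formal way: the set is contained in the image of
`J ×ˢ univ ×ˢ range (n+1) ×ˢ range (n+1) ×ˢ range (n+1) ×ˢ range (n+1)` under an explicit map
(with `d' = dist x y / dist l1 l2`, `a' = x - l1 d'`), or an injection obtained by choice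
(`card_le_card_of_injOn`).
-/

set_option autoImplicit false

namespace Pool.Agent.H23.VW

open Finset

private lemma pc_U {n N x : ℕ} (j : (ℕ × ℕ) × Bool) (h : x ∈ (apSys n N).U j) :
    ∃ i < n + 1, j.1.1 + i * j.1.2 = x := by
  unfold Sys.U at h
  split_ifs at h with hj
  · rw [apSys_Ap, mem_prog] at h
    exact h
  · have h' : x ∈ prog n j.1.1 j.1.2 := h
    rw [mem_prog] at h'
    obtain ⟨i, hi, hx⟩ := h'
    exact ⟨i, by omega, hx⟩

/-- the second set of a pair, recovered from the indices of two common points -/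
private def pcMap (q : ((ℕ × ℕ) × Bool) × Bool × ℕ × ℕ × ℕ × ℕ) :
    ((ℕ × ℕ) × Bool) × ((ℕ × ℕ) × Bool) :=
  (q.1, ((q.1.1.1 + q.2.2.1 * q.1.1.2 - q.2.2.2.2.1 *
      (((q.1.1.1 + q.2.2.2.1 * q.1.1.2) - (q.1.1.1 + q.2.2.1 * q.1.1.2)) /
        (q.2.2.2.2.2 - q.2.2.2.2.1)),
    ((q.1.1.1 + q.2.2.2.1 * q.1.1.2) - (q.1.1.1 + q.2.2.1 * q.1.1.2)) /
        (q.2.2.2.2.2 - q.2.2.2.2.1)), q.2.1))

private lemma pc_sub (n N : ℕ) : (apSys n N).PP ⊆
    ((apSys n N).J ×ˢ (univ : Finset Bool) ×ˢ range (n + 1) ×ˢ range (n + 1) ×ˢ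
      range (n + 1) ×ˢ range (n + 1)).image pcMap := by
  rintro ⟨j, k⟩ h
  unfold Sys.PP at h
  rw [mem_filter, mem_product] at h
  obtain ⟨⟨hj, hk⟩, _, hcard⟩ := h
  have h1 : 1 < ((apSys n N).U j ∩ (apSys n N).U k).card := hcard
  rw [one_lt_card] at h1
  obtain ⟨x, hx, y, hy, hxy⟩ := h1
  have hex : ∃ x y : ℕ, x < y ∧ x ∈ (apSys n N).U j ∩ (apSys n N).U k ∧
      y ∈ (apSys n N).U j ∩ (apSys n N).U k := by
    rcases lt_or_gt_of_ne hxy with h | h
    · exact ⟨x, y, h, hx, hy⟩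
    · exact ⟨y, x, h, hy, hx⟩
  obtain ⟨x, y, hlt, hx, hy⟩ := hex
  rw [mem_inter] at hx hy
  obtain ⟨i1, hi1, hi1x⟩ := pc_U j hx.1
  obtain ⟨i2, hi2, hi2y⟩ := pc_U j hy.1
  obtain ⟨l1, hl1, hl1x⟩ := pc_U k hx.2
  obtain ⟨l2, hl2, hl2y⟩ := pc_U k hy.2
  rw [mem_image]
  refine ⟨(j, k.2, i1, i2, l1, l2), ?_, ?_⟩
  · simp only [mem_product, mem_univ, mem_range, true_and]
    exact ⟨hj, hi1, hi2, hl1, hl2⟩
  · have hll : l1 < l2 := by
      by_contra h
      rw [not_lt] at h
      have := Nat.mul_le_mul_right k.1.2 h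
      omega
    have hd : (y - x) / (l2 - l1) = k.1.2 := by
      have h2 : y - x = (l2 - l1) * k.1.2 := by
        rw [Nat.sub_mul]
        have := Nat.mul_le_mul_right k.1.2 hll.le
        omega
      rw [h2]
      exact Nat.mul_div_cancel_left _ (by omega)
    unfold pcMap
    simp only [hi1x, hi2y, hd]
    have h3 : x - l1 * k.1.2 = k.1.1 := by omega
    rw [h3]

/-- Number of pairs of (extended) windows with at least two common points. -/
theorem card_pairs_le {n N : ℕ} (hn : 2 ≤ n) :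
    (apSys n N).PP.card ≤ 8 * N ^ 2 * (n + 1) ^ 4 := by
  have hI : (apSys n N).I.card ≤ N ^ 2 := by
    refine (card_filter_le _ _).trans ?_
    rw [card_product, Nat.card_Icc, sq]
    simp
  have hJ : (apSys n N).J.card ≤ 2 * N ^ 2 := by
    unfold Sys.J
    rw [card_product, card_univ, Fintype.card_bool]
    omega
  refine (card_le_card (pc_sub n N)).trans (card_image_le.trans ?_)
  simp only [card_product, card_univ, Fintype.card_bool, card_range]
  calc (apSys n N).J.card * (2 * ((n + 1) * ((n + 1) * ((n + 1) * (n + 1)))))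
      ≤ (2 * N ^ 2) * (2 * ((n + 1) * ((n + 1) * ((n + 1) * (n + 1))))) :=
        Nat.mul_le_mul_right _ hJ
    _ = 4 * N ^ 2 * (n + 1) ^ 4 := by ring
    _ ≤ 8 * N ^ 2 * (n + 1) ^ 4 := by
        refine Nat.mul_le_mul_right _ (Nat.mul_le_mul_right _ (by norm_num))

end Pool.Agent.H23.VW
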