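import Mathlib
import Pool.Agent.H23.VW.APInter
import Pool.Agent.H23.VW.APPairCount

/-!
# The initial value of the pair potential (module [H23 VW PZERO])

Proof. `P b (Icc 1 N) ∅ = ∑ p ∈ PP, G b (Icc 1 N) ∅ (U p.1 ∪ U p.2)`. Each term is at most
`b^(card (U1 ∪ U2)) ≤ (1/2)^(card ...)` if the union is in `Icc 1 N` and `0` otherwise (`G`; then
the intersection with `F = Icc 1 N` is everything). `U1, U2` are progressions `prog k a d` with
`k ∈ {n, n+1}` (`apSys_Ap`) and different differences, so by `card_inter_prog_le` and `card_prog`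
the union has at least `n + n / 2` elements:
`card = |U1| + |U2| - |U1 ∩ U2|`, `2 |U1 ∩ U2| ≤ max + 1`; cases: both `n`:
`2 |∪| ≥ 4n - (n+1) = 3n - 1`; one `n`, one `n+1`: `2 |∪| ≥ 4n+2 - (n+2) = 3n`; both `n+1`: more.
So every term is at most `(1/2)^(n + n/2)`, and `card_pairs_le` bounds the number of terms.
(There is room: the constant in the claim is `32`, the proof gives `8`.)
-/

set_option autoImplicit false

namespace Pool.Agent.H23.VW

open Finset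

theorem ap_U_eq {n N : ℕ} {j : (ℕ × ℕ) × Bool} (hj : j ∈ (apSys n N).J) :
    1 ≤ j.1.2 ∧ ∃ k, (k = n ∨ k = n + 1) ∧ (apSys n N).U j = prog k j.1.1 j.1.2 := by
  obtain ⟨⟨a, d⟩, e⟩ := j
  unfold Sys.J at hj
  rw [mem_product] at hj
  have h1 := mem_apI.1 hj.1
  refine ⟨h1.2.1, ?_⟩
  cases e with
  | false => exact ⟨n, Or.inl rfl, rfl⟩
  | true => exact ⟨n + 1, Or.inr rfl, apSys_Ap n N (a, d)⟩

theorem G_empty_le {b : ℝ} (hb0 : 0 ≤ b) (hb : b ≤ 1 / 2) (F W : Finset ℕ) (m : ℕ)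
    (hm : m ≤ W.card) : G b F ∅ W ≤ (1 / 2) ^ m := by
  unfold G
  split_ifs with h
  · rw [union_empty] at h
    rw [inter_eq_left.2 h]
    calc b ^ W.card ≤ (1 / 2) ^ W.card := pow_le_pow_left₀ hb0 hb _
      _ ≤ (1 / 2) ^ m := pow_le_pow_of_le_one (by norm_num) (by norm_num) hm
  · positivity

theorem P_zero_le {n N : ℕ} (hn : 2 ≤ n) {b : ℝ} (hb0 : 0 ≤ b) (hb : b ≤ 1 / 2) :
    (apSys n N).P b (Icc 1 N) ∅ ≤ 32 * (N : ℝ) ^ 2 * (n + 1) ^ 4 / 2 ^ (n + n / 2) := by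
  unfold Sys.P
  have h1 : ∀ p ∈ (apSys n N).PP, G b (Icc 1 N) ∅ ((apSys n N).U p.1 ∪ (apSys n N).U p.2) ≤
      (1 / 2 : ℝ) ^ (n + n / 2) := by
    rintro ⟨j, j'⟩ hp
    unfold Sys.PP at hp
    rw [mem_filter, mem_product] at hp
    obtain ⟨⟨hj, hj'⟩, hdir, -⟩ := hp
    obtain ⟨hd, k, hk, hU⟩ := ap_U_eq hj
    obtain ⟨hd', k', hk', hU'⟩ := ap_U_eq hj'
    apply G_empty_le hb0 hb
    dsimp only at hU hU' hd hd' hdir ⊢
    rw [hU, hU']
    have hne : j.1.2 ≠ j'.1.2 := hdir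
    have h2 := card_inter_prog_le (k := k) (k' := k') (a := j.1.1) (a' := j'.1.1) hd hd' hne
    have h3 := card_union_add_card_inter (prog k j.1.1 j.1.2) (prog k' j'.1.1 j'.1.2)
    rw [card_prog hd, card_prog hd'] at h3
    rcases hk with rfl | rfl <;> rcases hk' with rfl | rfl <;> omega
  calc ∑ p ∈ (apSys n N).PP, G b (Icc 1 N) ∅ ((apSys n N).U p.1 ∪ (apSys n N).U p.2)
      ≤ ∑ _p ∈ (apSys n N).PP, (1 / 2 : ℝ) ^ (n + n / 2) := sum_le_sum h1
    _ = ((apSys n N).PP.card : ℝ) * (1 / 2 : ℝ) ^ (n + n / 2) := by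
        rw [sum_const, nsmul_eq_mul]
    _ ≤ (8 * (N : ℝ) ^ 2 * (n + 1) ^ 4) * (1 / 2 : ℝ) ^ (n + n / 2) := by
        apply mul_le_mul_of_nonneg_right _ (by positivity)
        exact_mod_cast card_pairs_le hn
    _ = 8 * (N : ℝ) ^ 2 * (n + 1) ^ 4 / 2 ^ (n + n / 2) := by
        rw [one_div, inv_pow, div_eq_mul_inv]
    _ ≤ 32 * (N : ℝ) ^ 2 * (n + 1) ^ 4 / 2 ^ (n + n / 2) := by
        apply div_le_div_of_nonneg_right _ (by positivity)
        have : 0 ≤ (N : ℝ) ^ 2 * (n + 1) ^ 4 := by positivity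
        nlinarith

end Pool.Agent.H23.VW
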