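import Mathlib
import Pool.Agent.H23.VW.APDefs
import Pool.Agent.H23.VW.Basic

/-!
# Number of windows through a point (module [H23 VW THRU])

Proof. `J = I ×ˢ {false, true}`, `U ((a,d),false) = prog n a d`, `U ((a,d),true) = prog (n+1) a d`
(`apSys_Ap`). For `k = n` or `n + 1`: a progression `prog k a d ⊆ Icc 1 N` containing `x` is
determined by `(i, d)` with `i < k`, `x = a + i d`, and `(k-1) d ≤ N - 1` (first and last term in
`Icc 1 N`), so `d ∈ Icc 1 ((N-1)/(k-1))`. So the number is at most `k * ((N-1)/(k-1)) ≤ 2 (N-1)`,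
because `k ≤ 2 (k-1)` for `k ≥ 2`. (Injection `j ↦ (i, d)` into `range k ×ˢ Icc 1 ((N-1)/(k-1))`,
or: the set is contained in the image of the map `(i,d) ↦ ((x - i d, d), e)`.) Sum over
`e ∈ {false, true}`: `≤ 4 N`.
-/

set_option autoImplicit false

namespace Pool.Agent.H23.VW

open Finset

/-- the progressions with `k` terms through `x`, with a bound for the difference -/
private def thruB (k N x : ℕ) : Finset (ℕ × ℕ) :=
  (range k ×ˢ Icc 1 ((N - 1) / (k - 1))).image fun p => (x - p.1 * p.2, p.2)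

private theorem card_thruB {k N : ℕ} (hk : 2 ≤ k) (x : ℕ) : (thruB k N x).card ≤ 2 * N := by
  unfold thruB
  refine card_image_le.trans ?_
  rw [card_product, card_range, Nat.card_Icc, Nat.add_sub_cancel]
  have h1 : (k - 1) * ((N - 1) / (k - 1)) ≤ N - 1 := Nat.mul_div_le _ _
  have h2 : k ≤ 2 * (k - 1) := by omega
  calc k * ((N - 1) / (k - 1)) ≤ (2 * (k - 1)) * ((N - 1) / (k - 1)) :=
        Nat.mul_le_mul_right _ h2
    _ = 2 * ((k - 1) * ((N - 1) / (k - 1))) := by ring
    _ ≤ 2 * (N - 1) := Nat.mul_le_mul_left _ h1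
    _ ≤ 2 * N := by omega

private theorem mem_thruB {k N x a d : ℕ} (hk : 2 ≤ k) (hd : 1 ≤ d)
    (hs : prog k a d ⊆ Icc 1 N) (hx : x ∈ prog k a d) : (a, d) ∈ thruB k N x := by
  obtain ⟨i, hi, hix⟩ := mem_prog.1 hx
  have h0 : 1 ≤ a := by
    have h1 : a ∈ prog k a d := mem_prog.2 ⟨0, by omega, by simp⟩
    exact (mem_Icc.1 (hs h1)).1
  have h2 : a + (k - 1) * d ≤ N := by
    have h1 : a + (k - 1) * d ∈ prog k a d := mem_prog.2 ⟨k - 1, by omega, rfl⟩
    exact (mem_Icc.1 (hs h1)).2
  have h3 : d ≤ (N - 1) / (k - 1) := by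
    rw [Nat.le_div_iff_mul_le (by omega), mul_comm]
    omega
  refine mem_image.2 ⟨(i, d), mem_product.2 ⟨mem_range.2 hi, mem_Icc.2 ⟨hd, h3⟩⟩, ?_⟩
  simp only [Prod.mk.injEq, and_true]
  omega

/-- At most `4 N` (extended) windows inside `{1, ..., N}` contain a given point. -/
theorem card_through_le {n N : ℕ} (hn : 2 ≤ n) (x : ℕ) :
    ((apSys n N).J.filter (fun j => (apSys n N).U j ⊆ Icc 1 N ∧ x ∈ (apSys n N).U j)).card ≤
      4 * N := by
  have hsub : ((apSys n N).J.filter
      (fun j => (apSys n N).U j ⊆ Icc 1 N ∧ x ∈ (apSys n N).U j)) ⊆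
      (thruB n N x).image (fun p => (p, false)) ∪
        (thruB (n + 1) N x).image (fun p => (p, true)) := by
    rintro ⟨⟨a, d⟩, e⟩ hj
    obtain ⟨hJ, hs, hx⟩ := mem_filter.1 hj
    have hI : (a, d) ∈ (apSys n N).I := (mem_product.1 hJ).1
    have hd : 1 ≤ d := (mem_apI.1 hI).2.1
    cases e with
    | false =>
      have hU : (apSys n N).U ((a, d), false) = prog n a d := rfl
      rw [hU] at hs hx
      exact mem_union_left _ (mem_image.2 ⟨(a, d), mem_thruB hn hd hs hx, rfl⟩)
    | true =>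
      have hU : (apSys n N).U ((a, d), true) = prog (n + 1) a d := by
        have h1 := apSys_Ap n N (a, d)
        simpa [Sys.U] using h1
      rw [hU] at hs hx
      exact mem_union_right _
        (mem_image.2 ⟨(a, d), mem_thruB (by omega) hd hs hx, rfl⟩)
  refine (card_le_card hsub).trans ((card_union_le _ _).trans ?_)
  have h1 := (card_image_le (s := thruB n N x)
    (f := fun p : ℕ × ℕ => (p, false))).trans (card_thruB (N := N) hn x)
  have h2 := (card_image_le (s := thruB (n + 1) N x)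
    (f := fun p : ℕ × ℕ => (p, true))).trans (card_thruB (k := n + 1) (N := N) (by omega) x)
  omega

end Pool.Agent.H23.VW
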