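import Mathlib
import Pool.Agent.H23.VW.APThrough

/-!
# The initial value of the triple potential (module [H23 VW TRI])

Proof. `Q b (Icc 1 N) ∅ = ∑ p ∈ TT, G b (Icc 1 N) ∅ (U1 ∪ (U2 ∪ U3))`. A term is `0` unless
`U1, U2, U3 ⊆ Icc 1 N`. For `p ∈ TT` inside `Icc 1 N`: each `U` has `n` or `n+1` elements
(`card_prog`, `apSys_Ap`; `d ≥ 1` by `mem_apI`), pairwise intersections have at most one element, so
the union has at least `3 n - 3` elements and the term is at most `b^(card) ≤ (1/2)^(3n-3)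
= 8 / 2^(3n)`. The number of such `p`: each has a common point `x ∈ Icc 1 N`, so it is at most
`∑ x ∈ Icc 1 N, (number of U ∋ x inside Icc 1 N)^3 ≤ N (4N)^3 = 64 N^4` (`card_through_le`; the set
is contained in the `biUnion` over `x ∈ Icc 1 N` of the triple products of the filtered sets;
`card_biUnion_le`). Total `≤ 64 N^4 * 8 / 2^(3n)`.
-/

set_option autoImplicit false

namespace Pool.Agent.H23.VW

open Finset

theorem ap_card_U {n N : ℕ} {j : (ℕ × ℕ) × Bool} (hj : j ∈ (apSys n N).J) :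
    n ≤ ((apSys n N).U j).card := by
  obtain ⟨⟨a, d⟩, e⟩ := j
  unfold Sys.J at hj
  rw [mem_product] at hj
  have h1 := mem_apI.1 hj.1
  cases e with
  | false =>
    show n ≤ (prog n a d).card
    rw [card_prog h1.2.1]
  | true =>
    show n ≤ ((apSys n N).Ap (a, d)).card
    rw [apSys_Ap, card_prog h1.2.1]
    omega

theorem Q_zero_le {n N : ℕ} (hn : 2 ≤ n) {b : ℝ} (hb0 : 0 ≤ b) (hb : b ≤ 1 / 2) :
    (apSys n N).Q b (Icc 1 N) ∅ ≤ 512 * (N : ℝ) ^ 4 / 2 ^ (3 * n) := by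
  classical
  unfold Sys.Q
  set S := apSys n N with hS
  set T := S.TT.filter (fun p => S.U p.1 ∪ (S.U p.2.1 ∪ S.U p.2.2) ⊆ Icc 1 N) with hT
  -- terms
  have h1 : ∀ p ∈ S.TT, G b (Icc 1 N) ∅ (S.U p.1 ∪ (S.U p.2.1 ∪ S.U p.2.2)) ≤
      if S.U p.1 ∪ (S.U p.2.1 ∪ S.U p.2.2) ⊆ Icc 1 N then (1 / 2 : ℝ) ^ (3 * n - 3) else 0 := by
    rintro ⟨j1, j2, j3⟩ hp
    unfold Sys.TT at hp
    simp only [mem_filter, mem_product] at hp
    obtain ⟨⟨hj1, hj2, hj3⟩, h12, h13, h23, -⟩ := hp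
    have c1 := ap_card_U hj1
    have c2 := ap_card_U hj2
    have c3 := ap_card_U hj3
    rw [← hS] at c1 c2 c3
    have u1 := card_union_add_card_inter (S.U j2) (S.U j3)
    have u2 := card_union_add_card_inter (S.U j1) (S.U j2 ∪ S.U j3)
    have u3 : (S.U j1 ∩ (S.U j2 ∪ S.U j3)).card ≤
        (S.U j1 ∩ S.U j2).card + (S.U j1 ∩ S.U j3).card := by
      rw [inter_union_distrib_left]
      exact card_union_le _ _
    have hcard : 3 * n - 3 ≤ (S.U j1 ∪ (S.U j2 ∪ S.U j3)).card := by omega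
    dsimp only
    unfold G
    rw [union_empty]
    split_ifs with h
    · rw [inter_eq_left.2 h]
      calc b ^ (S.U j1 ∪ (S.U j2 ∪ S.U j3)).card
          ≤ (1 / 2) ^ (S.U j1 ∪ (S.U j2 ∪ S.U j3)).card := pow_le_pow_left₀ hb0 hb _
        _ ≤ (1 / 2) ^ (3 * n - 3) := pow_le_pow_of_le_one (by norm_num) (by norm_num) hcard
    · exact le_rfl
  -- number of terms
  have h2 : T.card ≤ N * (4 * N) ^ 3 := by
    set R : ℕ → Finset ((ℕ × ℕ) × Bool) := fun x =>
      S.J.filter (fun j => S.U j ⊆ Icc 1 N ∧ x ∈ S.U j) with hR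
    have hsub : T ⊆ (Icc 1 N).biUnion (fun x => R x ×ˢ (R x ×ˢ R x)) := by
      rintro ⟨j1, j2, j3⟩ hp
      rw [hT, mem_filter] at hp
      obtain ⟨hp, hin⟩ := hp
      unfold Sys.TT at hp
      simp only [mem_filter, mem_product] at hp
      obtain ⟨⟨hj1, hj2, hj3⟩, -, -, -, x, hx⟩ := hp
      dsimp only at hin
      rw [mem_inter, mem_inter] at hx
      have i1 : S.U j1 ⊆ Icc 1 N := subset_union_left.trans hin
      have i2 : S.U j2 ⊆ Icc 1 N := (subset_union_left.trans subset_union_right).trans hin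
      have i3 : S.U j3 ⊆ Icc 1 N := (subset_union_right.trans subset_union_right).trans hin
      rw [mem_biUnion]
      refine ⟨x, i1 hx.1, ?_⟩
      simp only [hR, mem_product, mem_filter]
      exact ⟨⟨hj1, i1, hx.1⟩, ⟨hj2, i2, hx.2.1⟩, ⟨hj3, i3, hx.2.2⟩⟩
    calc T.card ≤ ((Icc 1 N).biUnion (fun x => R x ×ˢ (R x ×ˢ R x))).card := card_le_card hsub
      _ ≤ ∑ x ∈ Icc 1 N, (R x ×ˢ (R x ×ˢ R x)).card := card_biUnion_le
      _ ≤ ∑ _x ∈ Icc 1 N, (4 * N) ^ 3 := by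
          apply sum_le_sum
          intro x _
          rw [card_product, card_product]
          have h3 : (R x).card ≤ 4 * N := card_through_le hn x
          calc (R x).card * ((R x).card * (R x).card) ≤ (4 * N) * ((4 * N) * (4 * N)) :=
                Nat.mul_le_mul h3 (Nat.mul_le_mul h3 h3)
            _ = (4 * N) ^ 3 := by ring
      _ = N * (4 * N) ^ 3 := by
          rw [sum_const, Nat.card_Icc, smul_eq_mul, Nat.add_sub_cancel]
  calc ∑ p ∈ S.TT, G b (Icc 1 N) ∅ (S.U p.1 ∪ (S.U p.2.1 ∪ S.U p.2.2))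
      ≤ ∑ p ∈ S.TT, if S.U p.1 ∪ (S.U p.2.1 ∪ S.U p.2.2) ⊆ Icc 1 N then
          (1 / 2 : ℝ) ^ (3 * n - 3) else 0 := sum_le_sum h1
    _ = (T.card : ℝ) * (1 / 2 : ℝ) ^ (3 * n - 3) := by
        rw [← sum_filter, sum_const, nsmul_eq_mul]
    _ ≤ ((N : ℝ) * (4 * N) ^ 3) * (1 / 2 : ℝ) ^ (3 * n - 3) := by
        apply mul_le_mul_of_nonneg_right _ (by positivity)
        exact_mod_cast h2
    _ = 512 * (N : ℝ) ^ 4 / 2 ^ (3 * n) := by
        obtain ⟨m, hm⟩ : ∃ m, 3 * n = m + 3 := ⟨3 * n - 3, by omega⟩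
        rw [hm, Nat.add_sub_cancel, pow_add, one_div, inv_pow]
        field_simp
        ring

end Pool.Agent.H23.VW
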