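import Mathlib
import Pool.Agent.H23.VW.Basic

/-!
# Change of the sums in one round
-/

set_option autoImplicit false

namespace Pool.Agent.H23.VW

open Finset

namespace Sys

variable {ι : Type} (S : Sys ι)

theorem Sv_round {b : ℝ} (hb : b ≠ 0) {F M : Finset ℕ} (hFM : Disjoint F M) {u v : ℕ}
    (hv : v ∈ F) (hu : u ∈ F.erase v) (y : ℕ) :
    S.Sv b ((F.erase v).erase u) (insert v M) y =
      S.Sv b F M y + (1 / b - 1) * (S.Sx b F M y v - S.Sxx b F M y u v) - S.Sx b F M y u := by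
  unfold Sv Sx Sxx
  rw [← sum_sub_distrib, mul_sum, ← sum_add_distrib, ← sum_sub_distrib]
  refine sum_congr rfl fun i _ => ?_
  unfold h
  rw [G_round hb hFM hv hu, G_round hb hFM hv hu]
  ring

theorem P_round_le {b : ℝ} (hb : 0 < b) (hb1 : b ≤ 1) {F M : Finset ℕ} (hFM : Disjoint F M)
    {u v : ℕ} (hv : v ∈ F) (hu : u ∈ F.erase v) :
    S.P b ((F.erase v).erase u) (insert v M) ≤
      S.P b F M + (1 / b - 1) * S.Px b F M v - S.Px b F M u := by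
  unfold P Px
  rw [mul_sum, ← sum_add_distrib, ← sum_sub_distrib]
  refine sum_le_sum fun p _ => ?_
  rw [G_round hb.ne' hFM hv hu]
  have h1 : 0 ≤ 1 / b - 1 := by
    rw [sub_nonneg, le_div_iff₀ hb]; linarith
  have h2 : 0 ≤ (if u ∈ S.U p.1 ∪ S.U p.2 then Gx b F M (S.U p.1 ∪ S.U p.2) v else 0) := by
    split_ifs
    · exact Gx_nonneg hb.le _ _ _ _
    · exact le_rfl
  nlinarith [mul_nonneg h1 h2]

theorem Q_round_le {b : ℝ} (hb : 0 < b) (hb1 : b ≤ 1) {F M : Finset ℕ} (hFM : Disjoint F M)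
    {u v : ℕ} (hv : v ∈ F) (hu : u ∈ F.erase v) :
    S.Q b ((F.erase v).erase u) (insert v M) ≤
      S.Q b F M + (1 / b - 1) * S.Qx b F M v - S.Qx b F M u := by
  unfold Q Qx
  rw [mul_sum, ← sum_add_distrib, ← sum_sub_distrib]
  refine sum_le_sum fun p _ => ?_
  rw [G_round hb.ne' hFM hv hu]
  have h1 : 0 ≤ 1 / b - 1 := by
    rw [sub_nonneg, le_div_iff₀ hb]; linarith
  have h2 : 0 ≤ (if u ∈ S.U p.1 ∪ (S.U p.2.1 ∪ S.U p.2.2) then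
      Gx b F M (S.U p.1 ∪ (S.U p.2.1 ∪ S.U p.2.2)) v else 0) := by
    split_ifs
    · exact Gx_nonneg hb.le _ _ _ _
    · exact le_rfl
  nlinarith [mul_nonneg h1 h2]

theorem Sv_nonneg {b : ℝ} (hb : 0 ≤ b) (hb1 : b ≤ 1) (F M : Finset ℕ) (y : ℕ) :
    0 ≤ S.Sv b F M y := sum_nonneg fun i _ => S.h_nonneg hb hb1 F M i

theorem Sp_nonneg {b : ℝ} (hb : 0 ≤ b) (hb1 : b ≤ 1) (F M : Finset ℕ) (y : ℕ) :
    0 ≤ S.Sp b F M y := sum_nonneg fun i _ => S.h_nonneg hb hb1 F M i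

theorem H_nonneg {b : ℝ} (hb : 0 ≤ b) (hb1 : b ≤ 1) (F M : Finset ℕ) (y x : ℕ) :
    0 ≤ S.H b F M y x := sum_nonneg fun i _ => S.h_nonneg hb hb1 F M i

theorem f_nonneg (F : Finset ℕ) (i : ι) : 0 ≤ S.f F i := by unfold f; positivity

theorem X1_nonneg {b : ℝ} (hb : 0 ≤ b) (hb1 : b ≤ 1) (F M : Finset ℕ) (u v : ℕ) :
    0 ≤ S.X1 b F M u v :=
  sum_nonneg fun i _ => mul_nonneg (S.f_nonneg F i) (S.h_nonneg hb hb1 F M i)

theorem P_nonneg {b : ℝ} (hb : 0 ≤ b) (F M : Finset ℕ) : 0 ≤ S.P b F M :=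
  sum_nonneg fun _ _ => G_nonneg hb _ _ _

theorem Q_nonneg {b : ℝ} (hb : 0 ≤ b) (F M : Finset ℕ) : 0 ≤ S.Q b F M :=
  sum_nonneg fun _ _ => G_nonneg hb _ _ _

theorem Px_nonneg {b : ℝ} (hb : 0 ≤ b) (F M : Finset ℕ) (x : ℕ) : 0 ≤ S.Px b F M x :=
  sum_nonneg fun _ _ => Gx_nonneg hb _ _ _ _

theorem Qx_nonneg {b : ℝ} (hb : 0 ≤ b) (F M : Finset ℕ) (x : ℕ) : 0 ≤ S.Qx b F M x :=
  sum_nonneg fun _ _ => Gx_nonneg hb _ _ _ _

end Sys

end Pool.Agent.H23.VW
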