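import Mathlib
import Pool.Agent.H23.VW.Moves

/-!
# First bounds: `|Sx| ≤ H`, `|Sxx| ≤ H`, sums over the free points
-/

set_option autoImplicit false

namespace Pool.Agent.H23.VW

open Finset

namespace Sys

variable {ι : Type} (S : Sys ι)

theorem abs_Sx_le_H {n : ℕ} (hg : S.Good n) {b : ℝ} (hb0 : 0 ≤ b) (hb : b ≤ 1 / 2)
    {F M : Finset ℕ} {y x : ℕ} (hx : x ∈ F) : |S.Sx b F M y x| ≤ S.H b F M y x := by
  have hb1 : b ≤ 1 := by linarith
  unfold Sx H
  refine (abs_sum_le_sum_abs _ _).trans ?_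
  have e : S.I.filter (fun i => y ∈ S.A i ∧ x ∈ S.Ap i) =
      (S.I.filter (fun i => y ∈ S.A i)).filter (fun i => x ∈ S.Ap i) := by
    rw [filter_filter]
  rw [e, sum_filter (p := fun i => x ∈ S.Ap i)]
  refine sum_le_sum fun i hi => ?_
  have hiI : i ∈ S.I := (mem_filter.1 hi).1
  have hs := hg.s_notMem i hiI
  unfold Gx
  by_cases h1 : x ∈ S.A i
  · have h2 : x ∈ S.Ap i := S.A_subset_Ap i h1
    rw [if_pos h1, if_pos h2, if_pos h2]
    have h3 := S.h_nonneg hb0 hb1 F M i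
    unfold h at h3 ⊢
    rw [abs_of_nonneg h3]
  · by_cases h2 : x ∈ S.Ap i
    · have hxs : x = S.s i := by
        unfold Ap at h2
        rcases mem_insert.1 h2 with h' | h'
        · exact h'
        · exact absurd h' h1
      rw [if_neg h1, if_pos h2, if_pos h2, zero_sub, abs_neg,
        abs_of_nonneg (G_nonneg hb0 _ _ _)]
      exact S.G_Ap_le_h hb0 hb hs (hxs ▸ hx)
    · rw [if_neg h1, if_neg h2, if_neg h2, sub_zero, abs_zero]

/-- Bound of one term of `Sxx`. -/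
theorem abs_Sxx_term_le {n : ℕ} (hg : S.Good n) {b : ℝ} (hb0 : 0 ≤ b) (hb : b ≤ 1 / 2)
    {F M : Finset ℕ} {u v : ℕ} (hu : u ∈ F) (hv : v ∈ F) {i : ι} (hiI : i ∈ S.I) :
    |(if u ∈ S.A i then Gx b F M (S.A i) v else 0) -
      (if u ∈ S.Ap i then Gx b F M (S.Ap i) v else 0)| ≤
      if u ∈ S.Ap i ∧ v ∈ S.Ap i then S.h b F M i else 0 := by
  have hb1 : b ≤ 1 := by linarith
  have hs := hg.s_notMem i hiI
  have hh := S.h_nonneg hb0 hb1 F M i
  have hG := G_nonneg hb0 F M (S.Ap i)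
  unfold Gx
  by_cases hu2 : u ∈ S.Ap i
  · by_cases hv2 : v ∈ S.Ap i
    · rw [if_pos (⟨hu2, hv2⟩ : u ∈ S.Ap i ∧ v ∈ S.Ap i), if_pos hu2, if_pos hv2]
      by_cases hu1 : u ∈ S.A i
      · by_cases hv1 : v ∈ S.A i
        · rw [if_pos hu1, if_pos hv1]
          unfold h at hh ⊢
          rw [abs_of_nonneg hh]
        · have hvs : v = S.s i := by
            unfold Ap at hv2
            exact (mem_insert.1 hv2).resolve_right hv1
          rw [if_pos hu1, if_neg hv1, zero_sub, abs_neg, abs_of_nonneg hG]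
          exact S.G_Ap_le_h hb0 hb hs (hvs ▸ hv)
      · have hus : u = S.s i := by
          unfold Ap at hu2
          exact (mem_insert.1 hu2).resolve_right hu1
        rw [if_neg hu1, zero_sub, abs_neg, abs_of_nonneg hG]
        exact S.G_Ap_le_h hb0 hb hs (hus ▸ hu)
    · have hv1 : v ∉ S.A i := fun hh => hv2 (S.A_subset_Ap i hh)
      simp [hv1, hv2]
  · have hu1 : u ∉ S.A i := fun hh => hu2 (S.A_subset_Ap i hh)
    simp [hu1, hu2]

theorem abs_Sxx_le_H {n : ℕ} (hg : S.Good n) {b : ℝ} (hb0 : 0 ≤ b) (hb : b ≤ 1 / 2)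
    {F M : Finset ℕ} {y u v : ℕ} (hu : u ∈ F) (hv : v ∈ F) :
    |S.Sxx b F M y u v| ≤ S.H b F M y v := by
  have hb1 : b ≤ 1 := by linarith
  unfold Sxx H
  refine (abs_sum_le_sum_abs _ _).trans ?_
  have e : S.I.filter (fun i => y ∈ S.A i ∧ v ∈ S.Ap i) =
      (S.I.filter (fun i => y ∈ S.A i)).filter (fun i => v ∈ S.Ap i) := by
    rw [filter_filter]
  rw [e, sum_filter (p := fun i => v ∈ S.Ap i)]
  refine sum_le_sum fun i hi => ?_
  refine (S.abs_Sxx_term_le hg hb0 hb hu hv (mem_filter.1 hi).1).trans ?_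
  have hh := S.h_nonneg hb0 hb1 F M i
  split_ifs with h1 h2 h2
  · exact le_rfl
  · exact absurd h1.2 h2
  · exact hh
  · exact le_rfl

/-- Interchange of summation: summing over centres counts free points. -/
theorem sum_centres_le {F F' : Finset ℕ} (hF : F' ⊆ F) (I' : Finset ι) (g : ι → ℝ)
    (hg : ∀ i ∈ I', 0 ≤ g i) :
    ∑ y ∈ F', ∑ i ∈ I'.filter (fun i => y ∈ S.A i), g i ≤ ∑ i ∈ I', S.f F i * g i := by
  simp only [sum_filter]
  rw [sum_comm]
  refine sum_le_sum fun i hi => ?_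
  rw [← sum_filter, sum_const, nsmul_eq_mul]
  refine mul_le_mul_of_nonneg_right ?_ (hg i hi)
  unfold f
  have : (F'.filter (fun y => y ∈ S.A i)) ⊆ S.A i ∩ F := by
    intro x hx
    rw [mem_filter] at hx
    exact mem_inter.2 ⟨hx.2, hF hx.1⟩
  exact_mod_cast card_le_card this

theorem sum_abs_Sxx_le_X1 {n : ℕ} (hg : S.Good n) {b : ℝ} (hb0 : 0 ≤ b) (hb : b ≤ 1 / 2)
    {F M : Finset ℕ} {u v : ℕ} (hu : u ∈ F) (hv : v ∈ F) {F' : Finset ℕ} (hF : F' ⊆ F) :
    ∑ y ∈ F', |S.Sxx b F M y u v| ≤ S.X1 b F M u v := by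
  have hb1 : b ≤ 1 := by linarith
  unfold X1
  refine le_trans ?_ (S.sum_centres_le hF (S.I.filter (fun i => u ∈ S.Ap i ∧ v ∈ S.Ap i))
    (fun i => S.h b F M i) (fun i _ => S.h_nonneg hb0 hb1 F M i))
  refine sum_le_sum fun y _ => ?_
  unfold Sxx
  refine (abs_sum_le_sum_abs _ _).trans ?_
  rw [filter_filter, filter_congr (fun i _ => and_comm), ← filter_filter,
    sum_filter (p := fun i => u ∈ S.Ap i ∧ v ∈ S.Ap i)]
  exact sum_le_sum fun i hi => S.abs_Sxx_term_le hg hb0 hb hu hv (mem_filter.1 hi).1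

theorem sum_H_le {n : ℕ} (hg : S.Good n) {b : ℝ} (hb0 : 0 ≤ b) (hb : b ≤ 1 / 2)
    {F M : Finset ℕ} {x : ℕ} {F' : Finset ℕ} (hF : F' ⊆ F) :
    ∑ y ∈ F', S.H b F M y x ≤ n * S.Sp b F M x := by
  have hb1 : b ≤ 1 := by linarith
  have h1 := S.sum_centres_le hF (S.I.filter (fun i => x ∈ S.Ap i))
    (fun i => S.h b F M i) (fun i _ => S.h_nonneg hb0 hb1 F M i)
  have h2 : ∑ i ∈ S.I.filter (fun i => x ∈ S.Ap i), S.f F i * S.h b F M i ≤
      n * S.Sp b F M x := by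
    unfold Sp
    rw [mul_sum]
    refine sum_le_sum fun i hi => ?_
    refine mul_le_mul_of_nonneg_right ?_ (S.h_nonneg hb0 hb1 F M i)
    unfold f
    exact_mod_cast (card_le_card inter_subset_left).trans (hg.card_le i (mem_filter.1 hi).1)
  refine le_trans (le_of_eq ?_) (h1.trans h2)
  refine sum_congr rfl fun y _ => ?_
  unfold H
  rw [filter_filter]
  exact sum_congr (filter_congr fun i _ => and_comm) fun _ _ => rfl

theorem H_le_X1 {b : ℝ} (hb0 : 0 ≤ b) (hb : b ≤ 1 / 2)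
    {F M : Finset ℕ} {u v : ℕ} (hu : u ∈ F) : S.H b F M u v ≤ S.X1 b F M u v := by
  have hb1 : b ≤ 1 := by linarith
  unfold H X1
  have hsub : S.I.filter (fun i => u ∈ S.A i ∧ v ∈ S.Ap i) ⊆
      S.I.filter (fun i => u ∈ S.Ap i ∧ v ∈ S.Ap i) := by
    intro i hi
    rw [mem_filter] at hi ⊢
    exact ⟨hi.1, S.A_subset_Ap i hi.2.1, hi.2.2⟩
  refine le_trans ?_ (sum_le_sum_of_subset_of_nonneg hsub fun i _ _ =>
    mul_nonneg (S.f_nonneg F i) (S.h_nonneg hb0 hb1 F M i))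
  refine sum_le_sum fun i hi => ?_
  have h1 : (1 : ℝ) ≤ S.f F i := by
    unfold f
    exact_mod_cast card_pos.2 ⟨u, mem_inter.2 ⟨(mem_filter.1 hi).2.1, hu⟩⟩
  have := S.h_nonneg hb0 hb1 F M i
  nlinarith

theorem X1_comm (b : ℝ) (F M : Finset ℕ) (u v : ℕ) : S.X1 b F M u v = S.X1 b F M v u := by
  unfold X1
  exact sum_congr (filter_congr fun i _ => and_comm) fun _ _ => rfl

end Sys

end Pool.Agent.H23.VW
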