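import Mathlib
import Pool.Agent.H23.VW.Bounds1

/-!
# Change of the potential when the base changes
-/

set_option autoImplicit false

namespace Pool.Agent.H23.VW

open Finset

/-- The base at time `t`. -/
noncomputable def bs (t : ℝ) : ℝ := Real.exp (-t) / 2

theorem bs_pos (t : ℝ) : 0 < bs t := by unfold bs; positivity

theorem bs_le_half {t : ℝ} (ht : 0 ≤ t) : bs t ≤ 1 / 2 := by
  unfold bs
  have : Real.exp (-t) ≤ 1 := Real.exp_le_one_iff.2 (by linarith)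
  linarith

theorem G_bs (t0 t : ℝ) (F M U : Finset ℕ) :
    G (bs t0) F M U = G (bs t) F M U * Real.exp ((t - t0) * ((U ∩ F).card : ℝ)) := by
  rw [G_time (bs_pos t).ne' (b' := bs t0)]
  congr 1
  have : bs t0 / bs t = Real.exp (t - t0) := by
    unfold bs
    rw [div_div_div_cancel_right₀ (by norm_num : (2:ℝ) ≠ 0), ← Real.exp_sub]
    congr 1; ring
  rw [this, ← Real.exp_nat_mul]
  congr 1; ring

theorem cube_le (f : ℕ) : (f : ℝ) ^ 3 ≤ 4 * 2 ^ f := by
  have h : f ^ 3 ≤ 4 * 2 ^ f := by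
    rcases Nat.lt_or_ge f 5 with h | h
    · interval_cases f <;> norm_num
    · induction f, h using Nat.le_induction with
      | base => norm_num
      | succ k hk ih =>
        have h1 : (k + 1) ^ 3 ≤ 2 * k ^ 3 := by
          have h2 : 25 ≤ k * k := Nat.mul_le_mul hk hk
          nlinarith [Nat.mul_le_mul h2 hk]
        rw [pow_succ 2 k]
        omega
  exact_mod_cast h

theorem cube_mul_G_le {b : ℝ} (hb0 : 0 ≤ b) (hb : b ≤ 1 / 2) (F M U : Finset ℕ) :
    ((U ∩ F).card : ℝ) ^ 3 * G b F M U ≤ 4 := by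
  have h1 := cube_le (U ∩ F).card
  have h2 : G b F M U ≤ (1 / 2) ^ (U ∩ F).card :=
    (G_le_pow hb0 F M U).trans (pow_le_pow_left₀ hb0 hb _)
  have h3 := G_nonneg hb0 F M U
  calc ((U ∩ F).card : ℝ) ^ 3 * G b F M U ≤ (4 * 2 ^ (U ∩ F).card) * (1 / 2) ^ (U ∩ F).card :=
        mul_le_mul h1 h2 h3 (by positivity)
    _ = 4 := by
        rw [mul_assoc, ← mul_pow]; norm_num

namespace Sys

variable {ι : Type} (S : Sys ι)

theorem P_time (t0 t : ℝ) (F M : Finset ℕ) :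
    S.P (bs t) F M ≤ S.P (bs t0) F M - (t - t0) * ∑ x ∈ F, S.Px (bs t) F M x := by
  unfold Px
  rw [sum_comm, mul_sum]
  unfold P
  rw [← sum_sub_distrib]
  refine sum_le_sum fun p _ => ?_
  rw [sum_Gx, G_bs t0 t]
  have h1 := Real.add_one_le_exp ((t - t0) * (((S.U p.1 ∪ S.U p.2) ∩ F).card : ℝ))
  have h2 := G_nonneg (bs_pos t).le F M (S.U p.1 ∪ S.U p.2)
  nlinarith [mul_le_mul_of_nonneg_left h1 h2]

theorem Q_time (t0 t : ℝ) (F M : Finset ℕ) :
    S.Q (bs t) F M ≤ S.Q (bs t0) F M - (t - t0) * ∑ x ∈ F, S.Qx (bs t) F M x := by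
  unfold Qx
  rw [sum_comm, mul_sum]
  unfold Q
  rw [← sum_sub_distrib]
  refine sum_le_sum fun p _ => ?_
  rw [sum_Gx, G_bs t0 t]
  have h1 := Real.add_one_le_exp
    ((t - t0) * (((S.U p.1 ∪ (S.U p.2.1 ∪ S.U p.2.2)) ∩ F).card : ℝ))
  have h2 := G_nonneg (bs_pos t).le F M (S.U p.1 ∪ (S.U p.2.1 ∪ S.U p.2.2))
  nlinarith [mul_le_mul_of_nonneg_left h1 h2]

theorem Sx_self (b : ℝ) (F M : Finset ℕ) (y : ℕ) : S.Sx b F M y y = S.Sv b F M y := by
  unfold Sx Sv
  refine sum_congr rfl fun i hi => ?_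
  have h1 := (mem_filter.1 hi).2
  unfold Gx h
  rw [if_pos h1, if_pos (S.A_subset_Ap i h1)]

theorem Sv_time {n : ℕ} (hg : S.Good n) {t0 t : ℝ} (ht : t0 ≤ t) (hq : (t - t0) * n ≤ 1)
    (F M : Finset ℕ) (y : ℕ) :
    S.Sv (bs t0) F M y - S.Sv (bs t) F M y ≤ (t - t0) * ∑ x ∈ F, S.Sx (bs t) F M y x +
      (t - t0) ^ 2 * ∑ i ∈ S.I.filter (fun i => y ∈ S.A i),
        S.f F i ^ 2 * G (bs t) F M (S.A i) := by
  unfold Sx
  rw [sum_comm, mul_sum, mul_sum]
  unfold Sv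
  rw [← sum_sub_distrib, ← sum_add_distrib]
  refine sum_le_sum fun i hi => ?_
  rw [sum_sub_distrib, sum_Gx, sum_Gx]
  unfold h f
  rw [G_bs t0 t F M (S.A i), G_bs t0 t F M (S.Ap i)]
  set fA : ℝ := ((S.A i ∩ F).card : ℝ) with hfA
  set fB : ℝ := ((S.Ap i ∩ F).card : ℝ) with hfB
  have hA := G_nonneg (bs_pos t).le F M (S.A i)
  have hB := G_nonneg (bs_pos t).le F M (S.Ap i)
  have hfA0 : 0 ≤ fA := by rw [hfA]; positivity
  have hfAn : fA ≤ n := by
    rw [hfA]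
    exact_mod_cast (card_le_card inter_subset_left).trans (hg.card_le i (mem_filter.1 hi).1)
  have hq0 : 0 ≤ t - t0 := by linarith
  have hqf : (t - t0) * fA ≤ 1 := (mul_le_mul_of_nonneg_left hfAn hq0).trans hq
  have e1 : Real.exp ((t - t0) * fA) ≤ 1 + (t - t0) * fA + ((t - t0) * fA) ^ 2 := by
    have := Real.abs_exp_sub_one_sub_id_le (x := (t - t0) * fA)
      (by rw [abs_of_nonneg (mul_nonneg hq0 hfA0)]; exact hqf)
    linarith [(abs_le.1 this).2]
  have e2 := Real.add_one_le_exp ((t - t0) * fB)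
  have m1 := mul_le_mul_of_nonneg_left e1 hA
  have m2 := mul_le_mul_of_nonneg_left e2 hB
  nlinarith

theorem time_ineq {n : ℕ} (hg : S.Good n) (Y : Finset ℕ) {L k1 k7 : ℝ} (hL : 0 ≤ L)
    (hk1 : 0 ≤ k1) (hk7 : 0 ≤ k7) {t0 t : ℝ} (ht0 : 0 ≤ t0) (ht : t0 ≤ t)
    (hq : (t - t0) * n ≤ 1) (F M : Finset ℕ) :
    S.Pot Y L k1 k7 (bs t) F M ≤ S.Pot Y L k1 k7 (bs t0) F M +
      (t - t0) * (∑ x ∈ F, S.Yf Y L k1 k7 (bs t) F M x) + (t - t0) * Y.card +
        4 * L * (t - t0) ^ 2 * S.I.card := by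
  have hb00 := bs_pos t
  have hb := bs_le_half (ht0.trans ht)
  have hb1 : bs t ≤ 1 := by linarith
  have hq0 : 0 ≤ t - t0 := by linarith
  set z : ℕ → ℝ := fun y => Real.exp (-(L * S.Sv (bs t) F M y)) with hz
  have hz0 : ∀ y, 0 ≤ z y := fun y => (Real.exp_pos _).le
  have hz1 : ∀ y, z y ≤ 1 := fun y => Real.exp_le_one_iff.2 (by
    have := mul_nonneg hL (S.Sv_nonneg hb00.le hb1 F M y); linarith)
  set C := F ∩ Y with hC
  -- one centre
  have hcentre : ∀ y, z y ≤ Real.exp (-(L * S.Sv (bs t0) F M y)) +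
      L * z y * ((t - t0) * ∑ x ∈ F, S.Sx (bs t) F M y x) +
      L * (t - t0) ^ 2 * ∑ i ∈ S.I.filter (fun i => y ∈ S.A i),
        S.f F i ^ 2 * G (bs t) F M (S.A i) := by
    intro y
    have h1 := S.Sv_time hg ht hq F M y
    set E := ∑ i ∈ S.I.filter (fun i => y ∈ S.A i), S.f F i ^ 2 * G (bs t) F M (S.A i) with hE
    have hE0 : 0 ≤ E := sum_nonneg fun i _ => mul_nonneg (sq_nonneg _) (G_nonneg hb00.le _ _ _)
    set T := ∑ x ∈ F, S.Sx (bs t) F M y x with hT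
    have h2 : z y * (1 - (L * S.Sv (bs t0) F M y - L * S.Sv (bs t) F M y)) ≤
        Real.exp (-(L * S.Sv (bs t0) F M y)) := by
      have h3 : Real.exp (-(L * S.Sv (bs t0) F M y)) = z y *
          Real.exp (-(L * S.Sv (bs t0) F M y - L * S.Sv (bs t) F M y)) := by
        rw [hz, ← Real.exp_add]; congr 1; ring
      rw [h3]
      refine mul_le_mul_of_nonneg_left ?_ (hz0 y)
      have := Real.add_one_le_exp (-(L * S.Sv (bs t0) F M y - L * S.Sv (bs t) F M y))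
      linarith
    have h4 : L * z y * (S.Sv (bs t0) F M y - S.Sv (bs t) F M y) ≤
        L * z y * ((t - t0) * T + (t - t0) ^ 2 * E) :=
      mul_le_mul_of_nonneg_left h1 (mul_nonneg hL (hz0 y))
    have h5 : L * z y * ((t - t0) ^ 2 * E) ≤ L * (t - t0) ^ 2 * E := by
      have h6 : 0 ≤ L * ((t - t0) ^ 2 * E) :=
        mul_nonneg hL (mul_nonneg (sq_nonneg _) hE0)
      nlinarith [mul_le_mul_of_nonneg_left (hz1 y) h6]
    nlinarith
  have hZ : S.Z Y L (bs t) F M ≤ S.Z Y L (bs t0) F M +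
      ∑ y ∈ C, L * z y * ((t - t0) * ∑ x ∈ F, S.Sx (bs t) F M y x) +
      ∑ y ∈ C, L * (t - t0) ^ 2 * ∑ i ∈ S.I.filter (fun i => y ∈ S.A i),
        S.f F i ^ 2 * G (bs t) F M (S.A i) := by
    unfold Z
    rw [← hC, ← sum_add_distrib, ← sum_add_distrib]
    exact sum_le_sum fun y _ => hcentre y
  -- the error term
  have herr : ∑ y ∈ C, L * (t - t0) ^ 2 * ∑ i ∈ S.I.filter (fun i => y ∈ S.A i),
        S.f F i ^ 2 * G (bs t) F M (S.A i) ≤ 4 * L * (t - t0) ^ 2 * S.I.card := by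
    rw [← mul_sum]
    have h1 := S.sum_centres_le (F := F) (F' := C) inter_subset_left S.I
      (fun i => S.f F i ^ 2 * G (bs t) F M (S.A i))
      (fun i _ => mul_nonneg (sq_nonneg _) (G_nonneg hb00.le _ _ _))
    have h2 : ∑ i ∈ S.I, S.f F i * (S.f F i ^ 2 * G (bs t) F M (S.A i)) ≤
        ∑ i ∈ S.I, (4 : ℝ) := by
      refine sum_le_sum fun i _ => ?_
      have := cube_mul_G_le hb00.le hb F M (S.A i)
      unfold f
      calc _ = ((S.A i ∩ F).card : ℝ) ^ 3 * G (bs t) F M (S.A i) := by ring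
        _ ≤ 4 := this
    rw [sum_const, nsmul_eq_mul] at h2
    have h3 : 0 ≤ L * (t - t0) ^ 2 := mul_nonneg hL (sq_nonneg _)
    have := mul_le_mul_of_nonneg_left (h1.trans h2) h3
    linarith
  -- the main term
  have hmain : ∑ y ∈ C, L * z y * ((t - t0) * ∑ x ∈ F, S.Sx (bs t) F M y x) ≤
      (t - t0) * (∑ x ∈ F, S.YZ Y L (bs t) F M x) + (t - t0) * Y.card := by
    have h1 : ∑ y ∈ C, L * z y * ((t - t0) * ∑ x ∈ F, S.Sx (bs t) F M y x) =
        (t - t0) * ∑ x ∈ F, ∑ y ∈ C, L * z y * S.Sx (bs t) F M y x := by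
      rw [sum_comm, mul_sum]
      refine sum_congr rfl fun y _ => ?_
      rw [← mul_sum]; ring
    have h2 : ∀ x ∈ F, ∑ y ∈ C, L * z y * S.Sx (bs t) F M y x ≤
        S.YZ Y L (bs t) F M x + (if x ∈ Y then 1 else 0) := by
      intro x hx
      unfold YZ
      rw [← hC]
      by_cases hxY : x ∈ Y
      · have hxC : x ∈ C := mem_inter.2 ⟨hx, hxY⟩
        rw [if_pos hxY, ← add_sum_erase _ _ hxC, S.Sx_self]
        have h3 : L * z x * S.Sv (bs t) F M x ≤ 1 := by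
          have h4 := Real.add_one_le_exp (L * S.Sv (bs t) F M x)
          have h5 : z x * Real.exp (L * S.Sv (bs t) F M x) = 1 := by
            rw [hz, ← Real.exp_add]; simp
          have h6 := mul_le_mul_of_nonneg_left h4 (hz0 x)
          rw [h5] at h6
          nlinarith [hz0 x]
        simp only [hz] at h3 ⊢
        linarith
      · have hxC : x ∉ C := fun hh => hxY (mem_inter.1 hh).2
        rw [if_neg hxY, erase_eq_of_notMem hxC, add_zero]
    rw [h1]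
    have h7 : ∑ x ∈ F, (if x ∈ Y then (1:ℝ) else 0) ≤ Y.card := by
      rw [← sum_filter, sum_const, nsmul_eq_mul, mul_one]
      have : F.filter (fun x => x ∈ Y) ⊆ Y := fun x hx => (mem_filter.1 hx).2
      exact_mod_cast card_le_card this
    have h8 := sum_le_sum h2
    rw [sum_add_distrib] at h8
    have h9 := mul_le_mul_of_nonneg_left (h8.trans (add_le_add_right h7 _)) hq0
    linarith
  have hP := mul_le_mul_of_nonneg_left (S.P_time t0 t F M) hk1
  have hQ := mul_le_mul_of_nonneg_left (S.Q_time t0 t F M) hk7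
  have hY : ∑ x ∈ F, S.Yf Y L k1 k7 (bs t) F M x = ∑ x ∈ F, S.YZ Y L (bs t) F M x -
      k1 * ∑ x ∈ F, S.Px (bs t) F M x - k7 * ∑ x ∈ F, S.Qx (bs t) F M x := by
    unfold Yf
    rw [sum_sub_distrib, sum_sub_distrib, mul_sum, mul_sum]
  rw [hY]
  unfold Pot
  linarith

end Sys

end Pool.Agent.H23.VW
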