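import Mathlib
import Pool.Agent.H23.VW.TimeIneq

/-!
# Lower bound for the sum of the linearised values
-/

set_option autoImplicit false

namespace Pool.Agent.H23.VW

open Finset

namespace Sys

variable {ι : Type} (S : Sys ι)

theorem card_U_le {n : ℕ} (hg : S.Good n) {j : ι × Bool} (hj : j ∈ S.J) :
    (S.U j).card ≤ n + 1 := by
  unfold J at hj
  have h1 := (mem_product.1 hj).1
  unfold U
  split_ifs
  · unfold Ap
    exact (card_insert_le _ _).trans (Nat.add_le_add_right (hg.card_le _ h1) 1)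
  · exact (hg.card_le _ h1).trans (Nat.le_succ n)

theorem sum_Px_le {n : ℕ} (hg : S.Good n) {b : ℝ} (hb0 : 0 ≤ b) (F M : Finset ℕ) :
    ∑ x ∈ F, S.Px b F M x ≤ (2 * n + 2) * S.P b F M := by
  unfold Px P
  rw [sum_comm, mul_sum]
  refine sum_le_sum fun p hp => ?_
  rw [sum_Gx]
  refine mul_le_mul_of_nonneg_right ?_ (G_nonneg hb0 _ _ _)
  have hp' := mem_product.1 (mem_filter.1 hp).1
  have h1 := S.card_U_le hg hp'.1
  have h2 := S.card_U_le hg hp'.2
  have h3 : ((S.U p.1 ∪ S.U p.2) ∩ F).card ≤ 2 * n + 2 := by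
    refine (card_le_card inter_subset_left).trans ((card_union_le _ _).trans ?_)
    omega
  exact_mod_cast h3

theorem sum_Qx_le {n : ℕ} (hg : S.Good n) {b : ℝ} (hb0 : 0 ≤ b) (F M : Finset ℕ) :
    ∑ x ∈ F, S.Qx b F M x ≤ (3 * n + 3) * S.Q b F M := by
  unfold Qx Q
  rw [sum_comm, mul_sum]
  refine sum_le_sum fun p hp => ?_
  rw [sum_Gx]
  refine mul_le_mul_of_nonneg_right ?_ (G_nonneg hb0 _ _ _)
  have hp' := mem_product.1 (mem_filter.1 hp).1
  have hp'' := mem_product.1 hp'.2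
  have h1 := S.card_U_le hg hp'.1
  have h2 := S.card_U_le hg hp''.1
  have h4 := S.card_U_le hg hp''.2
  have h3 : ((S.U p.1 ∪ (S.U p.2.1 ∪ S.U p.2.2)) ∩ F).card ≤ 3 * n + 3 := by
    refine (card_le_card inter_subset_left).trans ((card_union_le _ _).trans ?_)
    have := card_union_le (S.U p.2.1) (S.U p.2.2)
    omega
  exact_mod_cast h3

theorem sum_Sx_nonneg {n : ℕ} (hg : S.Good n) {b : ℝ} (hb0 : 0 ≤ b) (hb : b ≤ 1 / 2)
    {F M : Finset ℕ} (hFM : Disjoint F M) {y : ℕ} (hy : y ∈ F) :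
    0 ≤ ∑ x ∈ F, S.Sx b F M y x := by
  unfold Sx
  rw [sum_comm]
  refine sum_nonneg fun i hi => ?_
  rw [sum_sub_distrib, sum_Gx, sum_Gx]
  have hiI := (mem_filter.1 hi).1
  have hyA := (mem_filter.1 hi).2
  have hs := hg.s_notMem i hiI
  have hG := G_nonneg hb0 F M (S.A i)
  have hf1 : (1 : ℝ) ≤ ((S.A i ∩ F).card : ℝ) := by
    exact_mod_cast card_pos.2 ⟨y, mem_inter.2 ⟨hyA, hy⟩⟩
  by_cases h1 : S.s i ∈ F
  · rw [S.G_Ap_of_free hs h1]
    have h2 : ((S.Ap i ∩ F).card : ℝ) = ((S.A i ∩ F).card : ℝ) + 1 := by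
      unfold Ap
      rw [insert_inter_of_mem h1, card_insert_of_notMem (by simp [hs])]
      push_cast; ring
    rw [h2]
    have h3 : (((S.A i ∩ F).card : ℝ) + 1) * b ≤ ((S.A i ∩ F).card : ℝ) := by nlinarith
    nlinarith
  · by_cases h2 : S.s i ∈ M
    · rw [S.G_Ap_of_maker hFM h2]
      have h3 : S.Ap i ∩ F = S.A i ∩ F := by
        unfold Ap
        rw [insert_inter_of_notMem h1]
      rw [h3]; linarith
    · rw [S.G_Ap_of_out h1 h2]
      have := mul_nonneg (by linarith : (0:ℝ) ≤ ((S.A i ∩ F).card : ℝ)) hG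
      linarith

theorem sum_Yf_ge {n : ℕ} (hg : S.Good n) (Y : Finset ℕ) {L k1 k7 : ℝ} (hL : 0 ≤ L)
    (hk1 : 0 ≤ k1) (hk7 : 0 ≤ k7) {b : ℝ} (hb0 : 0 ≤ b) (hb : b ≤ 1 / 2)
    {F M : Finset ℕ} (hFM : Disjoint F M) :
    -((2 * n + 2) * (k1 * S.P b F M) + (3 * n + 3) * (k7 * S.Q b F M) + Y.card) ≤
      ∑ x ∈ F, S.Yf Y L k1 k7 b F M x := by
  have hb1 : b ≤ 1 := by linarith
  have hP := mul_le_mul_of_nonneg_left (S.sum_Px_le hg hb0 F M) hk1
  have hQ := mul_le_mul_of_nonneg_left (S.sum_Qx_le hg hb0 F M) hk7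
  have hY : ∑ x ∈ F, S.Yf Y L k1 k7 b F M x = ∑ x ∈ F, S.YZ Y L b F M x -
      k1 * ∑ x ∈ F, S.Px b F M x - k7 * ∑ x ∈ F, S.Qx b F M x := by
    unfold Yf
    rw [sum_sub_distrib, sum_sub_distrib, mul_sum, mul_sum]
  set z : ℕ → ℝ := fun y => Real.exp (-(L * S.Sv b F M y)) with hz
  have hz0 : ∀ y, 0 ≤ z y := fun y => (Real.exp_pos _).le
  set C := F ∩ Y with hC
  have h1 : 0 ≤ ∑ x ∈ F, ∑ y ∈ C, L * z y * S.Sx b F M y x := by
    rw [sum_comm]
    refine sum_nonneg fun y hy => ?_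
    rw [← mul_sum]
    exact mul_nonneg (mul_nonneg hL (hz0 y))
      (S.sum_Sx_nonneg hg hb0 hb hFM (mem_inter.1 hy).1)
  have h2 : ∀ x ∈ F, ∑ y ∈ C, L * z y * S.Sx b F M y x ≤
      S.YZ Y L b F M x + (if x ∈ Y then 1 else 0) := by
    intro x hx
    unfold YZ
    rw [← hC]
    by_cases hxY : x ∈ Y
    · have hxC : x ∈ C := mem_inter.2 ⟨hx, hxY⟩
      rw [if_pos hxY, ← add_sum_erase _ _ hxC, S.Sx_self]
      have h3 : L * z x * S.Sv b F M x ≤ 1 := by
        have h4 := Real.add_one_le_exp (L * S.Sv b F M x)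
        have h5 : z x * Real.exp (L * S.Sv b F M x) = 1 := by
          rw [hz, ← Real.exp_add]; simp
        have h6 := mul_le_mul_of_nonneg_left h4 (hz0 x)
        rw [h5] at h6
        nlinarith [hz0 x]
      simp only [hz] at h3 ⊢
      linarith
    · have hxC : x ∉ C := fun hh => hxY (mem_inter.1 hh).2
      rw [if_neg hxY, erase_eq_of_notMem hxC, add_zero]
  have h7 : ∑ x ∈ F, (if x ∈ Y then (1:ℝ) else 0) ≤ Y.card := by
    rw [← sum_filter, sum_const, nsmul_eq_mul, mul_one]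
    have : F.filter (fun x => x ∈ Y) ⊆ Y := fun x hx => (mem_filter.1 hx).2
    exact_mod_cast card_le_card this
  have h8 := sum_le_sum h2
  rw [sum_add_distrib] at h8
  rw [hY]
  linarith

/-- Upper bound for the positive part of the linearised value. -/
theorem YZ_le {n : ℕ} (hg : S.Good n) (Y : Finset ℕ) {L : ℝ} (hL : 0 ≤ L)
    {b : ℝ} (hb0 : 0 ≤ b) (hb : b ≤ 1 / 2) {F M : Finset ℕ} {x : ℕ} (hx : x ∈ F) :
    S.YZ Y L b F M x ≤ L * (n * S.Sp b F M x) := by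
  have hb1 : b ≤ 1 := by linarith
  have hsub : (F ∩ Y).erase x ⊆ F := (erase_subset _ _).trans inter_subset_left
  have h1 := S.sum_H_le hg hb0 hb (M := M) (x := x) hsub
  unfold YZ
  refine le_trans ?_ (mul_le_mul_of_nonneg_left h1 hL)
  rw [mul_sum]
  refine sum_le_sum fun y _ => ?_
  rw [mul_assoc]
  refine mul_le_mul_of_nonneg_left ?_ hL
  have h2 := (abs_le.1 (S.abs_Sx_le_H hg hb0 hb (M := M) (y := y) hx)).2
  have h3 := S.H_nonneg hb0 hb1 F M y x
  have h4 : 0 ≤ Real.exp (-(L * S.Sv b F M y)) := (Real.exp_pos _).le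
  have h5 : Real.exp (-(L * S.Sv b F M y)) ≤ 1 := Real.exp_le_one_iff.2 (by
    have := mul_nonneg hL (S.Sv_nonneg hb0 hb1 F M y); linarith)
  nlinarith

end Sys

end Pool.Agent.H23.VW
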