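import Mathlib
import Pool.Agent.H23.VW.Bounds1

/-!
# Sums over pairs of windows
-/

set_option autoImplicit false

namespace Pool.Agent.H23.VW

open Finset

namespace Sys

variable {ι : Type} (S : Sys ι)

/-- General bound for pairs of windows of different directions with at least two common points. -/
theorem sum_pair_le {b : ℝ} (hb0 : 0 ≤ b) (hb : b ≤ 1 / 2) {F M : Finset ℕ} {x : ℕ}
    (e : ι → Bool) (I' : Finset ι) (hI' : I' ⊆ S.I)
    (hx : ∀ i ∈ I', x ∈ S.U (i, e i))
    (hh : ∀ i ∈ I', S.h b F M i ≤ 2 * G b F M (S.U (i, e i))) :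
    ∑ p ∈ (I' ×ˢ I').filter (fun p => S.dir p.1 ≠ S.dir p.2 ∧
        2 ≤ (S.U (p.1, e p.1) ∩ S.U (p.2, e p.2)).card), S.h b F M p.1 * S.h b F M p.2 ≤
      4 * S.Px b F M x := by
  have hb1 : b ≤ 1 := by linarith
  classical
  set T := (I' ×ˢ I').filter (fun p => S.dir p.1 ≠ S.dir p.2 ∧
        2 ≤ (S.U (p.1, e p.1) ∩ S.U (p.2, e p.2)).card) with hT
  let φ : ι × ι → (ι × Bool) × (ι × Bool) := fun p => ((p.1, e p.1), (p.2, e p.2))
  have hφ : ∀ p ∈ T, ∀ p' ∈ T, φ p = φ p' → p = p' := by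
    intro p _ p' _ h
    simp only [φ, Prod.mk.injEq] at h
    exact Prod.ext h.1.1 h.2.1
  have hsub : T.image φ ⊆ S.PP := by
    intro q hq
    obtain ⟨p, hp, rfl⟩ := mem_image.1 hq
    rw [hT, mem_filter, mem_product] at hp
    unfold PP J
    rw [mem_filter]
    refine ⟨?_, hp.2.1, hp.2.2⟩
    simp only [φ, mem_product, mem_univ, and_true]
    exact ⟨hI' hp.1.1, hI' hp.1.2⟩
  unfold Px
  rw [mul_sum]
  calc ∑ p ∈ T, S.h b F M p.1 * S.h b F M p.2
      ≤ ∑ p ∈ T, 4 * Gx b F M (S.U (φ p).1 ∪ S.U (φ p).2) x := by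
        refine sum_le_sum fun p hp => ?_
        rw [hT, mem_filter, mem_product] at hp
        have h1 := hh p.1 hp.1.1
        have h2 := hh p.2 hp.1.2
        have h3 := S.h_nonneg hb0 hb1 F M p.1
        have h4 := S.h_nonneg hb0 hb1 F M p.2
        have h5 := G_mul_le hb0 hb1 F M (S.U (p.1, e p.1)) (S.U (p.2, e p.2))
        have h6 : Gx b F M (S.U (φ p).1 ∪ S.U (φ p).2) x =
            G b F M (S.U (p.1, e p.1) ∪ S.U (p.2, e p.2)) := by
          unfold Gx
          rw [if_pos (mem_union_left _ (hx p.1 hp.1.1))]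
        rw [h6]
        have h7 := mul_le_mul h1 h2 h4 (by linarith)
        linarith
    _ = ∑ q ∈ T.image φ, 4 * Gx b F M (S.U q.1 ∪ S.U q.2) x := by
        rw [sum_image hφ]
    _ ≤ _ := sum_le_sum_of_subset_of_nonneg hsub fun q _ _ => by
        have := Gx_nonneg hb0 F M (S.U q.1 ∪ S.U q.2) x
        linarith

/-- The type of extension needed for the window `i` to contain `x`. -/
noncomputable def ex (x : ℕ) (i : ι) : Bool := by
  classical exact if x ∈ S.A i then false else true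

theorem ex_spec {n : ℕ} (hg : S.Good n) {b : ℝ} (hb0 : 1 / 3 ≤ b) {F M : Finset ℕ}
    {x : ℕ} (hx : x ∈ F) {i : ι} (hi : i ∈ S.I) (hxi : x ∈ S.Ap i) :
    x ∈ S.U (i, S.ex x i) ∧ S.h b F M i ≤ 2 * G b F M (S.U (i, S.ex x i)) := by
  have hb00 : (0 : ℝ) ≤ b := by linarith
  unfold ex
  by_cases h : x ∈ S.A i
  · simp only [h, if_true]
    refine ⟨by simpa [U] using h, ?_⟩
    have h1 := S.h_le_G hb00 F M i
    have h2 := G_nonneg hb00 F M (S.A i)
    simp only [U]
    simpa using by linarith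
  · simp only [h, if_false]
    refine ⟨by simpa [U] using hxi, ?_⟩
    have hs : x = S.s i := by
      unfold Ap at hxi
      exact (mem_insert.1 hxi).resolve_right h
    have := S.h_le_two_mul hb0 (F := F) (M := M) (hg.s_notMem i hi) (hs ▸ hx)
    simpa [U] using this

/-- The type of extension needed for the window `i` to contain `u` and `v`. -/
noncomputable def ex2 (u v : ℕ) (i : ι) : Bool := by
  classical exact if u ∈ S.A i ∧ v ∈ S.A i then false else true

theorem ex2_spec {n : ℕ} (hg : S.Good n) {b : ℝ} (hb0 : 1 / 3 ≤ b) {F M : Finset ℕ}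
    {u v : ℕ} (hu : u ∈ F) (hv : v ∈ F) {i : ι} (hi : i ∈ S.I) (hui : u ∈ S.Ap i)
    (hvi : v ∈ S.Ap i) :
    u ∈ S.U (i, S.ex2 u v i) ∧ v ∈ S.U (i, S.ex2 u v i) ∧
      S.h b F M i ≤ 2 * G b F M (S.U (i, S.ex2 u v i)) := by
  have hb00 : (0 : ℝ) ≤ b := by linarith
  unfold ex2
  by_cases h : u ∈ S.A i ∧ v ∈ S.A i
  · simp only [h, and_self, if_true]
    refine ⟨by simpa [U] using h.1, by simpa [U] using h.2, ?_⟩
    have h1 := S.h_le_G hb00 F M i
    have h2 := G_nonneg hb00 F M (S.A i)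
    simp only [U]
    simpa using by linarith
  · simp only [h, if_false]
    refine ⟨by simpa [U] using hui, by simpa [U] using hvi, ?_⟩
    have hs : S.s i ∈ F := by
      by_cases h1 : u ∈ S.A i
      · have h2 : v ∉ S.A i := fun hh => h ⟨h1, hh⟩
        have : v = S.s i := by
          unfold Ap at hvi
          exact (mem_insert.1 hvi).resolve_right h2
        exact this ▸ hv
      · have : u = S.s i := by
          unfold Ap at hui
          exact (mem_insert.1 hui).resolve_right h1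
        exact this ▸ hu
    have := S.h_le_two_mul hb0 (F := F) (M := M) (hg.s_notMem i hi) hs
    simpa [U] using this

/-- Sum over pairs of windows through `x` (extended) with at least two common points. -/
theorem sum_two_le {n : ℕ} (hg : S.Good n) {b : ℝ} (hb0 : 1 / 3 ≤ b) (hb : b ≤ 1 / 2)
    {F M : Finset ℕ} (hFM : Disjoint F M) {x : ℕ} (hx : x ∈ F) (hnw : ¬ S.Wins M) :
    ∑ p ∈ ((S.I.filter (fun i => x ∈ S.Ap i)) ×ˢ (S.I.filter (fun i => x ∈ S.Ap i))).filter
        (fun p => 2 ≤ (S.U (p.1, S.ex x p.1) ∩ S.U (p.2, S.ex x p.2)).card),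
        S.h b F M p.1 * S.h b F M p.2 ≤
      5 / 2 * S.Sp b F M x + 4 * S.Px b F M x := by
  have hb00 : (0 : ℝ) ≤ b := by linarith
  have hb1 : b ≤ 1 := by linarith
  set I' := S.I.filter (fun i => x ∈ S.Ap i) with hI'
  have hI'sub : I' ⊆ S.I := filter_subset _ _
  have hmem : ∀ i ∈ I', x ∈ S.Ap i := fun i hi => (mem_filter.1 hi).2
  have hpair := S.sum_pair_le hb00 hb (F := F) (M := M) (x := x) (S.ex x) I' hI'sub
    (fun i hi => (S.ex_spec hg hb0 (F := F) (M := M) hx (hI'sub hi) (hmem i hi)).1)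
    (fun i hi => (S.ex_spec hg hb0 (F := F) (M := M) hx (hI'sub hi) (hmem i hi)).2)
  have hsame : ∑ p ∈ (I' ×ˢ I').filter (fun p => S.dir p.1 = S.dir p.2),
      S.h b F M p.1 * S.h b F M p.2 ≤ 5 / 2 * S.Sp b F M x := by
    rw [sum_filter, sum_product]
    unfold Sp
    rw [mul_sum]
    refine sum_le_sum fun i hi => ?_
    have h1 := S.h_nonneg hb00 hb1 F M i
    have h2 : ∑ j ∈ I', (if S.dir i = S.dir j then S.h b F M i * S.h b F M j else 0) =
        S.h b F M i * ∑ j ∈ S.I.filter (fun j => S.dir j = S.dir i ∧ x ∈ S.Ap j),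
          S.h b F M j := by
      rw [← sum_filter, mul_sum, hI', filter_filter]
      refine sum_congr (filter_congr fun j _ => ?_) fun _ _ => rfl
      constructor
      · rintro ⟨a, b⟩; exact ⟨b.symm, a⟩
      · rintro ⟨a, b⟩; exact ⟨b, a.symm⟩
    have h3 : ∑ j ∈ S.I.filter (fun j => S.dir j = S.dir i ∧ x ∈ S.Ap j), S.h b F M j ≤
        5 / 2 := by
      refine le_trans (sum_le_sum fun j hj => ?_)
        (hg.line b F M (by linarith) hb hFM x hx (S.dir i))
      exact S.h_le_f_mul hb00 hb1 fun hc => hnw ⟨j, (mem_filter.1 hj).1, hc⟩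
    simp only at h2 ⊢
    rw [h2]
    nlinarith
  have hnonneg : ∀ p : ι × ι, 0 ≤ S.h b F M p.1 * S.h b F M p.2 := fun p =>
    mul_nonneg (S.h_nonneg hb00 hb1 F M p.1) (S.h_nonneg hb00 hb1 F M p.2)
  have hsplit : ∑ p ∈ (I' ×ˢ I').filter
        (fun p => 2 ≤ (S.U (p.1, S.ex x p.1) ∩ S.U (p.2, S.ex x p.2)).card),
        S.h b F M p.1 * S.h b F M p.2 ≤
      ∑ p ∈ (I' ×ˢ I').filter (fun p => S.dir p.1 = S.dir p.2),
        S.h b F M p.1 * S.h b F M p.2 +
      ∑ p ∈ (I' ×ˢ I').filter (fun p => S.dir p.1 ≠ S.dir p.2 ∧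
        2 ≤ (S.U (p.1, S.ex x p.1) ∩ S.U (p.2, S.ex x p.2)).card),
        S.h b F M p.1 * S.h b F M p.2 := by
    rw [sum_filter, sum_filter, sum_filter, ← sum_add_distrib]
    refine sum_le_sum fun p _ => ?_
    have := hnonneg p
    by_cases h1 : S.dir p.1 = S.dir p.2
    · simp only [h1, if_true]
      split_ifs <;> simp_all
    · simp only [h1, if_false, zero_add, ne_eq, not_false_eq_true, true_and]
      exact le_rfl
  linarith

end Sys

end Pool.Agent.H23.VW
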