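import Mathlib
import Pool.Agent.H23.VW.Pairs

/-!
# The cubic inequality
-/

set_option autoImplicit false

namespace Pool.Agent.H23.VW

open Finset

namespace Sys

variable {ι : Type} (S : Sys ι)

/-- Triples of windows through `x` with pairwise at most one common point. -/
theorem sum_triple_le {n : ℕ} (hg : S.Good n) {b : ℝ} (hb0 : 1 / 3 ≤ b) (hb : b ≤ 1 / 2)
    {F M : Finset ℕ} {x : ℕ} (hx : x ∈ F) :
    ∑ p ∈ ((S.I.filter (fun i => x ∈ S.Ap i)) ×ˢ ((S.I.filter (fun i => x ∈ S.Ap i)) ×ˢ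
        (S.I.filter (fun i => x ∈ S.Ap i)))).filter
        (fun p => (S.U (p.1, S.ex x p.1) ∩ S.U (p.2.1, S.ex x p.2.1)).card ≤ 1 ∧
          (S.U (p.1, S.ex x p.1) ∩ S.U (p.2.2, S.ex x p.2.2)).card ≤ 1 ∧
          (S.U (p.2.1, S.ex x p.2.1) ∩ S.U (p.2.2, S.ex x p.2.2)).card ≤ 1),
        S.h b F M p.1 * (S.h b F M p.2.1 * S.h b F M p.2.2) ≤
      8 * S.Qx b F M x := by
  have hb00 : (0 : ℝ) ≤ b := by linarith
  have hb1 : b ≤ 1 := by linarith
  classical
  set I' := S.I.filter (fun i => x ∈ S.Ap i) with hI'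
  have hI'sub : I' ⊆ S.I := filter_subset _ _
  have hmem : ∀ i ∈ I', x ∈ S.Ap i := fun i hi => (mem_filter.1 hi).2
  have hspec := fun i (hi : i ∈ I') => S.ex_spec hg hb0 (F := F) (M := M) hx (hI'sub hi)
    (hmem i hi)
  have hhn : ∀ i, 0 ≤ S.h b F M i := fun i => S.h_nonneg hb00 hb1 F M i
  set T := (I' ×ˢ (I' ×ˢ I')).filter
        (fun p => (S.U (p.1, S.ex x p.1) ∩ S.U (p.2.1, S.ex x p.2.1)).card ≤ 1 ∧
          (S.U (p.1, S.ex x p.1) ∩ S.U (p.2.2, S.ex x p.2.2)).card ≤ 1 ∧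
          (S.U (p.2.1, S.ex x p.2.1) ∩ S.U (p.2.2, S.ex x p.2.2)).card ≤ 1) with hT
  let φ : ι × ι × ι → (ι × Bool) × (ι × Bool) × (ι × Bool) :=
    fun p => ((p.1, S.ex x p.1), (p.2.1, S.ex x p.2.1), (p.2.2, S.ex x p.2.2))
  have hφ : ∀ p ∈ T, ∀ p' ∈ T, φ p = φ p' → p = p' := by
    intro p _ p' _ h
    simp only [φ, Prod.mk.injEq] at h
    exact Prod.ext h.1.1 (Prod.ext h.2.1.1 h.2.2.1)
  have hsub : T.image φ ⊆ S.TT := by
    intro q hq
    obtain ⟨p, hp, rfl⟩ := mem_image.1 hq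
    rw [hT, mem_filter, mem_product, mem_product] at hp
    unfold TT J
    rw [mem_filter]
    refine ⟨?_, hp.2.1, hp.2.2.1, hp.2.2.2, ⟨x, ?_⟩⟩
    · simp only [φ, mem_product, mem_univ, and_true]
      exact ⟨hI'sub hp.1.1, hI'sub hp.1.2.1, hI'sub hp.1.2.2⟩
    · exact mem_inter.2 ⟨(hspec _ hp.1.1).1,
        mem_inter.2 ⟨(hspec _ hp.1.2.1).1, (hspec _ hp.1.2.2).1⟩⟩
  unfold Qx
  rw [mul_sum]
  calc ∑ p ∈ T, S.h b F M p.1 * (S.h b F M p.2.1 * S.h b F M p.2.2)
      ≤ ∑ p ∈ T, 8 * Gx b F M (S.U (φ p).1 ∪ (S.U (φ p).2.1 ∪ S.U (φ p).2.2)) x := by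
        refine sum_le_sum fun p hp => ?_
        rw [hT, mem_filter, mem_product, mem_product] at hp
        have h1 := (hspec _ hp.1.1).2
        have h2 := (hspec _ hp.1.2.1).2
        have h3 := (hspec _ hp.1.2.2).2
        have n1 := hhn p.1
        have n2 := hhn p.2.1
        have n3 := hhn p.2.2
        have g1 := G_nonneg hb00 F M (S.U (p.1, S.ex x p.1))
        have g2 := G_nonneg hb00 F M (S.U (p.2.1, S.ex x p.2.1))
        have g3 := G_nonneg hb00 F M (S.U (p.2.2, S.ex x p.2.2))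
        have m1 := G_mul_le hb00 hb1 F M (S.U (p.2.1, S.ex x p.2.1))
          (S.U (p.2.2, S.ex x p.2.2))
        have m2 := G_mul_le hb00 hb1 F M (S.U (p.1, S.ex x p.1))
          (S.U (p.2.1, S.ex x p.2.1) ∪ S.U (p.2.2, S.ex x p.2.2))
        have h6 : Gx b F M (S.U (φ p).1 ∪ (S.U (φ p).2.1 ∪ S.U (φ p).2.2)) x =
            G b F M (S.U (p.1, S.ex x p.1) ∪
              (S.U (p.2.1, S.ex x p.2.1) ∪ S.U (p.2.2, S.ex x p.2.2))) := by
          unfold Gx
          rw [if_pos (mem_union_left _ (hspec _ hp.1.1).1)]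
        rw [h6]
        have a1 := mul_le_mul h2 h3 n3 (by linarith)
        have a2 := mul_le_mul h1 a1 (mul_nonneg n2 n3) (by linarith)
        have a3 := mul_le_mul_of_nonneg_left m1 g1
        nlinarith
    _ = ∑ q ∈ T.image φ, 8 * Gx b F M (S.U q.1 ∪ (S.U q.2.1 ∪ S.U q.2.2)) x := by
        rw [sum_image hφ]
    _ ≤ _ := sum_le_sum_of_subset_of_nonneg hsub fun q _ _ => by
        have := Gx_nonneg hb00 F M (S.U q.1 ∪ (S.U q.2.1 ∪ S.U q.2.2)) x
        linarith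

/-- The cubic inequality. -/
theorem cubic {n : ℕ} (hg : S.Good n) {b : ℝ} (hb0 : 1 / 3 ≤ b) (hb : b ≤ 1 / 2)
    {F M : Finset ℕ} (hFM : Disjoint F M) {x : ℕ} (hx : x ∈ F) (hnw : ¬ S.Wins M) :
    S.Sp b F M x ^ 3 ≤ 8 * S.Qx b F M x +
      3 * S.Sp b F M x * (5 / 2 * S.Sp b F M x + 4 * S.Px b F M x) := by
  have hb00 : (0 : ℝ) ≤ b := by linarith
  have hb1 : b ≤ 1 := by linarith
  have htri := S.sum_triple_le hg hb0 hb (M := M) hx
  have htwo := S.sum_two_le hg hb0 hb hFM hx hnw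
  set I' := S.I.filter (fun i => x ∈ S.Ap i) with hI'
  have hhn : ∀ i, 0 ≤ S.h b F M i := fun i => S.h_nonneg hb00 hb1 F M i
  set W : ι → Finset ℕ := fun i => S.U (i, S.ex x i) with hW
  set K : ℝ := ∑ p ∈ (I' ×ˢ I').filter (fun p => 2 ≤ (W p.1 ∩ W p.2).card),
        S.h b F M p.1 * S.h b F M p.2 with hK
  have hKe : K = ∑ i ∈ I', ∑ j ∈ I', if 2 ≤ (W i ∩ W j).card then
      S.h b F M i * S.h b F M j else 0 := by
    rw [hK, sum_filter, sum_product]
  have hK2 : K ≤ 5 / 2 * S.Sp b F M x + 4 * S.Px b F M x := htwo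
  have hSp : S.Sp b F M x = ∑ i ∈ I', S.h b F M i := rfl
  have hSp0 : 0 ≤ S.Sp b F M x := S.Sp_nonneg hb00 hb1 F M x
  -- expansion
  have h1 : S.Sp b F M x ^ 3 = ∑ i ∈ I', ∑ j ∈ I', ∑ k ∈ I',
      S.h b F M i * (S.h b F M j * S.h b F M k) := by
    rw [hSp, pow_succ, sq, mul_assoc]
    rw [sum_mul_sum (s := I') (t := I')]
    rw [sum_mul]
    refine sum_congr rfl fun i _ => ?_
    rw [mul_sum]
    refine sum_congr rfl fun j _ => ?_
    rw [mul_sum]
  have hterm : ∀ i ∈ I', ∀ j ∈ I', ∀ k ∈ I',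
      S.h b F M i * (S.h b F M j * S.h b F M k) ≤
      (if (W i ∩ W j).card ≤ 1 ∧ (W i ∩ W k).card ≤ 1 ∧ (W j ∩ W k).card ≤ 1 then
        S.h b F M i * (S.h b F M j * S.h b F M k) else 0) +
      (if 2 ≤ (W i ∩ W j).card then S.h b F M i * S.h b F M j else 0) * S.h b F M k +
      (if 2 ≤ (W i ∩ W k).card then S.h b F M i * S.h b F M k else 0) * S.h b F M j +
      S.h b F M i * (if 2 ≤ (W j ∩ W k).card then S.h b F M j * S.h b F M k else 0) := by
    intro i _ j _ k _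
    have n1 := hhn i
    have n2 := hhn j
    have n3 := hhn k
    have n12 := mul_nonneg n1 n2
    have n13 := mul_nonneg n1 n3
    have n23 := mul_nonneg n2 n3
    have n123 := mul_nonneg n1 n23
    by_cases c1 : (W i ∩ W j).card ≤ 1
    · by_cases c2 : (W i ∩ W k).card ≤ 1
      · by_cases c3 : (W j ∩ W k).card ≤ 1
        · rw [if_pos ⟨c1, c2, c3⟩, if_neg (by omega), if_neg (by omega), if_neg (by omega)]
          linarith
        · rw [if_neg (fun hh => c3 hh.2.2), if_neg (by omega), if_neg (by omega),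
            if_pos (by omega)]
          linarith
      · rw [if_neg (fun hh => c2 hh.2.1), if_neg (by omega), if_pos (by omega)]
        split_ifs <;> nlinarith
    · rw [if_neg (fun hh => c1 hh.1), if_pos (by omega)]
      have e : S.h b F M i * S.h b F M j * S.h b F M k =
        S.h b F M i * (S.h b F M j * S.h b F M k) := by ring
      have e1 : 0 ≤ (if 2 ≤ (W i ∩ W k).card then S.h b F M i * S.h b F M k else 0) *
          S.h b F M j := by
        split_ifs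
        · exact mul_nonneg n13 n2
        · simp
      have e2 : 0 ≤ S.h b F M i *
          (if 2 ≤ (W j ∩ W k).card then S.h b F M j * S.h b F M k else 0) := by
        split_ifs
        · exact n123
        · simp
      linarith
  have h2 : S.Sp b F M x ^ 3 ≤
      ∑ i ∈ I', ∑ j ∈ I', ∑ k ∈ I',
        ((if (W i ∩ W j).card ≤ 1 ∧ (W i ∩ W k).card ≤ 1 ∧ (W j ∩ W k).card ≤ 1 then
        S.h b F M i * (S.h b F M j * S.h b F M k) else 0) +
      (if 2 ≤ (W i ∩ W j).card then S.h b F M i * S.h b F M j else 0) * S.h b F M k +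
      (if 2 ≤ (W i ∩ W k).card then S.h b F M i * S.h b F M k else 0) * S.h b F M j +
      S.h b F M i * (if 2 ≤ (W j ∩ W k).card then S.h b F M j * S.h b F M k else 0)) := by
    rw [h1]
    exact sum_le_sum fun i hi => sum_le_sum fun j hj => sum_le_sum fun k hk =>
      hterm i hi j hj k hk
  simp only [sum_add_distrib] at h2
  have t1 : ∑ i ∈ I', ∑ j ∈ I', ∑ k ∈ I',
        (if (W i ∩ W j).card ≤ 1 ∧ (W i ∩ W k).card ≤ 1 ∧ (W j ∩ W k).card ≤ 1 then
        S.h b F M i * (S.h b F M j * S.h b F M k) else 0) ≤ 8 * S.Qx b F M x := by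
    refine le_trans (le_of_eq ?_) htri
    rw [sum_filter (s := I' ×ˢ I' ×ˢ I'), sum_product]
    refine sum_congr rfl fun i _ => ?_
    rw [sum_product]
  have t2 : ∑ i ∈ I', ∑ j ∈ I', ∑ k ∈ I',
      (if 2 ≤ (W i ∩ W j).card then S.h b F M i * S.h b F M j else 0) * S.h b F M k =
      K * S.Sp b F M x := by
    rw [hKe, hSp, sum_mul]
    refine sum_congr rfl fun i _ => ?_
    rw [sum_mul]
    refine sum_congr rfl fun j _ => ?_
    rw [mul_sum]
  have t3 : ∑ i ∈ I', ∑ j ∈ I', ∑ k ∈ I',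
      (if 2 ≤ (W i ∩ W k).card then S.h b F M i * S.h b F M k else 0) * S.h b F M j =
      K * S.Sp b F M x := by
    rw [hKe, hSp, sum_mul]
    refine sum_congr rfl fun i _ => ?_
    rw [sum_mul, sum_comm]
    refine sum_congr rfl fun k _ => ?_
    rw [mul_sum]
  have t4 : ∑ i ∈ I', ∑ j ∈ I', ∑ k ∈ I',
      S.h b F M i * (if 2 ≤ (W j ∩ W k).card then S.h b F M j * S.h b F M k else 0) =
      S.Sp b F M x * K := by
    rw [hKe, hSp, sum_mul]
    refine sum_congr rfl fun i _ => ?_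
    rw [mul_sum]
    refine sum_congr rfl fun j _ => ?_
    rw [mul_sum]
  rw [t2, t3, t4] at h2
  have := mul_le_mul_of_nonneg_left hK2 hSp0
  nlinarith

end Sys

end Pool.Agent.H23.VW
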