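import Mathlib
import Pool.Agent.H23.VW.Defs

/-!
# Monotonicity of Maker's win and the link to the frozen statement's game
-/

set_option autoImplicit false

namespace Pool.Agent.H23.VW

open Finset

/-- An additional free point does not hurt Maker. -/
theorem mwin_insert {Win : Finset ℕ → Prop} {F M : Finset ℕ} (h : MWin Win F M) :
    ∀ w, w ∉ F → MWin Win (insert w F) M := by
  induction h with
  | done F M hM => exact fun w _ => MWin.done _ _ hM
  | step F M v hv hstep hlast ih =>
    intro w hw
    have hwv : w ≠ v := fun e => hw (e ▸ hv)
    refine MWin.step _ _ v (mem_insert_of_mem hv) ?_ ?_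
    · intro u hu
      by_cases huw : u = w
      · subst huw
        have e1 : ((insert u F).erase v).erase u = F.erase v := by
          ext x; simp only [mem_erase, mem_insert]
          constructor
          · rintro ⟨a, b, c | c⟩
            · exact absurd c a
            · exact ⟨b, c⟩
          · rintro ⟨b, c⟩
            exact ⟨fun e => hw (e ▸ c), b, Or.inr c⟩
        rw [e1]
        by_cases hem : F.erase v = ∅
        · exact MWin.done _ _ (hlast hem)
        · obtain ⟨u', hu'⟩ := nonempty_iff_ne_empty.2 hem
          have := ih u' hu' u' (by simp)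
          rwa [insert_erase hu'] at this
      · have huF : u ∈ F.erase v := by
          rw [mem_erase, mem_insert] at hu
          rw [mem_erase]
          exact ⟨hu.1, hu.2.resolve_left huw⟩
        have e2 : ((insert w F).erase v).erase u = insert w ((F.erase v).erase u) := by
          rw [erase_insert_of_ne hwv, erase_insert_of_ne (Ne.symm huw)]
        rw [e2]
        exact ih u huF w (fun hh => hw (mem_of_mem_erase (mem_of_mem_erase hh)))
    · intro he
      exfalso
      have : w ∈ (insert w F).erase v := mem_erase.2 ⟨hwv, mem_insert_self _ _⟩
      rw [he] at this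
      exact notMem_empty _ this

/-- From a win in the abstract game on `[N₀]` to the closed predicates of the frozen statement
on the board `[N]`, `N ≥ N₀`. -/
theorem bridge (Win : Finset ℕ → Prop) (N₀ N : ℕ) (hN : N₀ ≤ N)
    (h : MWin Win (Icc 1 N₀) ∅)
    (P : Finset ℕ → Finset ℕ → Prop)
    (h1 : ∀ M B : Finset ℕ, Win M → P M B)
    (h2 : ∀ M B : Finset ℕ, M.card = B.card →
      (∃ x ∈ Icc 1 N, x ∉ M ∧ x ∉ B ∧ P (insert x M) B) → P M B)
    (h3 : ∀ M B : Finset ℕ, M.card = B.card + 1 →
      (∃ y ∈ Icc 1 N, y ∉ M ∧ y ∉ B) →
      (∀ y ∈ Icc 1 N, y ∉ M → y ∉ B → P M (insert y B)) → P M B) :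
    P ∅ ∅ := by
  have key : ∀ k : ℕ, ∀ M B : Finset ℕ, M.card = B.card →
      (Icc 1 N₀ \ (M ∪ B)).card = k → MWin Win (Icc 1 N₀ \ (M ∪ B)) M → P M B := by
    intro k
    induction k using Nat.strong_induction_on with
    | _ k ih =>
      intro M B hcard hk hw
      cases hw with
      | done _ _ hM => exact h1 M B hM
      | step _ _ v hv hstep hlast =>
        have hvN : v ∈ Icc 1 N₀ := (mem_sdiff.1 hv).1
        have hvMB : v ∉ M ∪ B := (mem_sdiff.1 hv).2
        have hvM : v ∉ M := fun e => hvMB (mem_union_left _ e)
        have hvB : v ∉ B := fun e => hvMB (mem_union_right _ e)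
        have hsub : Icc 1 N₀ ⊆ Icc 1 N := Icc_subset_Icc_right hN
        refine h2 M B hcard ⟨v, hsub hvN, hvM, hvB, ?_⟩
        have hc' : (insert v M).card = B.card + 1 := by
          rw [card_insert_of_notMem hvM, hcard]
        by_cases hem : (Icc 1 N₀ \ (M ∪ B)).erase v = ∅
        · exact h1 _ _ (hlast hem)
        · have hne := nonempty_iff_ne_empty.2 hem
          refine h3 _ _ hc' ?_ ?_
          · obtain ⟨u, hu⟩ := hne
            rw [mem_erase, mem_sdiff, mem_union] at hu
            push Not at hu
            refine ⟨u, hsub hu.2.1, ?_, hu.2.2.2⟩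
            rw [mem_insert]; push Not
            exact ⟨hu.1, hu.2.2.1⟩
          · intro y _ hyM hyB
            rw [mem_insert] at hyM; push Not at hyM
            have hcy : (insert v M).card = (insert y B).card := by
              rw [card_insert_of_notMem hyB, hc']
            by_cases hy0 : y ∈ Icc 1 N₀
            · have hyF : y ∈ (Icc 1 N₀ \ (M ∪ B)).erase v := by
                rw [mem_erase, mem_sdiff, mem_union]; push Not
                exact ⟨hyM.1, hy0, hyM.2, hyB⟩
              have e : Icc 1 N₀ \ (insert v M ∪ insert y B) =
                  ((Icc 1 N₀ \ (M ∪ B)).erase v).erase y := by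
                ext x
                simp only [mem_sdiff, mem_union, mem_insert, mem_erase]
                tauto
              refine ih _ ?_ (insert v M) (insert y B) hcy rfl ?_
              · rw [e, ← hk]
                exact (card_erase_lt_of_mem hyF).trans (card_erase_lt_of_mem hv)
              · rw [e]; exact hstep y hyF
            · have e : Icc 1 N₀ \ (insert v M ∪ insert y B) =
                  (Icc 1 N₀ \ (M ∪ B)).erase v := by
                ext x
                simp only [mem_sdiff, mem_union, mem_insert, mem_erase]
                constructor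
                · rintro ⟨a, b⟩; push Not at b
                  exact ⟨b.1.1, a, by push Not; exact ⟨b.1.2, b.2.2⟩⟩
                · rintro ⟨a, b, c⟩; push Not at c
                  refine ⟨b, ?_⟩
                  push Not
                  exact ⟨⟨a, c.1⟩, fun hh => hy0 (hh ▸ b), c.2⟩
              refine ih _ ?_ (insert v M) (insert y B) hcy rfl ?_
              · rw [e, ← hk]
                exact card_erase_lt_of_mem hv
              · rw [e]
                obtain ⟨u, hu⟩ := hne
                have := mwin_insert (hstep u hu) u (by simp)
                rwa [insert_erase hu] at this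
  refine key _ ∅ ∅ rfl rfl ?_
  simpa using h

end Pool.Agent.H23.VW
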