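import Mathlib

/-!
# Exponential against polynomial growth
-/

set_option autoImplicit false

namespace Pool.Agent.H23.VW

open Filter Topology

theorem growth_one (C : ℝ) : ∃ n0 : ℕ, ∀ n : ℕ, n0 ≤ n → C ≤ (2 : ℝ) ^ n := by
  obtain ⟨n0, h⟩ := pow_unbounded_of_one_lt C (by norm_num : (1 : ℝ) < 2)
  exact ⟨n0, fun n hn => h.le.trans (pow_le_pow_right₀ (by norm_num) hn)⟩

theorem growth_two (C : ℝ) (hC : 0 ≤ C) : ∃ n0 : ℕ, ∀ n : ℕ, n0 ≤ n →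
    C * (n : ℝ) ^ 8 * (n + 1) ^ 4 ≤ 2 ^ (n / 2) := by
  have h := tendsto_pow_const_div_const_pow_of_one_lt 12 (by norm_num : (1 : ℝ) < 2)
  have h2 : ∀ᶠ m : ℕ in atTop, (m : ℝ) ^ 12 / 2 ^ m < 1 / (C * 4 ^ 12 + 1) :=
    h.eventually (gt_mem_nhds (by positivity))
  obtain ⟨m0, hm0⟩ := eventually_atTop.1 h2
  refine ⟨2 * m0 + 2, fun n hn => ?_⟩
  set m := n / 2 with hm
  have hmm : m0 ≤ m := by omega
  have hm1 : 1 ≤ m := by omega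
  have hn4 : n + 1 ≤ 4 * m := by omega
  have hn4' : ((n : ℝ) + 1) ≤ 4 * m := by exact_mod_cast hn4
  have hn0 : (0 : ℝ) ≤ n := by positivity
  have h3 := hm0 m hmm
  rw [div_lt_div_iff₀ (by positivity) (by positivity)] at h3
  have h4 : (n : ℝ) ^ 8 * ((n : ℝ) + 1) ^ 4 ≤ 4 ^ 12 * (m : ℝ) ^ 12 := by
    have a1 : (n : ℝ) ^ 8 ≤ (4 * (m : ℝ)) ^ 8 := pow_le_pow_left₀ hn0 (by linarith) 8
    have a2 : ((n : ℝ) + 1) ^ 4 ≤ (4 * (m : ℝ)) ^ 4 := pow_le_pow_left₀ (by linarith) hn4' 4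
    calc (n : ℝ) ^ 8 * ((n : ℝ) + 1) ^ 4 ≤ (4 * (m : ℝ)) ^ 8 * (4 * (m : ℝ)) ^ 4 :=
          mul_le_mul a1 a2 (by positivity) (by positivity)
      _ = 4 ^ 12 * (m : ℝ) ^ 12 := by ring
  have h5 := mul_le_mul_of_nonneg_left h4 hC
  have h6 : (0 : ℝ) ≤ (m : ℝ) ^ 12 := by positivity
  calc C * (n : ℝ) ^ 8 * (n + 1) ^ 4 = C * ((n : ℝ) ^ 8 * (n + 1) ^ 4) := by ring
    _ ≤ C * (4 ^ 12 * (m : ℝ) ^ 12) := h5
    _ ≤ 2 ^ m := by linarith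

end Pool.Agent.H23.VW
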