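import Mathlib

/-!
# The numerical lemma for the bounds at the chosen point
-/

set_option autoImplicit false

namespace Pool.Agent.H23.VW

/-- From `(i) k1 p + k7 q ≤ L n s + R + A`, `(ii)` the cubic inequality and `(iii)` the bound for
`X²`: the second order term `R` is small and `X ≤ 3`, for large `n`. -/
theorem numeric {l k a e : ℝ} (hl : 0 ≤ l) (hk : 0 < k) (ha : 0 ≤ a) (he : 0 < e) :
    ∃ n0 : ℕ, ∀ n : ℕ, n0 ≤ n → ∀ k1 s p q X A R : ℝ,
      (n : ℝ) ^ 6 ≤ k1 → 0 ≤ s → 0 ≤ p → 0 ≤ q → 0 ≤ X →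
      A ≤ a * n →
      R = 32 * (l / n) ^ 2 * (5 / 2 * s + 4 * n * p) →
      k1 * p + k / n ^ 3 * q ≤ l / n * (n * s) + R + A →
      s ^ 3 ≤ 8 * q + 3 * s * (5 / 2 * s + 4 * p) →
      R ≤ e ∧ (X ^ 2 ≤ 5 / 2 * X + 4 * n ^ 2 * p → X ≤ 3) := by
  -- constants
  set C : ℝ := l + 80 * l ^ 2 with hC
  have hC0 : 0 ≤ C := by positivity
  set C' : ℝ := C + a with hC'
  have hC'0 : 0 ≤ C' := by positivity
  set η : ℝ := e / (160 * l ^ 2 + 1) with hη
  have hη0 : 0 < η := by positivity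
  obtain ⟨n0, hn0⟩ := exists_nat_ge (1 + 256 * l ^ 2 + 2 * C' + 1 / η + 39 / η +
    16 * C' / (k * η ^ 2) + 16 * (C * η + a) + 512 * l ^ 2 * (C * η + a) / e)
  refine ⟨n0, fun n hn k1 s p q X A R hk1 hs hp hq hX hA hR h1 h2 => ?_⟩
  have hnR : (1 + 256 * l ^ 2 + 2 * C' + 1 / η + 39 / η +
    16 * C' / (k * η ^ 2) + 16 * (C * η + a) + 512 * l ^ 2 * (C * η + a) / e) ≤ (n : ℝ) :=
    hn0.trans (by exact_mod_cast hn)
  have g1 : 0 ≤ 256 * l ^ 2 := by positivity
  have g2 : 0 ≤ 2 * C' := by positivity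
  have g3 : 0 ≤ 1 / η := by positivity
  have g4 : 0 ≤ 39 / η := by positivity
  have g5 : 0 ≤ 16 * C' / (k * η ^ 2) := by positivity
  have g6 : 0 ≤ 16 * (C * η + a) := by positivity
  have g7 : 0 ≤ 512 * l ^ 2 * (C * η + a) / e := by positivity
  have hn1 : (1 : ℝ) ≤ n := by linarith
  have hnpos : (0 : ℝ) < n := by linarith
  have hn6 : (n : ℝ) ≤ (n : ℝ) ^ 6 := by
    calc (n : ℝ) = (n : ℝ) ^ 1 := (pow_one _).symm
      _ ≤ (n : ℝ) ^ 6 := pow_le_pow_right₀ hn1 (by norm_num)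
  have hk1a : 256 * l ^ 2 ≤ k1 := by linarith
  have hk1b : 2 * C' ≤ k1 := by linarith
  have hk1c : 0 < k1 := by linarith
  -- rewriting of R
  have hR' : R = 80 * l ^ 2 / n ^ 2 * s + 128 * l ^ 2 / n * p := by
    rw [hR]; field_simp; ring
  have e1 : l / n * (n * s) = l * s := by field_simp
  have e2 : 80 * l ^ 2 / n ^ 2 * s ≤ 80 * l ^ 2 * s := by
    refine mul_le_mul_of_nonneg_right ?_ hs
    exact div_le_self (by positivity) (one_le_pow₀ hn1)
  have e3 : 128 * l ^ 2 / n * p ≤ 1 / 2 * (k1 * p) := by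
    have : 128 * l ^ 2 / n ≤ 1 / 2 * k1 := by
      have := div_le_self (by positivity : 0 ≤ 128 * l ^ 2) hn1
      linarith
    have := mul_le_mul_of_nonneg_right this hp
    linarith
  have hkn : 0 < k / (n : ℝ) ^ 3 := by positivity
  have h3 : 1 / 2 * (k1 * p) + k / n ^ 3 * q ≤ C * s + a * n := by
    rw [e1, hR'] at h1
    have : C * s = l * s + 80 * l ^ 2 * s := by rw [hC]; ring
    linarith
  have hqn : 0 ≤ k / n ^ 3 * q := mul_nonneg hkn.le hq
  have hpn : 0 ≤ k1 * p := mul_nonneg hk1c.le hp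
  -- s is at most η n²
  have hs2 : s ≤ η * n ^ 2 := by
    by_contra hcon
    push Not at hcon
    have f1 : (n : ℝ) ≤ s := by
      have : (n : ℝ) ≤ η * n ^ 2 := by
        have h4 : 1 / η ≤ n := by linarith
        rw [div_le_iff₀ hη0] at h4
        calc (n : ℝ) = n * 1 := (mul_one _).symm
          _ ≤ n * (n * η) := mul_le_mul_of_nonneg_left h4 hnpos.le
          _ = η * n ^ 2 := by ring
      linarith
    have f2 : (39 : ℝ) ≤ s := by
      have h4 : 39 / η ≤ n := by linarith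
      rw [div_le_iff₀ hη0] at h4
      have h5 : η * n ≤ η * n ^ 2 := by
        refine mul_le_mul_of_nonneg_left ?_ hη0.le
        calc (n : ℝ) = n ^ 1 := (pow_one _).symm
          _ ≤ n ^ 2 := pow_le_pow_right₀ hn1 (by norm_num)
      linarith
    have hspos : 0 < s := by linarith
    have f3 : C * s + a * n ≤ C' * s := by
      have := mul_le_mul_of_nonneg_left f1 ha
      rw [hC']; linarith
    have f4 : q ≤ n ^ 3 / k * (C' * s) := by
      have h5 : k / n ^ 3 * q ≤ C' * s := by linarith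
      have h6 : q = n ^ 3 / k * (k / n ^ 3 * q) := by field_simp
      rw [h6]
      exact mul_le_mul_of_nonneg_left h5 (by positivity)
    have f5 : p ≤ s := by
      have h5 : 1 / 2 * (k1 * p) ≤ C' * s := by linarith
      have h6 : C' * s ≤ 1 / 2 * k1 * s := by
        have : C' ≤ 1 / 2 * k1 := by linarith
        exact mul_le_mul_of_nonneg_right this hs
      have h7 : k1 * p ≤ k1 * s := by linarith
      exact le_of_mul_le_mul_left h7 hk1c
    have f6 : s ^ 3 ≤ 8 * (n ^ 3 / k * (C' * s)) + 39 / 2 * s ^ 2 := by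
      have h8 : s * p ≤ s * s := mul_le_mul_of_nonneg_left f5 hs
      have h8' : 3 * s * (5 / 2 * s + 4 * p) = 15 / 2 * (s * s) + 12 * (s * p) := by ring
      have h8'' : 39 / 2 * s ^ 2 = 15 / 2 * (s * s) + 12 * (s * s) := by ring
      rw [h8'']
      linarith
    have f7 : s ^ 2 ≤ 8 * (n ^ 3 / k * C') + 39 / 2 * s := by
      have h9 : s * s ^ 2 ≤ s * (8 * (n ^ 3 / k * C') + 39 / 2 * s) := by
        calc s * s ^ 2 = s ^ 3 := by ring
          _ ≤ _ := f6
          _ = _ := by ring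
      exact le_of_mul_le_mul_left h9 hspos
    have f8 : s ^ 2 ≤ 16 * (n ^ 3 / k * C') := by
      have h10 : 39 * s ≤ s * s := mul_le_mul_of_nonneg_right f2 hs
      have h11 : s ^ 2 = s * s := by ring
      linarith
    have f9 : (η * n ^ 2) ^ 2 < 16 * (n ^ 3 / k * C') := by
      have : (η * n ^ 2) ^ 2 < s ^ 2 := by
        apply pow_lt_pow_left₀ hcon (by positivity) (by norm_num)
      linarith
    have f10 : 16 * C' / (k * η ^ 2) ≤ n := by linarith
    rw [div_le_iff₀ (by positivity)] at f10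
    have f11 : 16 * (n ^ 3 / k * C') ≤ (η * n ^ 2) ^ 2 := by
      have : 16 * (n ^ 3 / k * C') = n ^ 3 / k * (16 * C') := by ring
      rw [this]
      calc n ^ 3 / k * (16 * C') ≤ n ^ 3 / k * (n * (k * η ^ 2)) :=
            mul_le_mul_of_nonneg_left f10 (by positivity)
        _ = (η * n ^ 2) ^ 2 := by field_simp
    linarith
  -- p is tiny
  have hp2 : p * n ^ 4 ≤ 2 * (C * η + a) := by
    have h5 : 1 / 2 * (k1 * p) ≤ C * s + a * n := by linarith
    have h6 : C * s + a * n ≤ (C * η + a) * n ^ 2 := by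
      have h7 := mul_le_mul_of_nonneg_left hs2 hC0
      have h8 : a * n ≤ a * n ^ 2 := by
        refine mul_le_mul_of_nonneg_left ?_ ha
        calc (n : ℝ) = n ^ 1 := (pow_one _).symm
          _ ≤ n ^ 2 := pow_le_pow_right₀ hn1 (by norm_num)
      linarith
    have h9 : (n : ℝ) ^ 6 * p ≤ k1 * p := mul_le_mul_of_nonneg_right hk1 hp
    have h10 : n ^ 2 * (p * n ^ 4) ≤ n ^ 2 * (2 * (C * η + a)) := by
      calc (n : ℝ) ^ 2 * (p * n ^ 4) = n ^ 6 * p := by ring
        _ ≤ 2 * ((C * η + a) * n ^ 2) := by linarith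
        _ = _ := by ring
    exact le_of_mul_le_mul_left h10 (by positivity)
  constructor
  · -- R ≤ e
    rw [hR']
    have m1 : 80 * l ^ 2 / n ^ 2 * s ≤ e / 2 := by
      calc 80 * l ^ 2 / n ^ 2 * s ≤ 80 * l ^ 2 / n ^ 2 * (η * n ^ 2) :=
            mul_le_mul_of_nonneg_left hs2 (by positivity)
        _ = 80 * l ^ 2 * η := by field_simp
        _ ≤ e / 2 := by
            rw [hη, mul_div_assoc', div_le_iff₀ (by positivity)]
            have : e / 2 * (160 * l ^ 2 + 1) = 80 * l ^ 2 * e + e / 2 := by ring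
            linarith
    have m2 : 128 * l ^ 2 / n * p ≤ e / 2 := by
      have h5 : p ≤ 2 * (C * η + a) := by
        have : p ≤ p * n ^ 4 := le_mul_of_one_le_right hp (one_le_pow₀ hn1)
        linarith
      calc 128 * l ^ 2 / n * p ≤ 128 * l ^ 2 / n * (2 * (C * η + a)) :=
            mul_le_mul_of_nonneg_left h5 (by positivity)
        _ = (256 * l ^ 2 * (C * η + a)) / n := by ring
        _ ≤ e / 2 := by
            rw [div_le_iff₀ hnpos]
            have h6 : 512 * l ^ 2 * (C * η + a) / e ≤ n := by linarith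
            rw [div_le_iff₀ he] at h6
            linarith
    linarith
  · -- X ≤ 3
    intro hX2
    have h5 : 4 * (n : ℝ) ^ 2 * p ≤ 1 := by
      have h6 : 16 * (C * η + a) ≤ n := by linarith
      have h7 : (n : ℝ) ^ 2 * (4 * n ^ 2 * p) ≤ n ^ 2 * 1 := by
        calc (n : ℝ) ^ 2 * (4 * n ^ 2 * p) = 4 * (p * n ^ 4) := by ring
          _ ≤ 4 * (2 * (C * η + a)) := by linarith
          _ ≤ n := by linarith
          _ ≤ n ^ 2 * 1 := by
              rw [mul_one]
              calc (n : ℝ) = n ^ 1 := (pow_one _).symm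
                _ ≤ n ^ 2 := pow_le_pow_right₀ hn1 (by norm_num)
      exact le_of_mul_le_mul_left h7 (by positivity)
    by_contra hc
    push Not at hc
    have h8 : 3 * X ≤ X * X := mul_le_mul_of_nonneg_right hc.le hX
    have h9 : X ^ 2 = X * X := by ring
    linarith

end Pool.Agent.H23.VW
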