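import Mathlib
import Pool.Agent.H23.VW.Pairs

/-!
# The second order sum, and the square of `X1`
-/

set_option autoImplicit false

namespace Pool.Agent.H23.VW

open Finset

namespace Sys

variable {ι : Type} (S : Sys ι)

/-- Sum of squares over the centres. -/
theorem sum_H_sq_le {n : ℕ} (hg : S.Good n) {b : ℝ} (hb0 : 1 / 3 ≤ b) (hb : b ≤ 1 / 2)
    {F M : Finset ℕ} (hFM : Disjoint F M) {x : ℕ} (hx : x ∈ F) :
    ∑ y ∈ F.erase x, S.H b F M y x ^ 2 ≤
      5 / 2 * S.Sp b F M x + 4 * n * S.Px b F M x := by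
  have hb00 : (0 : ℝ) ≤ b := by linarith
  have hb1 : b ≤ 1 := by linarith
  set I' := S.I.filter (fun i => x ∈ S.Ap i) with hI'
  have hI'sub : I' ⊆ S.I := filter_subset _ _
  have hmem : ∀ i ∈ I', x ∈ S.Ap i := fun i hi => (mem_filter.1 hi).2
  have hhn : ∀ i, 0 ≤ S.h b F M i := fun i => S.h_nonneg hb00 hb1 F M i
  have hpair := S.sum_pair_le hb00 hb (F := F) (M := M) (x := x) (S.ex x) I' hI'sub
    (fun i hi => (S.ex_spec hg hb0 (F := F) (M := M) hx (hI'sub hi) (hmem i hi)).1)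
    (fun i hi => (S.ex_spec hg hb0 (F := F) (M := M) hx (hI'sub hi) (hmem i hi)).2)
  have hnonneg : ∀ p : ι × ι, 0 ≤ S.h b F M p.1 * S.h b F M p.2 := fun p =>
    mul_nonneg (hhn p.1) (hhn p.2)
  -- expansion of the squares
  have h1 : ∑ y ∈ F.erase x, S.H b F M y x ^ 2 =
      ∑ p ∈ I' ×ˢ I', (((F.erase x).filter (fun y => y ∈ S.A p.1 ∧ y ∈ S.A p.2)).card : ℝ) *
        (S.h b F M p.1 * S.h b F M p.2) := by
    have h2 : ∀ y ∈ F.erase x, S.H b F M y x ^ 2 =
        ∑ p ∈ I' ×ˢ I', if y ∈ S.A p.1 ∧ y ∈ S.A p.2 then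
          S.h b F M p.1 * S.h b F M p.2 else 0 := by
      intro y _
      have h3 : S.H b F M y x = ∑ i ∈ I', if y ∈ S.A i then S.h b F M i else 0 := by
        unfold H
        rw [← sum_filter, hI', filter_filter]
        exact sum_congr (filter_congr fun i _ => and_comm) fun _ _ => rfl
      rw [h3, sq, sum_mul_sum, sum_product]
      refine sum_congr rfl fun i _ => sum_congr rfl fun j _ => ?_
      by_cases ha : y ∈ S.A i <;> by_cases hb' : y ∈ S.A j <;> simp [ha, hb']
    rw [sum_congr rfl h2, sum_comm]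
    refine sum_congr rfl fun p _ => ?_
    rw [← sum_filter, sum_const, nsmul_eq_mul]
  -- bound of the number of common centres
  have hcount : ∀ p ∈ I' ×ˢ I',
      (((F.erase x).filter (fun y => y ∈ S.A p.1 ∧ y ∈ S.A p.2)).card : ℝ) *
        (S.h b F M p.1 * S.h b F M p.2) ≤
      (if S.dir p.1 = S.dir p.2 then S.h b F M p.1 * (S.f F p.2 * S.h b F M p.2) else 0) +
      (if S.dir p.1 ≠ S.dir p.2 ∧
        2 ≤ (S.U (p.1, S.ex x p.1) ∩ S.U (p.2, S.ex x p.2)).card then
        (n : ℝ) * (S.h b F M p.1 * S.h b F M p.2) else 0) := by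
    intro p hp
    have hp1 := (mem_product.1 hp).1
    have hp2 := (mem_product.1 hp).2
    set C := (F.erase x).filter (fun y => y ∈ S.A p.1 ∧ y ∈ S.A p.2) with hC
    have hCf : (C.card : ℝ) ≤ S.f F p.2 := by
      unfold f
      have : C ⊆ S.A p.2 ∩ F := by
        intro y hy
        rw [hC, mem_filter] at hy
        exact mem_inter.2 ⟨hy.2.2, mem_of_mem_erase hy.1⟩
      exact_mod_cast card_le_card this
    have hCn : (C.card : ℝ) ≤ n := by
      have : C ⊆ S.A p.2 := by
        intro y hy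
        rw [hC, mem_filter] at hy
        exact hy.2.2
      exact_mod_cast (card_le_card this).trans (hg.card_le p.2 (hI'sub hp2))
    by_cases hd : S.dir p.1 = S.dir p.2
    · rw [if_pos hd, if_neg (fun hh => hh.1 hd), add_zero]
      have := mul_le_mul_of_nonneg_right hCf (hnonneg p)
      linarith
    · rw [if_neg hd, zero_add]
      by_cases hc : C = ∅
      · rw [hc]; simp only [card_empty, Nat.cast_zero, zero_mul]
        split_ifs
        · exact mul_nonneg (Nat.cast_nonneg n) (hnonneg p)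
        · exact le_rfl
      · obtain ⟨y, hy⟩ := nonempty_iff_ne_empty.2 hc
        have hy' := hy
        rw [hC, mem_filter] at hy'
        have hxy : y ≠ x := (mem_erase.1 hy'.1).1
        have hA : ∀ i, S.A i ⊆ S.U (i, S.ex x i) := by
          intro i
          unfold U
          split_ifs
          · exact S.A_subset_Ap i
          · exact Subset.refl _
        have h2 : 2 ≤ (S.U (p.1, S.ex x p.1) ∩ S.U (p.2, S.ex x p.2)).card := by
          have hsub : ({y, x} : Finset ℕ) ⊆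
              S.U (p.1, S.ex x p.1) ∩ S.U (p.2, S.ex x p.2) := by
            intro z hz
            rw [mem_insert, mem_singleton] at hz
            rcases hz with rfl | rfl
            · exact mem_inter.2 ⟨hA p.1 hy'.2.1, hA p.2 hy'.2.2⟩
            · exact mem_inter.2
                ⟨(S.ex_spec hg hb0 (F := F) (M := M) hx (hI'sub hp1) (hmem p.1 hp1)).1,
                (S.ex_spec hg hb0 (F := F) (M := M) hx (hI'sub hp2) (hmem p.2 hp2)).1⟩
          have := card_le_card hsub
          rwa [card_pair hxy] at this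
        rw [if_pos ⟨hd, h2⟩]
        exact mul_le_mul_of_nonneg_right hCn (hnonneg p)
  rw [h1]
  refine (sum_le_sum hcount).trans ?_
  rw [sum_add_distrib, ← sum_filter (p := fun p : ι × ι => S.dir p.1 ≠ S.dir p.2 ∧
        2 ≤ (S.U (p.1, S.ex x p.1) ∩ S.U (p.2, S.ex x p.2)).card), ← mul_sum]
  have hsame : ∑ p ∈ I' ×ˢ I',
      (if S.dir p.1 = S.dir p.2 then S.h b F M p.1 * (S.f F p.2 * S.h b F M p.2) else 0) ≤
      5 / 2 * S.Sp b F M x := by
    rw [sum_product]
    unfold Sp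
    rw [mul_sum]
    refine sum_le_sum fun i hi => ?_
    have h2 : ∑ j ∈ I', (if S.dir i = S.dir j then S.h b F M i *
        (S.f F j * S.h b F M j) else 0) =
        S.h b F M i * ∑ j ∈ S.I.filter (fun j => S.dir j = S.dir i ∧ x ∈ S.Ap j),
          S.f F j * S.h b F M j := by
      rw [← sum_filter, mul_sum, hI', filter_filter]
      refine sum_congr (filter_congr fun j _ => ?_) fun _ _ => rfl
      constructor
      · rintro ⟨a, b⟩; exact ⟨b.symm, a⟩
      · rintro ⟨a, b⟩; exact ⟨b, a.symm⟩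
    have h3 := hg.line b F M (by linarith) hb hFM x hx (S.dir i)
    have h4 := hhn i
    simp only at h2 ⊢
    rw [h2]
    nlinarith
  have := mul_le_mul_of_nonneg_left hpair (Nat.cast_nonneg n : (0:ℝ) ≤ n)
  linarith

/-- The square of `X1`. -/
theorem X1_sq_le {n : ℕ} (hg : S.Good n) {b : ℝ} (hb0 : 1 / 3 ≤ b) (hb : b ≤ 1 / 2)
    {F M : Finset ℕ} (hFM : Disjoint F M) {u v : ℕ} (hu : u ∈ F) (hv : v ∈ F) (huv : u ≠ v) :
    S.X1 b F M u v ^ 2 ≤ 5 / 2 * S.X1 b F M u v + 4 * n ^ 2 * S.Px b F M v := by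
  have hb00 : (0 : ℝ) ≤ b := by linarith
  have hb1 : b ≤ 1 := by linarith
  set I' := S.I.filter (fun i => u ∈ S.Ap i ∧ v ∈ S.Ap i) with hI'
  have hI'sub : I' ⊆ S.I := filter_subset _ _
  have hmemu : ∀ i ∈ I', u ∈ S.Ap i := fun i hi => (mem_filter.1 hi).2.1
  have hmemv : ∀ i ∈ I', v ∈ S.Ap i := fun i hi => (mem_filter.1 hi).2.2
  have hhn : ∀ i, 0 ≤ S.h b F M i := fun i => S.h_nonneg hb00 hb1 F M i
  have hfn : ∀ i, 0 ≤ S.f F i := fun i => S.f_nonneg F i
  have hspec := fun i (hi : i ∈ I') => S.ex2_spec hg hb0 (F := F) (M := M) hu hv (hI'sub hi)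
    (hmemu i hi) (hmemv i hi)
  have hpair := S.sum_pair_le hb00 hb (F := F) (M := M) (x := v) (S.ex2 u v) I' hI'sub
    (fun i hi => (hspec i hi).2.1) (fun i hi => (hspec i hi).2.2)
  have hnonneg : ∀ p : ι × ι, 0 ≤ S.h b F M p.1 * S.h b F M p.2 := fun p =>
    mul_nonneg (hhn p.1) (hhn p.2)
  have h1 : S.X1 b F M u v ^ 2 = ∑ p ∈ I' ×ˢ I',
      (S.f F p.1 * S.h b F M p.1) * (S.f F p.2 * S.h b F M p.2) := by
    unfold X1
    rw [sq, sum_mul_sum, sum_product]
  have hcount : ∀ p ∈ I' ×ˢ I',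
      (S.f F p.1 * S.h b F M p.1) * (S.f F p.2 * S.h b F M p.2) ≤
      (if S.dir p.1 = S.dir p.2 then
        (S.f F p.1 * S.h b F M p.1) * (S.f F p.2 * S.h b F M p.2) else 0) +
      (if S.dir p.1 ≠ S.dir p.2 ∧
        2 ≤ (S.U (p.1, S.ex2 u v p.1) ∩ S.U (p.2, S.ex2 u v p.2)).card then
        (n : ℝ) ^ 2 * (S.h b F M p.1 * S.h b F M p.2) else 0) := by
    intro p hp
    have hp1 := (mem_product.1 hp).1
    have hp2 := (mem_product.1 hp).2
    by_cases hd : S.dir p.1 = S.dir p.2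
    · rw [if_pos hd, if_neg (fun hh => hh.1 hd), add_zero]
    · rw [if_neg hd, zero_add]
      have h2 : 2 ≤ (S.U (p.1, S.ex2 u v p.1) ∩ S.U (p.2, S.ex2 u v p.2)).card := by
        have hsub : ({u, v} : Finset ℕ) ⊆
            S.U (p.1, S.ex2 u v p.1) ∩ S.U (p.2, S.ex2 u v p.2) := by
          intro z hz
          rw [mem_insert, mem_singleton] at hz
          rcases hz with rfl | rfl
          · exact mem_inter.2 ⟨(hspec _ hp1).1, (hspec _ hp2).1⟩
          · exact mem_inter.2 ⟨(hspec _ hp1).2.1, (hspec _ hp2).2.1⟩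
        have := card_le_card hsub
        rwa [card_pair huv] at this
      rw [if_pos ⟨hd, h2⟩]
      have hf : ∀ i ∈ I', S.f F i ≤ n := by
        intro i hi
        unfold f
        exact_mod_cast (card_le_card inter_subset_left).trans (hg.card_le i (hI'sub hi))
      have h3 : S.f F p.1 * S.f F p.2 ≤ (n : ℝ) ^ 2 := by
        rw [sq]; exact mul_le_mul (hf _ hp1) (hf _ hp2) (hfn _) (Nat.cast_nonneg n)
      have h4 := mul_le_mul_of_nonneg_right h3 (hnonneg p)
      linarith
  rw [h1]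
  refine (sum_le_sum hcount).trans ?_
  rw [sum_add_distrib, ← sum_filter (p := fun p : ι × ι => S.dir p.1 ≠ S.dir p.2 ∧
        2 ≤ (S.U (p.1, S.ex2 u v p.1) ∩ S.U (p.2, S.ex2 u v p.2)).card), ← mul_sum]
  have hsame : ∑ p ∈ I' ×ˢ I',
      (if S.dir p.1 = S.dir p.2 then
        (S.f F p.1 * S.h b F M p.1) * (S.f F p.2 * S.h b F M p.2) else 0) ≤
      5 / 2 * S.X1 b F M u v := by
    rw [sum_product]
    unfold X1
    rw [mul_sum]
    refine sum_le_sum fun i hi => ?_
    have h2 : ∑ j ∈ I', (if S.dir i = S.dir j then (S.f F i * S.h b F M i) *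
        (S.f F j * S.h b F M j) else 0) ≤
        (S.f F i * S.h b F M i) * ∑ j ∈ S.I.filter (fun j => S.dir j = S.dir i ∧ v ∈ S.Ap j),
          S.f F j * S.h b F M j := by
      rw [← sum_filter, mul_sum]
      refine sum_le_sum_of_subset_of_nonneg ?_ fun j _ _ => ?_
      · intro j hj
        rw [mem_filter] at hj ⊢
        exact ⟨hI'sub hj.1, hj.2.symm, hmemv j hj.1⟩
      · exact mul_nonneg (mul_nonneg (hfn i) (hhn i)) (mul_nonneg (hfn j) (hhn j))
    have h3 := hg.line b F M (by linarith) hb hFM v hv (S.dir i)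
    have h4 : 0 ≤ S.f F i * S.h b F M i := mul_nonneg (hfn i) (hhn i)
    simp only at h2 ⊢
    refine h2.trans ?_
    nlinarith
  have := mul_le_mul_of_nonneg_left hpair (by positivity : (0:ℝ) ≤ (n:ℝ) ^ 2)
  linarith

end Sys

end Pool.Agent.H23.VW
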