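import Mathlib
import Pool.Agent.H23.VW.Second

/-!
# Change of the potential by a pair of moves
-/

set_option autoImplicit false

namespace Pool.Agent.H23.VW

open Finset

theorem exp_step {a a' : ℝ} (ha : 0 ≤ a) (ha' : 0 ≤ a') :
    Real.exp (-a') ≤ Real.exp (-a) - Real.exp (-a) * (a' - a) + (a' - a) ^ 2 := by
  set t := a' - a with ht
  have e : Real.exp (-a') = Real.exp (-a) * Real.exp (-t) := by
    rw [← Real.exp_add]; congr 1; rw [ht]; ring
  have hz0 : 0 < Real.exp (-a) := Real.exp_pos _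
  have hz1 : Real.exp (-a) ≤ 1 := Real.exp_le_one_iff.2 (by linarith)
  by_cases h1 : t ≤ -1
  · have h2 : Real.exp (-a') ≤ 1 := Real.exp_le_one_iff.2 (by linarith)
    nlinarith [mul_nonneg hz0.le (by linarith : (0:ℝ) ≤ -t)]
  · have h3 : Real.exp (-t) ≤ 1 - t + t ^ 2 := by
      by_cases h4 : t ≤ 1
      · have := Real.abs_exp_sub_one_sub_id_le (x := -t) (by rw [abs_neg, abs_le]; constructor <;> linarith)
        rw [abs_le] at this
        nlinarith [this.2]
      · have h5 : Real.exp (-t) ≤ 1 := Real.exp_le_one_iff.2 (by linarith)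
        nlinarith
    rw [e]
    have := mul_le_mul_of_nonneg_left h3 hz0.le
    nlinarith [sq_nonneg t, mul_nonneg (sq_nonneg t) (by linarith : (0:ℝ) ≤ 1 - Real.exp (-a))]

namespace Sys

variable {ι : Type} (S : Sys ι)

theorem move_ineq {n : ℕ} (hg : S.Good n) (Y : Finset ℕ) {L k1 k7 : ℝ} (hL : 0 ≤ L)
    (hk1 : 0 ≤ k1) (hk7 : 0 ≤ k7) {b : ℝ} (hb0 : 1 / 3 ≤ b) (hb : b ≤ 1 / 2)
    {F M : Finset ℕ} (hFM : Disjoint F M) {u v : ℕ} (hv : v ∈ F) (hu : u ∈ F.erase v) :
    S.Pot Y L k1 k7 b ((F.erase v).erase u) (insert v M) ≤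
      S.Pot Y L k1 k7 b F M - (1 / b - 1) * S.Yf Y L k1 k7 b F M v + S.Yf Y L k1 k7 b F M u +
        5 * L * S.X1 b F M u v + S.R n L b F M v + S.R n L b F M u := by
  have hb00 : (0 : ℝ) < b := by linarith
  have hb1 : b ≤ 1 := by linarith
  have huF : u ∈ F := mem_of_mem_erase hu
  have huv : u ≠ v := (mem_erase.1 hu).1
  set c := 1 / b - 1 with hc
  have hc1 : 1 ≤ c := by
    rw [hc, le_sub_iff_add_le, le_div_iff₀ hb00]; linarith
  have hc2 : c ≤ 2 := by
    rw [hc, sub_le_iff_le_add, div_le_iff₀ hb00]; linarith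
  set F' := (F.erase v).erase u with hF'
  set M' := insert v M with hM'
  set C := F ∩ Y with hC
  have hCC : F' ∩ Y = (C.erase v).erase u := by
    rw [hF', hC]; ext y; simp only [mem_inter, mem_erase]; tauto
  set z : ℕ → ℝ := fun y => Real.exp (-(L * S.Sv b F M y)) with hz
  have hz0 : ∀ y, 0 ≤ z y := fun y => (Real.exp_pos _).le
  have hz1 : ∀ y, z y ≤ 1 := fun y => Real.exp_le_one_iff.2 (by
    have := mul_nonneg hL (S.Sv_nonneg hb00.le hb1 F M y); linarith)
  have hX1 := S.X1_nonneg hb00.le hb1 F M u v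
  set X := S.X1 b F M u v with hX
  -- one centre
  set D : ℕ → ℝ := fun y => c * (S.Sx b F M y v - S.Sxx b F M y u v) - S.Sx b F M y u with hD
  have hcentre : ∀ y, Real.exp (-(L * S.Sv b F' M' y)) ≤
      z y - L * z y * D y + L ^ 2 * D y ^ 2 := by
    intro y
    have h1 := exp_step (mul_nonneg hL (S.Sv_nonneg hb00.le hb1 F M y))
      (mul_nonneg hL (S.Sv_nonneg hb00.le hb1 F' M' y))
    have h2 : L * S.Sv b F' M' y - L * S.Sv b F M y = L * D y := by
      rw [hF', hM', S.Sv_round hb00.ne' hFM hv hu y, hD]; ring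
    rw [h2] at h1
    simp only [hz]
    nlinarith [h1]
  have hZ : S.Z Y L b F' M' ≤ ∑ y ∈ (C.erase v).erase u,
      (z y - L * z y * D y + L ^ 2 * D y ^ 2) := by
    unfold Z; rw [hCC]
    exact sum_le_sum fun y _ => hcentre y
  -- sum of z
  have hsub : (C.erase v).erase u ⊆ C := (erase_subset _ _).trans (erase_subset _ _)
  have hsubF : (C.erase v).erase u ⊆ F := hsub.trans inter_subset_left
  have hs1 : ∑ y ∈ (C.erase v).erase u, z y ≤ S.Z Y L b F M :=
    sum_le_sum_of_subset_of_nonneg hsub fun y _ _ => hz0 y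
  -- linear terms
  have hlin : ∑ y ∈ (C.erase v).erase u, L * z y * D y =
      c * (∑ y ∈ (C.erase v).erase u, L * z y * S.Sx b F M y v) -
      c * (∑ y ∈ (C.erase v).erase u, L * z y * S.Sxx b F M y u v) -
      ∑ y ∈ (C.erase v).erase u, L * z y * S.Sx b F M y u := by
    rw [mul_sum, mul_sum, ← sum_sub_distrib, ← sum_sub_distrib]
    exact sum_congr rfl fun y _ => by rw [hD]; ring
  have hYv : S.YZ Y L b F M v - L * X ≤
      ∑ y ∈ (C.erase v).erase u, L * z y * S.Sx b F M y v := by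
    unfold YZ
    rw [← hC]
    by_cases h : u ∈ C.erase v
    · rw [← add_sum_erase _ _ h]
      have h1 : L * z u * S.Sx b F M u v ≤ L * X := by
        have h2 := (abs_le.1 ((S.abs_Sx_le_H hg hb00.le hb (M := M) (y := u) hv).trans
          (S.H_le_X1 hb00.le hb (M := M) (v := v) huF))).2
        have h3 := hz0 u
        have h4 := hz1 u
        have h5 : z u * S.Sx b F M u v ≤ X := by nlinarith
        nlinarith
      simp only [hz] at h1 ⊢
      linarith
    · rw [erase_eq_of_notMem h]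
      have := mul_nonneg hL hX1
      simp only [hz]
      linarith
  have hYu : ∑ y ∈ (C.erase v).erase u, L * z y * S.Sx b F M y u ≤
      S.YZ Y L b F M u + L * X := by
    unfold YZ
    rw [← hC, erase_right_comm]
    by_cases h : v ∈ C.erase u
    · rw [← add_sum_erase _ _ h]
      have h1 : -(L * X) ≤ L * z v * S.Sx b F M v u := by
        have h2 := (abs_le.1 ((S.abs_Sx_le_H hg hb00.le hb (M := M) (y := v) huF).trans
          (S.H_le_X1 hb00.le hb (M := M) (v := u) hv))).1
        rw [S.X1_comm] at h2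
        have h3 := hz0 v
        have h4 := hz1 v
        have h5 : -X ≤ z v * S.Sx b F M v u := by nlinarith
        nlinarith
      simp only [hz] at h1 ⊢
      linarith
    · rw [erase_eq_of_notMem h]
      have := mul_nonneg hL hX1
      simp only [hz]
      linarith
  have hYuv : ∑ y ∈ (C.erase v).erase u, L * z y * S.Sxx b F M y u v ≤ L * X := by
    have h1 := S.sum_abs_Sxx_le_X1 hg hb00.le hb (M := M) huF hv hsubF
    refine le_trans ?_ (mul_le_mul_of_nonneg_left h1 hL)
    rw [mul_sum]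
    refine sum_le_sum fun y _ => ?_
    rw [mul_assoc]
    refine mul_le_mul_of_nonneg_left ?_ hL
    have h2 := le_abs_self (S.Sxx b F M y u v)
    have h3 := abs_nonneg (S.Sxx b F M y u v)
    have h4 := hz0 y
    have h5 := hz1 y
    nlinarith
  -- quadratic terms
  have hD2 : ∀ y, D y ^ 2 ≤ 32 * S.H b F M y v ^ 2 + 2 * S.H b F M y u ^ 2 := by
    intro y
    have h1 := abs_le.1 (S.abs_Sx_le_H hg hb00.le hb (M := M) (y := y) hv)
    have h2 := abs_le.1 (S.abs_Sx_le_H hg hb00.le hb (M := M) (y := y) huF)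
    have h3 := abs_le.1 (S.abs_Sxx_le_H hg hb00.le hb (M := M) (y := y) huF hv)
    have h4 := S.H_nonneg hb00.le hb1 F M y v
    have h5 := S.H_nonneg hb00.le hb1 F M y u
    have h6 : |D y| ≤ 4 * S.H b F M y v + S.H b F M y u := by
      rw [abs_le, hD]
      constructor <;> nlinarith [h1.1, h1.2, h2.1, h2.2, h3.1, h3.2]
    have h7 : D y ^ 2 ≤ (4 * S.H b F M y v + S.H b F M y u) ^ 2 := by
      rw [← sq_abs]
      exact pow_le_pow_left₀ (abs_nonneg _) h6 2
    nlinarith [sq_nonneg (4 * S.H b F M y v - S.H b F M y u)]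
  have hquad : ∑ y ∈ (C.erase v).erase u, L ^ 2 * D y ^ 2 ≤
      S.R n L b F M v + S.R n L b F M u := by
    have h1 : ∑ y ∈ (C.erase v).erase u, L ^ 2 * D y ^ 2 ≤
        L ^ 2 * (32 * (∑ y ∈ F.erase v, S.H b F M y v ^ 2) +
          2 * (∑ y ∈ F.erase u, S.H b F M y u ^ 2)) := by
      have a1 : ∑ y ∈ (C.erase v).erase u, S.H b F M y v ^ 2 ≤
          ∑ y ∈ F.erase v, S.H b F M y v ^ 2 := by
        refine sum_le_sum_of_subset_of_nonneg ?_ fun y _ _ => sq_nonneg _
        exact (erase_subset _ _).trans (erase_subset_erase _ inter_subset_left)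
      have a2 : ∑ y ∈ (C.erase v).erase u, S.H b F M y u ^ 2 ≤
          ∑ y ∈ F.erase u, S.H b F M y u ^ 2 := by
        refine sum_le_sum_of_subset_of_nonneg ?_ fun y _ _ => sq_nonneg _
        exact erase_subset_erase _ ((erase_subset _ _).trans inter_subset_left)
      rw [← mul_sum]
      refine mul_le_mul_of_nonneg_left ?_ (sq_nonneg L)
      refine (sum_le_sum fun y _ => hD2 y).trans ?_
      rw [sum_add_distrib, ← mul_sum, ← mul_sum]
      linarith
    have h2 := S.sum_H_sq_le hg hb0 hb hFM hv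
    have h3 := S.sum_H_sq_le hg hb0 hb hFM huF
    have h4 : 0 ≤ ∑ y ∈ F.erase u, S.H b F M y u ^ 2 := sum_nonneg fun y _ => sq_nonneg _
    have h5 := sq_nonneg L
    unfold R
    refine h1.trans ?_
    have h6 := mul_le_mul_of_nonneg_left h2 h5
    have h7 := mul_le_mul_of_nonneg_left h3 h5
    have h8 := mul_nonneg h5 h4
    linarith
  -- the two penal potentials
  have hP := S.P_round_le hb00 hb1 hFM hv hu
  have hQ := S.Q_round_le hb00 hb1 hFM hv hu
  rw [← hF', ← hM', ← hc] at hP hQ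
  have hP' := mul_le_mul_of_nonneg_left hP hk1
  have hQ' := mul_le_mul_of_nonneg_left hQ hk7
  have hLX := mul_nonneg hL hX1
  have hsum : ∑ y ∈ (C.erase v).erase u, (z y - L * z y * D y + L ^ 2 * D y ^ 2) =
      ∑ y ∈ (C.erase v).erase u, z y - ∑ y ∈ (C.erase v).erase u, L * z y * D y +
      ∑ y ∈ (C.erase v).erase u, L ^ 2 * D y ^ 2 := by
    rw [← sum_sub_distrib, ← sum_add_distrib]
  rw [hsum, hlin] at hZ
  have hc0 : 0 ≤ c := by linarith
  have q1 := mul_le_mul_of_nonneg_left hYv hc0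
  have q2 := mul_le_mul_of_nonneg_left hYuv hc0
  have q3 : c * (L * X) ≤ 2 * (L * X) := mul_le_mul_of_nonneg_right hc2 hLX
  unfold Pot Yf
  linarith

end Sys

end Pool.Agent.H23.VW
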