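import Mathlib
import Pool.Agent.H23.VW.Avg
import Pool.Agent.H23.VW.Cubic
import Pool.Agent.H23.VW.MoveIneq

/-!
# One round of the main phase
-/

set_option autoImplicit false

namespace Pool.Agent.H23.VW

open Finset

theorem third_le_bs {t : ℝ} (ht : t ≤ 1 / 3) : 1 / 3 ≤ bs t := by
  unfold bs
  have := Real.add_one_le_exp (-t)
  linarith

theorem inv_bs (t : ℝ) : 1 / bs t = 2 * Real.exp t := by
  unfold bs
  rw [Real.exp_neg]
  have := Real.exp_pos t
  field_simp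

namespace Sys

variable {ι : Type} (S : Sys ι)

/-- The quantity bounding the average from below. -/
noncomputable def Av (n : ℕ) (Y : Finset ℕ) (k1 k7 b : ℝ) (F M : Finset ℕ) : ℝ :=
  ((2 * n + 2) * (k1 * S.P b F M) + (3 * n + 3) * (k7 * S.Q b F M) + Y.card) / F.card

theorem round_det {n : ℕ} (hg : S.Good n) (Y : Finset ℕ) {L k1 k7 : ℝ} (hL : 0 ≤ L)
    (hk1 : 0 ≤ k1) (hk7 : 0 ≤ k7) {t0 t : ℝ} (ht0 : 0 ≤ t0) (ht : t0 ≤ t) (ht1 : t ≤ 1 / 3)
    (hq : (t - t0) * n ≤ 1) {F M : Finset ℕ} (hFM : Disjoint F M) (hF : F.Nonempty)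
    (hqF : (t - t0) * F.card = 2 * t0) :
    ∃ v ∈ F, (∀ u ∈ F.erase v,
      S.Pot Y L k1 k7 (bs t) ((F.erase v).erase u) (insert v M) ≤
        S.Pot Y L k1 k7 (bs t0) F M + (t - t0) * Y.card + 4 * L * (t - t0) ^ 2 * S.I.card +
        5 * L * S.X1 (bs t) F M u v + 5 * S.R n L (bs t) F M v +
        (2 * (t - t0) + 2 * t ^ 2) * S.Av n Y k1 k7 (bs t) F M) ∧
      -(S.Av n Y k1 k7 (bs t) F M) ≤
        S.Yf Y L k1 k7 (bs t) F M v + S.R n L (bs t) F M v := by
  have hb00 := bs_pos t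
  have hb0 := third_le_bs ht1
  have hb := bs_le_half (ht0.trans ht)
  have hb1 : bs t ≤ 1 := by linarith
  have hq0 : 0 ≤ t - t0 := by linarith
  have hFc : (0 : ℝ) < F.card := by exact_mod_cast card_pos.2 hF
  obtain ⟨v, hv, hmax⟩ := exists_max_image F
    (fun x => S.Yf Y L k1 k7 (bs t) F M x + S.R n L (bs t) F M x) hF
  have hR0 : ∀ x, 0 ≤ S.R n L (bs t) F M x := by
    intro x
    unfold R
    have h1 := S.Sp_nonneg hb00.le hb1 F M x
    have h2 := S.Px_nonneg hb00.le F M x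
    have h3 : 0 ≤ 4 * (n : ℝ) * S.Px (bs t) F M x :=
      mul_nonneg (mul_nonneg (by norm_num) (Nat.cast_nonneg n)) h2
    positivity
  set A := S.Av n Y k1 k7 (bs t) F M with hA
  set W := S.Yf Y L k1 k7 (bs t) F M v + S.R n L (bs t) F M v with hW
  have hsumle : ∑ x ∈ F, S.Yf Y L k1 k7 (bs t) F M x ≤ F.card * W := by
    calc ∑ x ∈ F, S.Yf Y L k1 k7 (bs t) F M x ≤ ∑ x ∈ F, W := by
          refine sum_le_sum fun x hx => ?_
          have := hmax x hx
          have := hR0 x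
          linarith
      _ = F.card * W := by rw [sum_const, nsmul_eq_mul]
  have hAv : -A ≤ W := by
    have h1 := S.sum_Yf_ge hg Y hL hk1 hk7 hb00.le hb hFM
    have h2 := h1.trans hsumle
    rw [hA]
    unfold Av
    rw [← neg_div, div_le_iff₀ hFc]
    linarith
  have hA0 : 0 ≤ A := by
    rw [hA]; unfold Av
    have h1 := mul_nonneg hk1 (S.P_nonneg hb00.le F M)
    have h2 := mul_nonneg hk7 (S.Q_nonneg hb00.le F M)
    positivity
  refine ⟨v, hv, ?_, hAv⟩
  intro u hu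
  have huF : u ∈ F := mem_of_mem_erase hu
  have hmove := S.move_ineq hg Y hL hk1 hk7 hb0 hb hFM hv hu
  have htime := S.time_ineq hg Y hL hk1 hk7 ht0 ht hq F M
  have hu' := hmax u huF
  rw [inv_bs] at hmove
  set Yv := S.Yf Y L k1 k7 (bs t) F M v with hYv
  set Rv := S.R n L (bs t) F M v with hRv
  have hRv0 : 0 ≤ Rv := hR0 v
  -- the time gain
  have h1 : (t - t0) * ∑ x ∈ F, S.Yf Y L k1 k7 (bs t) F M x ≤ 2 * t0 * W := by
    have := mul_le_mul_of_nonneg_left hsumle hq0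
    calc _ ≤ (t - t0) * (F.card * W) := this
      _ = ((t - t0) * F.card) * W := by ring
      _ = 2 * t0 * W := by rw [hqF]
  -- the coefficient
  set r := 2 * Real.exp t - 1 - 1 - 2 * t0 with hr
  have ht00 : 0 ≤ t := ht0.trans ht
  have hr0 : 0 ≤ r := by
    have := Real.add_one_le_exp t
    rw [hr]; linarith
  have hr1 : r ≤ 2 * (t - t0) + 2 * t ^ 2 := by
    have := Real.abs_exp_sub_one_sub_id_le (x := t) (by rw [abs_of_nonneg ht00]; linarith)
    have := (abs_le.1 this).2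
    rw [hr]; linarith
  have hr2 : 2 + 2 * t0 + r ≤ 5 := by
    have : t ^ 2 ≤ 1 := by nlinarith
    linarith
  have h2 : -(r * Yv) ≤ r * (Rv + A) := by
    have : -Yv ≤ Rv + A := by rw [hW] at hAv; linarith
    have := mul_le_mul_of_nonneg_left this hr0
    linarith
  have h3 : r * A ≤ (2 * (t - t0) + 2 * t ^ 2) * A := mul_le_mul_of_nonneg_right hr1 hA0
  have h4 : (2 + 2 * t0 + r) * Rv ≤ 5 * Rv := mul_le_mul_of_nonneg_right hr2 hRv0
  have h5 : 2 * t0 * W = 2 * t0 * Yv + 2 * t0 * Rv := by rw [hW]; ring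
  have h6 : (2 * Real.exp t - 1) * Yv = (1 + 2 * t0 + r) * Yv := by rw [hr]; ring
  rw [h6] at hmove
  linarith

end Sys

end Pool.Agent.H23.VW
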