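import Mathlib
import Pool.Agent.H23.VW.Round
import Pool.Agent.H23.VW.Numeric

/-!
# One round of the main phase, asymptotic form
-/

set_option autoImplicit false

namespace Pool.Agent.H23.VW

open Finset

/-- The time parameter with `N` points on the board, `k` of them free. -/
noncomputable def tm (n N k : ℕ) : ℝ := (N : ℝ) / (n * k)

theorem tm_nonneg (n N k : ℕ) : 0 ≤ tm n N k := by unfold tm; positivity

theorem round_asym {ρ l k e : ℝ} (hρ : 0 < ρ) (hl : 0 ≤ l) (hk : 0 < k)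
    (he : 0 < e) :
    ∃ n0 : ℕ, ∀ n : ℕ, n0 ≤ n → ∀ N : ℕ, n ≤ N → ∀ k1 : ℝ, (n : ℝ) ^ 6 ≤ k1 →
      ∀ {ι : Type} (S : Sys ι), S.Good n → (S.I.card : ℝ) * n ≤ 2 * N ^ 2 →
      ∀ Y : Finset ℕ, Y.card ≤ N → ∀ F M : Finset ℕ, Disjoint F M → ¬ S.Wins M →
      ρ * N ≤ F.card →
      S.Pot Y (l / n) k1 (k / n ^ 3) (bs (tm n N (F.card + 2))) F M ≤ N →
      ∃ v ∈ F, ∀ u ∈ F.erase v,
        S.Pot Y (l / n) k1 (k / n ^ 3) (bs (tm n N F.card)) ((F.erase v).erase u) (insert v M) ≤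
          S.Pot Y (l / n) k1 (k / n ^ 3) (bs (tm n N (F.card + 2))) F M + e := by
  obtain ⟨n1, hn1⟩ := numeric (l := l) (k := k) (a := 7 / ρ) (e := e / 50) hl hk
    (by positivity) (by positivity)
  obtain ⟨n2, hn2⟩ := exists_nat_ge (1 + 3 / ρ + 2 / ρ ^ 2 + 20 / (ρ ^ 2 * e) +
    320 * l / (ρ ^ 4 * e) + 150 * l / e + 420 / (ρ ^ 3 * e))
  refine ⟨max n1 n2, fun n hn N hnN k1 hk1 ι S hg hI Y hY F M hFM hnw hF hPot => ?_⟩
  have hnR : 1 + 3 / ρ + 2 / ρ ^ 2 + 20 / (ρ ^ 2 * e) +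
    320 * l / (ρ ^ 4 * e) + 150 * l / e + 420 / (ρ ^ 3 * e) ≤ (n : ℝ) :=
    hn2.trans (by exact_mod_cast (le_max_right n1 n2).trans hn)
  have g1 : 0 ≤ 3 / ρ := by positivity
  have g2 : 0 ≤ 2 / ρ ^ 2 := by positivity
  have g3 : 0 ≤ 20 / (ρ ^ 2 * e) := by positivity
  have g4 : 0 ≤ 320 * l / (ρ ^ 4 * e) := by positivity
  have g5 : 0 ≤ 150 * l / e := by positivity
  have g6 : 0 ≤ 420 / (ρ ^ 3 * e) := by positivity
  have hn1' : (1 : ℝ) ≤ n := by linarith
  have hnp : (0 : ℝ) < n := by linarith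
  have hnN' : (n : ℝ) ≤ N := by exact_mod_cast hnN
  have hNp : (0 : ℝ) < N := by linarith
  have hρN : 0 < ρ * N := by positivity
  have hFp : (0 : ℝ) < F.card := lt_of_lt_of_le hρN hF
  have hFne : F.Nonempty := card_pos.1 (by exact_mod_cast hFp)
  set t := tm n N F.card with ht
  set t0 := tm n N (F.card + 2) with ht0
  have ht' : t = N / (n * F.card) := rfl
  have ht0' : t0 = N / (n * (F.card + 2)) := by rw [ht0]; unfold tm; push_cast; rfl
  have ht0n : 0 ≤ t0 := tm_nonneg _ _ _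
  have htn : 0 ≤ t := tm_nonneg _ _ _
  have htt : t0 ≤ t := by
    rw [ht', ht0']
    apply div_le_div_of_nonneg_left hNp.le (by positivity)
    exact mul_le_mul_of_nonneg_left (by linarith) hnp.le
  have hqF : (t - t0) * F.card = 2 * t0 := by
    rw [ht', ht0']; field_simp; ring
  have ht1 : t ≤ 1 / (n * ρ) := by
    rw [ht', div_le_div_iff₀ (by positivity) (by positivity)]
    have := mul_le_mul_of_nonneg_left hF hnp.le
    linarith
  have ht3 : t ≤ 1 / 3 := by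
    refine ht1.trans ?_
    rw [div_le_div_iff₀ (by positivity) (by norm_num)]
    have : 3 / ρ ≤ n := by linarith
    rw [div_le_iff₀ hρ] at this
    linarith
  have hq0 : 0 ≤ t - t0 := by linarith
  -- bound of t - t0
  have hqb : (t - t0) * (n * ρ ^ 2 * N) ≤ 2 := by
    have h1 : (t - t0) * F.card ≤ 2 * t := by rw [hqF]; linarith
    have h2 : (t - t0) * (ρ * N) ≤ 2 * (1 / (n * ρ)) := by
      have := mul_le_mul_of_nonneg_left hF hq0
      linarith
    have h3 : 0 < n * ρ := by positivity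
    calc (t - t0) * (n * ρ ^ 2 * N) = (t - t0) * (ρ * N) * (n * ρ) := by ring
      _ ≤ 2 * (1 / (n * ρ)) * (n * ρ) := mul_le_mul_of_nonneg_right h2 h3.le
      _ = 2 := by field_simp
  have hqN : (t - t0) * N ≤ 2 / (n * ρ ^ 2) := by
    rw [le_div_iff₀ (by positivity)]
    calc (t - t0) * N * (n * ρ ^ 2) = (t - t0) * (n * ρ ^ 2 * N) := by ring
      _ ≤ 2 := hqb
  have hqn : (t - t0) * n ≤ 1 := by
    have h1 : (t - t0) * n ≤ (t - t0) * N := mul_le_mul_of_nonneg_left hnN' hq0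
    have h2 : 2 / (n * ρ ^ 2) ≤ 1 := by
      rw [div_le_one (by positivity)]
      have : 2 / ρ ^ 2 ≤ n := by linarith
      rwa [div_le_iff₀ (by positivity)] at this
    linarith
  have hk1p : 0 ≤ k1 := le_trans (by positivity) hk1
  have hL : 0 ≤ l / n := by positivity
  have hk7 : 0 ≤ k / (n : ℝ) ^ 3 := by positivity
  have hb00 := bs_pos t
  have hb := bs_le_half htn
  have hb0 := third_le_bs ht3
  have hb1 : bs t ≤ 1 := by linarith
  obtain ⟨v, hv, hround, hAv⟩ := S.round_det hg Y hL hk1p hk7 ht0n htt ht3 hqn hFM hFne hqF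
  refine ⟨v, hv, fun u hu => ?_⟩
  have huF : u ∈ F := mem_of_mem_erase hu
  have huv : u ≠ v := (mem_erase.1 hu).1
  -- bound of the average term
  have hPQ : k1 * S.P (bs t) F M + k / n ^ 3 * S.Q (bs t) F M ≤ N := by
    have h1 := S.P_time t0 t F M
    have h2 := S.Q_time t0 t F M
    have h3 : 0 ≤ (t - t0) * ∑ x ∈ F, S.Px (bs t) F M x :=
      mul_nonneg hq0 (sum_nonneg fun x _ => S.Px_nonneg hb00.le F M x)
    have h4 : 0 ≤ (t - t0) * ∑ x ∈ F, S.Qx (bs t) F M x :=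
      mul_nonneg hq0 (sum_nonneg fun x _ => S.Qx_nonneg hb00.le F M x)
    have h5 : 0 ≤ S.Z Y (l / n) (bs t0) F M := sum_nonneg fun y _ => (Real.exp_pos _).le
    have h6 := mul_le_mul_of_nonneg_left (by linarith : S.P (bs t) F M ≤ S.P (bs t0) F M) hk1p
    have h7 := mul_le_mul_of_nonneg_left (by linarith : S.Q (bs t) F M ≤ S.Q (bs t0) F M) hk7
    unfold Sys.Pot at hPot
    linarith
  have hYN : (Y.card : ℝ) ≤ N := by exact_mod_cast hY
  set A := S.Av n Y k1 (k / n ^ 3) (bs t) F M with hA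
  have hA0 : 0 ≤ A := by
    rw [hA]; unfold Sys.Av
    have h1 := mul_nonneg hk1p (S.P_nonneg hb00.le F M)
    have h2 := mul_nonneg hk7 (S.Q_nonneg hb00.le F M)
    positivity
  have hA1 : A ≤ 7 / ρ * n := by
    rw [hA]; unfold Sys.Av
    rw [div_le_iff₀ hFp]
    have h1 := mul_nonneg hk1p (S.P_nonneg hb00.le F M)
    have h2 := mul_nonneg hk7 (S.Q_nonneg hb00.le F M)
    have h3 : (2 * (n:ℝ) + 2) * (k1 * S.P (bs t) F M) + (3 * n + 3) *
        (k / n ^ 3 * S.Q (bs t) F M) ≤ (3 * n + 3) * N := by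
      have h4 : (2 * (n:ℝ) + 2) * (k1 * S.P (bs t) F M) ≤
          (3 * n + 3) * (k1 * S.P (bs t) F M) :=
        mul_le_mul_of_nonneg_right (by linarith) h1
      have h5 := mul_le_mul_of_nonneg_left hPQ (by linarith : (0:ℝ) ≤ 3 * n + 3)
      linarith
    have h6 : 7 * (n : ℝ) * N ≤ 7 / ρ * n * F.card := by
      calc 7 * (n : ℝ) * N = 7 / ρ * n * (ρ * N) := by field_simp
        _ ≤ 7 / ρ * n * F.card := mul_le_mul_of_nonneg_left hF (by positivity)
    have h7 : (3 * (n:ℝ) + 3) * N + N ≤ 7 * n * N := by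
      have : (N : ℝ) ≤ n * N := le_mul_of_one_le_left hNp.le hn1'
      linarith
    linarith
  -- numerical lemma
  have hs := S.Sp_nonneg hb00.le hb1 F M v
  have hp := S.Px_nonneg hb00.le F M v
  have hqq := S.Qx_nonneg hb00.le F M v
  have hX := S.X1_nonneg hb00.le hb1 F M u v
  have hYZ := S.YZ_le hg Y hL hb00.le hb (M := M) hv
  have hi : k1 * S.Px (bs t) F M v + k / n ^ 3 * S.Qx (bs t) F M v ≤
      l / n * (n * S.Sp (bs t) F M v) + S.R n (l / n) (bs t) F M v + A := by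
    unfold Sys.Yf at hAv
    linarith
  have hnum := hn1 n ((le_max_left n1 n2).trans hn) k1 (S.Sp (bs t) F M v)
    (S.Px (bs t) F M v) (S.Qx (bs t) F M v) (S.X1 (bs t) F M u v) A
    (S.R n (l / n) (bs t) F M v) hk1 hs hp hqq hX hA1 rfl hi
    (S.cubic hg hb0 hb hFM hv hnw)
  have hRb := hnum.1
  have hXb := hnum.2 (S.X1_sq_le hg hb0 hb hFM huF hv huv)
  -- error terms
  have E1 : (t - t0) * Y.card ≤ e / 10 := by
    have h1 : (t - t0) * Y.card ≤ (t - t0) * N := mul_le_mul_of_nonneg_left hYN hq0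
    have h2 : 2 / (n * ρ ^ 2) ≤ e / 10 := by
      rw [div_le_div_iff₀ (by positivity) (by norm_num)]
      have : 20 / (ρ ^ 2 * e) ≤ n := by linarith
      rw [div_le_iff₀ (by positivity)] at this
      linarith
    linarith
  have E2 : 4 * (l / n) * (t - t0) ^ 2 * S.I.card ≤ e / 10 := by
    have h1 : (t - t0) ^ 2 * N ^ 2 ≤ (2 / (n * ρ ^ 2)) ^ 2 := by
      rw [← mul_pow]
      exact pow_le_pow_left₀ (mul_nonneg hq0 hNp.le) hqN 2
    have h2 : 4 * (l / n) * (t - t0) ^ 2 * S.I.card =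
        4 * l * (t - t0) ^ 2 * ((S.I.card : ℝ) * n) / n ^ 2 := by
      field_simp
    have h3 : 4 * l * (t - t0) ^ 2 * ((S.I.card : ℝ) * n) ≤
        4 * l * (t - t0) ^ 2 * (2 * N ^ 2) :=
      mul_le_mul_of_nonneg_left hI (by positivity)
    have h4 : 4 * l * (t - t0) ^ 2 * (2 * (N : ℝ) ^ 2) ≤ 8 * l * (2 / (n * ρ ^ 2)) ^ 2 := by
      have := mul_le_mul_of_nonneg_left h1 (by positivity : 0 ≤ 8 * l)
      linarith
    have h5 : 8 * l * (2 / (n * ρ ^ 2)) ^ 2 ≤ 32 * l / ρ ^ 4 / n := by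
      have : 8 * l * (2 / (n * ρ ^ 2)) ^ 2 = 32 * l / ρ ^ 4 / n / n := by field_simp; ring
      rw [this]
      exact div_le_self (by positivity) hn1'
    have h6 : 32 * l / ρ ^ 4 / n ≤ e / 10 := by
      rw [div_div, div_le_div_iff₀ (by positivity) (by norm_num)]
      have : 320 * l / (ρ ^ 4 * e) ≤ n := by linarith
      rw [div_le_iff₀ (by positivity)] at this
      linarith
    rw [h2]
    refine (div_le_self (by positivity) (one_le_pow₀ hn1')).trans ?_
    linarith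
  have E3 : 5 * (l / n) * S.X1 (bs t) F M u v ≤ e / 10 := by
    have h1 : 5 * (l / n) * S.X1 (bs t) F M u v ≤ 5 * (l / n) * 3 :=
      mul_le_mul_of_nonneg_left hXb (by positivity)
    have h2 : 5 * (l / n) * 3 = 15 * l / n := by ring
    have h3 : 15 * l / n ≤ e / 10 := by
      rw [div_le_div_iff₀ hnp (by norm_num)]
      have : 150 * l / e ≤ n := by linarith
      rw [div_le_iff₀ he] at this
      linarith
    linarith
  have E4 : 5 * S.R n (l / n) (bs t) F M v ≤ e / 10 := by linarith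
  have E5 : (2 * (t - t0) + 2 * t ^ 2) * A ≤ e / 10 := by
    have h1 : 2 * (t - t0) + 2 * t ^ 2 ≤ 6 / (n ^ 2 * ρ ^ 2) := by
      have a1 : (t - t0) ≤ 2 / (n ^ 2 * ρ ^ 2) := by
        rw [le_div_iff₀ (by positivity)]
        have : (n:ℝ) ^ 2 * ρ ^ 2 ≤ n * ρ ^ 2 * N := by
          have := mul_le_mul_of_nonneg_left hnN' (by positivity : 0 ≤ n * ρ ^ 2)
          linarith
        have := mul_le_mul_of_nonneg_left this hq0
        linarith
      have a2 : t ^ 2 ≤ (1 / (n * ρ)) ^ 2 := pow_le_pow_left₀ htn ht1 2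
      have a3 : (1 / (n * ρ)) ^ 2 = 1 / (n ^ 2 * ρ ^ 2) := by field_simp
      have a4 : 6 / ((n:ℝ) ^ 2 * ρ ^ 2) = 2 * (2 / (n ^ 2 * ρ ^ 2)) + 2 * (1 / (n ^ 2 * ρ ^ 2)) := by
        ring
      rw [a4]
      linarith
    have h2 : (2 * (t - t0) + 2 * t ^ 2) * A ≤ 6 / (n ^ 2 * ρ ^ 2) * (7 / ρ * n) :=
      mul_le_mul h1 hA1 hA0 (by positivity)
    have h3 : 6 / ((n:ℝ) ^ 2 * ρ ^ 2) * (7 / ρ * n) = 42 / (ρ ^ 3 * n) := by
      field_simp; norm_num
    have h4 : 42 / (ρ ^ 3 * n) ≤ e / 10 := by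
      rw [div_le_div_iff₀ (by positivity) (by norm_num)]
      have : 420 / (ρ ^ 3 * e) ≤ n := by linarith
      rw [div_le_iff₀ (by positivity)] at this
      linarith
    linarith
  have := hround u hu
  linarith

end Pool.Agent.H23.VW
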