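import Mathlib
import Pool.Agent.H23.VW.RoundAsym
import Pool.Agent.H23.VW.APLine
import Pool.Agent.H23.VW.APTriples
import Pool.Agent.H23.VW.APPairs
import Pool.Agent.H23.VW.APDegree

/-!
# The system of progressions is good; initial values
-/

set_option autoImplicit false

namespace Pool.Agent.H23.VW

open Finset

theorem apSys_good (n N : ℕ) : (apSys n N).Good n where
  card_le := by
    intro i hi
    have hd : 1 ≤ i.2 := (mem_apI.1 hi).2.1
    exact (card_prog (k := n) (a := i.1) hd).le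
  s_notMem := by
    intro i hi h
    have hd : 1 ≤ i.2 := (mem_apI.1 hi).2.1
    have h' : i.1 + n * i.2 ∈ prog n i.1 i.2 := h
    rw [mem_prog] at h'
    obtain ⟨k, hk, hk'⟩ := h'
    have h1 : k * i.2 = n * i.2 := by omega
    have h2 : k = n := Nat.eq_of_mul_eq_mul_right hd h1
    omega
  line := fun b F M hb0 hb hFM x hx d => apSys_line b F M hb0 hb hFM x hx d

theorem card_apI {n N : ℕ} (hn : 2 ≤ n) : (((apSys n N).I.card : ℕ) : ℝ) * n ≤ 2 * (N : ℝ) ^ 2 := by
  have h1 : (apSys n N).I ⊆ Icc 1 N ×ˢ Icc 1 ((N - 1) / (n - 1)) := by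
    intro p hp
    have hp' := mem_apI.1 (show (p.1, p.2) ∈ (apSys n N).I from hp)
    rw [mem_product, mem_Icc, mem_Icc]
    refine ⟨⟨hp'.1, hp'.2.2.1⟩, hp'.2.1, ?_⟩
    rw [Nat.le_div_iff_mul_le (by omega)]
    have := hp'.2.2.2.2
    rw [mul_comm]
    omega
  have h2 := card_le_card h1
  rw [card_product, Nat.card_Icc, Nat.card_Icc] at h2
  simp only [Nat.add_sub_cancel] at h2
  have h3 : (N - 1) / (n - 1) * n ≤ 2 * N := by
    have h4 : (N - 1) / (n - 1) * (n - 1) ≤ N - 1 := Nat.div_mul_le_self _ _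
    have h5 : n ≤ 2 * (n - 1) := by omega
    calc (N - 1) / (n - 1) * n ≤ (N - 1) / (n - 1) * (2 * (n - 1)) := Nat.mul_le_mul_left _ h5
      _ = 2 * ((N - 1) / (n - 1) * (n - 1)) := by ring
      _ ≤ 2 * (N - 1) := Nat.mul_le_mul_left _ h4
      _ ≤ 2 * N := by omega
  have h6 : (apSys n N).I.card * n ≤ 2 * N ^ 2 := by
    calc (apSys n N).I.card * n ≤ N * ((N - 1) / (n - 1)) * n := Nat.mul_le_mul_right _ h2
      _ = N * ((N - 1) / (n - 1) * n) := by ring
      _ ≤ N * (2 * N) := Nat.mul_le_mul_left _ h3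
      _ = 2 * N ^ 2 := by ring
  exact_mod_cast h6

/-- The centres: points which are not too close to the ends. -/
def centres (N K : ℕ) : Finset ℕ :=
  (Icc 1 N).filter (fun y => N ≤ 2 ^ (K + 4) * y ∧ N ≤ 2 ^ (K + 4) * (N + 1 - y))

theorem card_centres_le (N K : ℕ) : (centres N K).card ≤ N := by
  have h := card_le_card (filter_subset (fun y => N ≤ 2 ^ (K + 4) * y ∧
    N ≤ 2 ^ (K + 4) * (N + 1 - y)) (Icc 1 N))
  rw [Nat.card_Icc, Nat.add_sub_cancel] at h
  exact h

theorem card_sdiff_centres_le (N K : ℕ) :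
    ((Icc 1 N \ centres N K).card : ℝ) ≤ 1 / 2 ^ K * N / 4 := by
  set D := N / 2 ^ (K + 4) with hD
  have h1 : Icc 1 N \ centres N K ⊆ Icc 1 D ∪ (Icc 1 D).image (fun z => N + 1 - z) := by
    intro y hy
    rw [mem_sdiff] at hy
    have hyN := mem_Icc.1 hy.1
    unfold centres at hy
    rw [mem_filter] at hy
    push Not at hy
    by_cases h2 : N ≤ 2 ^ (K + 4) * y
    · have h3 := hy.2 hy.1 h2
      refine mem_union_right _ (mem_image.2 ⟨N + 1 - y, ?_, by omega⟩)
      rw [mem_Icc]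
      refine ⟨by omega, ?_⟩
      rw [hD, Nat.le_div_iff_mul_le (by positivity), mul_comm]
      exact h3.le
    · push Not at h2
      refine mem_union_left _ ?_
      rw [mem_Icc]
      refine ⟨hyN.1, ?_⟩
      rw [hD, Nat.le_div_iff_mul_le (by positivity), mul_comm]
      exact h2.le
  have h2 : (Icc 1 N \ centres N K).card ≤ D + D := by
    refine (card_le_card h1).trans ((card_union_le _ _).trans (Nat.add_le_add ?_ ?_))
    · rw [Nat.card_Icc, Nat.add_sub_cancel]
    · refine card_image_le.trans ?_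
      rw [Nat.card_Icc, Nat.add_sub_cancel]
  have h3 : (D : ℝ) ≤ N / 2 ^ (K + 4) := by
    rw [hD]
    exact_mod_cast (Nat.cast_div_le (α := ℝ) (m := N) (n := 2 ^ (K + 4)))
  have h4 : ((Icc 1 N \ centres N K).card : ℝ) ≤ D + D := by exact_mod_cast h2
  have h5 : (N : ℝ) / 2 ^ (K + 4) = 1 / 2 ^ K * N / 16 := by
    rw [pow_add]; field_simp; norm_num
  have h6 : (0 : ℝ) ≤ 1 / 2 ^ K * N := by positivity
  rw [h5] at h3
  linarith

/-- Initial value of the sum at a centre. -/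
theorem Sv_zero_ge {n N K : ℕ} (hn : 2 ≤ n) (hN : 2 ^ (2 * K + 10) * n ≤ N) {t : ℝ}
    (ht0 : 0 ≤ t) (ht : t * n ≤ 1) {y : ℕ} (hy : y ∈ centres N K) :
    (K : ℝ) / 64 / 2 ^ K * N * (1 / 2 ^ n / 6) ≤ (apSys n N).Sv (bs t) (Icc 1 N) ∅ y := by
  unfold centres at hy
  rw [mem_filter, mem_Icc] at hy
  have hdeg := deg_ge hn hN hy.2.1 hy.2.2 hy.1.2
  have hb00 := bs_pos t
  have hb := bs_le_half ht0
  have hterm : ∀ i ∈ (apSys n N).I.filter (fun i => y ∈ (apSys n N).A i),
      1 / 2 ^ n / 6 ≤ (apSys n N).h (bs t) (Icc 1 N) ∅ i := by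
    intro i hi
    have hiI := (mem_filter.1 hi).1
    have hi' := mem_apI.1 (show (i.1, i.2) ∈ (apSys n N).I from hiI)
    have hs := (apSys_good n N).s_notMem i hiI
    have hA : (apSys n N).A i ⊆ Icc 1 N := by
      intro x hx
      have hx' : x ∈ prog n i.1 i.2 := hx
      rw [mem_prog] at hx'
      obtain ⟨k, hk, rfl⟩ := hx'
      rw [mem_Icc]
      refine ⟨by omega, ?_⟩
      have h1 : k * i.2 ≤ (n - 1) * i.2 := Nat.mul_le_mul_right _ (by omega)
      omega
    have hG : G (bs t) (Icc 1 N) ∅ ((apSys n N).A i) = bs t ^ n := by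
      unfold G
      rw [if_pos (by rw [union_empty]; exact hA), inter_eq_left.2 hA]
      congr 1
      exact card_prog hi'.2.1
    have hpow : 1 / 2 ^ n / 3 ≤ bs t ^ n := by
      unfold bs
      rw [div_pow, ← Real.exp_nat_mul]
      have h1 : Real.exp (-1) ≤ Real.exp ((n : ℝ) * -t) := by
        rw [Real.exp_le_exp]; linarith
      have h2 : (1 : ℝ) / 3 ≤ Real.exp (-1) := by
        have := Real.exp_one_lt_d9
        rw [Real.exp_neg, one_div]
        apply inv_anti₀ (Real.exp_pos _)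
        linarith
      have h3 : (1 : ℝ) / 2 ^ n / 3 = 1 / 3 / 2 ^ n := by ring
      rw [h3]
      exact div_le_div_of_nonneg_right (h2.trans h1) (by positivity)
    have hlow : (1 - bs t) * bs t ^ n ≥ 1 / 2 ^ n / 6 := by
      have h1 : (1 : ℝ) / 2 ≤ 1 - bs t := by linarith
      have h2 : (0 : ℝ) ≤ bs t ^ n := by positivity
      have := mul_le_mul_of_nonneg_right h1 h2
      linarith
    by_cases h1 : (apSys n N).s i ∈ Icc 1 N
    · rw [(apSys n N).h_of_free hs h1, hG]; exact hlow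
    · rw [(apSys n N).h_of_out h1 (notMem_empty _), hG]
      have h2 : (0 : ℝ) ≤ bs t ^ n := by positivity
      nlinarith
  calc (K : ℝ) / 64 / 2 ^ K * N * (1 / 2 ^ n / 6) ≤
      (((apSys n N).I.filter (fun i => y ∈ (apSys n N).A i)).card : ℝ) * (1 / 2 ^ n / 6) :=
        mul_le_mul_of_nonneg_right hdeg (by positivity)
    _ = ∑ i ∈ (apSys n N).I.filter (fun i => y ∈ (apSys n N).A i), (1 / 2 ^ n / 6 : ℝ) := by
        rw [sum_const, nsmul_eq_mul]
    _ ≤ _ := sum_le_sum hterm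

/-- Initial value of the potential. -/
theorem Pot_zero_le {n N K : ℕ} (hn : 2 ≤ n) (hN : 2 ^ (2 * K + 10) * n ≤ N) {t : ℝ}
    (ht0 : 0 ≤ t) (ht : t * n ≤ 1) {L k1 k7 s0 : ℝ} (hL : 0 ≤ L) (hk1 : 0 ≤ k1) (hk7 : 0 ≤ k7)
    (hs0 : s0 ≤ (K : ℝ) / 64 / 2 ^ K * N * (1 / 2 ^ n / 6)) :
    (apSys n N).Pot (centres N K) L k1 k7 (bs t) (Icc 1 N) ∅ ≤
      N * Real.exp (-(L * s0)) + k1 * (32 * (N : ℝ) ^ 2 * (n + 1) ^ 4 / 2 ^ (n + n / 2)) +
        k7 * (512 * (N : ℝ) ^ 4 / 2 ^ (3 * n)) := by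
  have hb00 := bs_pos t
  have hb := bs_le_half ht0
  unfold Sys.Pot
  refine add_le_add (add_le_add ?_ ?_) ?_
  · unfold Sys.Z
    calc ∑ y ∈ Icc 1 N ∩ centres N K, Real.exp (-(L * (apSys n N).Sv (bs t) (Icc 1 N) ∅ y))
        ≤ ∑ y ∈ Icc 1 N ∩ centres N K, Real.exp (-(L * s0)) := by
          refine sum_le_sum fun y hy => ?_
          rw [Real.exp_le_exp]
          have h1 := Sv_zero_ge hn hN ht0 ht (mem_inter.1 hy).2
          have := mul_le_mul_of_nonneg_left (hs0.trans h1) hL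
          linarith
      _ = ((Icc 1 N ∩ centres N K).card : ℝ) * Real.exp (-(L * s0)) := by
          rw [sum_const, nsmul_eq_mul]
      _ ≤ N * Real.exp (-(L * s0)) := by
          refine mul_le_mul_of_nonneg_right ?_ (Real.exp_pos _).le
          exact_mod_cast (card_le_card inter_subset_right).trans (card_centres_le N K)
  · exact mul_le_mul_of_nonneg_left (P_zero_le hn hb00.le hb) hk1
  · exact mul_le_mul_of_nonneg_left (Q_zero_le hn hb00.le hb) hk7

end Pool.Agent.H23.VW
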