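import Mathlib
import Pool.Agent.H23.VW.Bounds1

/-!
# The late phase: base `1/2`, loss at most `5` per round
-/

set_option autoImplicit false

namespace Pool.Agent.H23.VW

open Finset

namespace Sys

variable {ι : Type} (S : Sys ι)

/-- Pairs of windows of different directions with at least two common points. -/
def PL : Finset (ι × ι) :=
  (S.I ×ˢ S.I).filter (fun p => S.dir p.1 ≠ S.dir p.2 ∧ 2 ≤ (S.A p.1 ∩ S.A p.2).card)

/-- The functional of the late phase. -/
noncomputable def Rl (F M : Finset ℕ) : ℝ :=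
  ∑ i ∈ S.I, S.h (1 / 2) F M i - ∑ p ∈ S.PL, G (1 / 2) F M (S.A p.1 ∪ S.A p.2)

/-- Its part at `x`. -/
noncomputable def Rlx (F M : Finset ℕ) (x : ℕ) : ℝ :=
  ∑ i ∈ S.I, (Gx (1 / 2) F M (S.A i) x - Gx (1 / 2) F M (S.Ap i) x) -
    ∑ p ∈ S.PL, Gx (1 / 2) F M (S.A p.1 ∪ S.A p.2) x

/-- Its part at `u` and `v`. -/
noncomputable def Rlxx (F M : Finset ℕ) (u v : ℕ) : ℝ :=
  ∑ i ∈ S.I, ((if u ∈ S.A i then Gx (1 / 2) F M (S.A i) v else 0) -
      (if u ∈ S.Ap i then Gx (1 / 2) F M (S.Ap i) v else 0)) -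
    ∑ p ∈ S.PL, (if u ∈ S.A p.1 ∪ S.A p.2 then Gx (1 / 2) F M (S.A p.1 ∪ S.A p.2) v else 0)

theorem Rl_round {F M : Finset ℕ} (hFM : Disjoint F M) {u v : ℕ}
    (hv : v ∈ F) (hu : u ∈ F.erase v) :
    S.Rl ((F.erase v).erase u) (insert v M) =
      S.Rl F M + S.Rlx F M v - S.Rlxx F M u v - S.Rlx F M u := by
  unfold Rl Rlx Rlxx
  have hb : (1 / 2 : ℝ) ≠ 0 := by norm_num
  have e1 : ∑ i ∈ S.I, S.h (1 / 2) ((F.erase v).erase u) (insert v M) i =
      ∑ i ∈ S.I, S.h (1 / 2) F M i +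
      ∑ i ∈ S.I, (Gx (1 / 2) F M (S.A i) v - Gx (1 / 2) F M (S.Ap i) v) -
      ∑ i ∈ S.I, ((if u ∈ S.A i then Gx (1 / 2) F M (S.A i) v else 0) -
      (if u ∈ S.Ap i then Gx (1 / 2) F M (S.Ap i) v else 0)) -
      ∑ i ∈ S.I, (Gx (1 / 2) F M (S.A i) u - Gx (1 / 2) F M (S.Ap i) u) := by
    rw [← sum_add_distrib, ← sum_sub_distrib, ← sum_sub_distrib]
    refine sum_congr rfl fun i _ => ?_
    unfold h
    rw [G_round hb hFM hv hu, G_round hb hFM hv hu]
    ring
  have e2 : ∑ p ∈ S.PL, G (1 / 2) ((F.erase v).erase u) (insert v M) (S.A p.1 ∪ S.A p.2) =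
      ∑ p ∈ S.PL, G (1 / 2) F M (S.A p.1 ∪ S.A p.2) +
      ∑ p ∈ S.PL, Gx (1 / 2) F M (S.A p.1 ∪ S.A p.2) v -
      ∑ p ∈ S.PL, (if u ∈ S.A p.1 ∪ S.A p.2 then
        Gx (1 / 2) F M (S.A p.1 ∪ S.A p.2) v else 0) -
      ∑ p ∈ S.PL, Gx (1 / 2) F M (S.A p.1 ∪ S.A p.2) u := by
    rw [← sum_add_distrib, ← sum_sub_distrib, ← sum_sub_distrib]
    refine sum_congr rfl fun i _ => ?_
    rw [G_round hb hFM hv hu]
    ring
  rw [e1, e2]
  ring

theorem Rlxx_le {n : ℕ} (hg : S.Good n) {F M : Finset ℕ} (hFM : Disjoint F M) {u v : ℕ}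
    (hu : u ∈ F) (hv : v ∈ F) (huv : u ≠ v) : S.Rlxx F M u v ≤ 5 := by
  have hb0 : (0 : ℝ) ≤ 1 / 2 := by norm_num
  have hb : (1 / 2 : ℝ) ≤ 1 / 2 := le_rfl
  have hb1 : (1 / 2 : ℝ) ≤ 1 := by norm_num
  set I' := S.I.filter (fun i => u ∈ S.A i ∧ v ∈ S.A i) with hI'
  have hI'sub : I' ⊆ S.I := filter_subset _ _
  have hmemu : ∀ i ∈ I', u ∈ S.A i := fun i hi => (mem_filter.1 hi).2.1
  have hmemv : ∀ i ∈ I', v ∈ S.A i := fun i hi => (mem_filter.1 hi).2.2
  have hhn : ∀ i, 0 ≤ S.h (1 / 2) F M i := fun i => S.h_nonneg hb0 hb1 F M i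
  set X := ∑ i ∈ I', S.h (1 / 2) F M i with hX
  set T := (I' ×ˢ I').filter (fun p => S.dir p.1 ≠ S.dir p.2) with hT
  set P2 := ∑ p ∈ T, S.h (1 / 2) F M p.1 * S.h (1 / 2) F M p.2 with hP2
  have h1 : ∑ i ∈ S.I, ((if u ∈ S.A i then Gx (1 / 2) F M (S.A i) v else 0) -
      (if u ∈ S.Ap i then Gx (1 / 2) F M (S.Ap i) v else 0)) ≤ X := by
    rw [hX, hI', sum_filter]
    refine sum_le_sum fun i _ => ?_
    have hG := G_nonneg hb0 F M (S.Ap i)
    unfold Gx
    by_cases h : u ∈ S.A i ∧ v ∈ S.A i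
    · rw [if_pos h, if_pos h.1, if_pos h.2, if_pos (S.A_subset_Ap i h.1),
        if_pos (S.A_subset_Ap i h.2)]
      exact le_rfl
    · rw [if_neg h]
      have e : (if u ∈ S.A i then (if v ∈ S.A i then G (1 / 2) F M (S.A i) else 0) else 0) =
          0 := by
        by_cases h1 : u ∈ S.A i
        · rw [if_pos h1, if_neg (fun hh => h ⟨h1, hh⟩)]
        · rw [if_neg h1]
      rw [e]
      split_ifs <;> linarith
  have h2 : P2 ≤ ∑ p ∈ S.PL, (if u ∈ S.A p.1 ∪ S.A p.2 then
      Gx (1 / 2) F M (S.A p.1 ∪ S.A p.2) v else 0) := by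
    have hsub : T ⊆ S.PL := by
      intro p hp
      rw [hT, mem_filter, mem_product] at hp
      unfold PL
      rw [mem_filter, mem_product]
      refine ⟨⟨hI'sub hp.1.1, hI'sub hp.1.2⟩, hp.2, ?_⟩
      have hs : ({u, v} : Finset ℕ) ⊆ S.A p.1 ∩ S.A p.2 := by
        intro z hz
        rw [mem_insert, mem_singleton] at hz
        rcases hz with rfl | rfl
        · exact mem_inter.2 ⟨hmemu _ hp.1.1, hmemu _ hp.1.2⟩
        · exact mem_inter.2 ⟨hmemv _ hp.1.1, hmemv _ hp.1.2⟩
      have := card_le_card hs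
      rwa [card_pair huv] at this
    refine le_trans ?_ (sum_le_sum_of_subset_of_nonneg hsub fun p _ _ => ?_)
    · refine sum_le_sum fun p hp => ?_
      rw [hT, mem_filter, mem_product] at hp
      unfold Gx
      rw [if_pos (mem_union_left _ (hmemu _ hp.1.1)),
        if_pos (mem_union_left _ (hmemv _ hp.1.1))]
      refine le_trans ?_ (G_mul_le hb0 hb1 F M _ _)
      exact mul_le_mul (S.h_le_G hb0 F M p.1) (S.h_le_G hb0 F M p.2) (hhn _)
        (G_nonneg hb0 _ _ _)
    · split_ifs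
      · exact Gx_nonneg hb0 _ _ _ _
      · exact le_rfl
  have h3 : X ^ 2 ≤ 5 / 2 * X + P2 := by
    have e : X ^ 2 = ∑ p ∈ I' ×ˢ I', S.h (1 / 2) F M p.1 * S.h (1 / 2) F M p.2 := by
      rw [hX, sq, sum_mul_sum, sum_product]
    have e2 : ∑ p ∈ I' ×ˢ I', S.h (1 / 2) F M p.1 * S.h (1 / 2) F M p.2 =
        ∑ p ∈ I' ×ˢ I', (if S.dir p.1 = S.dir p.2 then
          S.h (1 / 2) F M p.1 * S.h (1 / 2) F M p.2 else 0) + P2 := by
      rw [hP2, hT, sum_filter, ← sum_add_distrib]
      refine sum_congr rfl fun p _ => ?_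
      by_cases hd : S.dir p.1 = S.dir p.2 <;> simp [hd]
    rw [e, e2]
    refine add_le_add ?_ le_rfl
    rw [sum_product, hX, mul_sum]
    refine sum_le_sum fun i hi => ?_
    have h4 : ∑ j ∈ I', (if S.dir i = S.dir j then
        S.h (1 / 2) F M i * S.h (1 / 2) F M j else 0) ≤
        S.h (1 / 2) F M i * ∑ j ∈ S.I.filter (fun j => S.dir j = S.dir i ∧ v ∈ S.Ap j),
          S.f F j * S.h (1 / 2) F M j := by
      rw [← sum_filter, mul_sum]
      have hsub2 : I'.filter (fun j => S.dir i = S.dir j) ⊆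
          S.I.filter (fun j => S.dir j = S.dir i ∧ v ∈ S.Ap j) := by
        intro j hj
        rw [mem_filter] at hj ⊢
        exact ⟨hI'sub hj.1, hj.2.symm, S.A_subset_Ap j (hmemv j hj.1)⟩
      refine le_trans ?_ (sum_le_sum_of_subset_of_nonneg hsub2 fun j _ _ =>
        mul_nonneg (hhn i) (mul_nonneg (S.f_nonneg F j) (hhn j)))
      refine sum_le_sum fun j hj => ?_
      have hj' := (mem_filter.1 hj).1
      have hf : (1 : ℝ) ≤ S.f F j := by
        unfold f
        exact_mod_cast card_pos.2 ⟨u, mem_inter.2 ⟨hmemu j hj', hu⟩⟩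
      refine mul_le_mul_of_nonneg_left ?_ (hhn i)
      have := hhn j
      nlinarith
    have h5 := hg.line (1 / 2) F M (by norm_num) hb hFM v hv (S.dir i)
    simp only
    refine h4.trans ?_
    have := mul_le_mul_of_nonneg_left h5 (hhn i)
    linarith
  unfold Rlxx
  nlinarith [sq_nonneg (X - 7 / 4)]

/-- The late phase: if the functional exceeds `5/2` times the number of free points then Maker
wins. -/
theorem late {n : ℕ} (hg : S.Good n) : ∀ (k : ℕ) (F M : Finset ℕ), F.card = k →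
    Disjoint F M → 5 / 2 * (F.card : ℝ) < S.Rl F M → MWin S.Wins F M := by
  have hb0 : (0 : ℝ) ≤ 1 / 2 := by norm_num
  have hb1 : (1 / 2 : ℝ) ≤ 1 := by norm_num
  intro k
  induction k using Nat.strong_induction_on with
  | _ k ih =>
    intro F M hk hFM hR
    by_cases h2 : F.card ≤ 1
    · have hpos : 0 < ∑ i ∈ S.I, S.h (1 / 2) F M i := by
        have h3 : 0 ≤ ∑ p ∈ S.PL, G (1 / 2) F M (S.A p.1 ∪ S.A p.2) :=
          sum_nonneg fun p _ => G_nonneg hb0 _ _ _
        have h4 : (0 : ℝ) ≤ (F.card : ℝ) := by positivity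
        unfold Rl at hR
        linarith
      obtain ⟨i, hi, hhi⟩ := exists_lt_of_sum_lt (s := S.I) (f := fun _ => (0:ℝ))
        (g := fun i => S.h (1 / 2) F M i) (by simpa using hpos)
      have hGi : 0 < G (1 / 2) F M (S.A i) := lt_of_lt_of_le hhi (S.h_le_G hb0 F M i)
      have hal : S.A i ⊆ F ∪ M := by
        by_contra hc
        unfold G at hGi
        rw [if_neg hc] at hGi
        exact lt_irrefl _ hGi
      by_cases hAM : S.A i ⊆ M
      · exact MWin.done _ _ ⟨i, hi, hAM⟩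
      · obtain ⟨v, hvA, hvM⟩ := not_subset.1 hAM
        have hvF : v ∈ F := (mem_union.1 (hal hvA)).resolve_right hvM
        have hF : F = {v} := by
          refine (eq_of_subset_of_card_le (singleton_subset_iff.2 hvF) ?_).symm
          rw [card_singleton]; exact h2
        have hFe : F.erase v = ∅ := by rw [hF]; simp
        refine MWin.step _ _ v hvF ?_ ?_
        · intro u hu
          rw [hFe] at hu
          exact absurd hu (notMem_empty _)
        · intro _
          refine ⟨i, hi, ?_⟩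
          intro x hx
          rcases mem_union.1 (hal hx) with h' | h'
          · rw [hF, mem_singleton] at h'
            exact mem_insert.2 (Or.inl h')
          · exact mem_insert_of_mem h'
    · push Not at h2
      have hne : F.Nonempty := card_pos.1 (by omega)
      obtain ⟨v, hv, hmax⟩ := exists_max_image F (fun x => S.Rlx F M x) hne
      refine MWin.step _ _ v hv ?_ ?_
      · intro u hu
        have huF : u ∈ F := mem_of_mem_erase hu
        have huv : u ≠ v := (mem_erase.1 hu).1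
        have hc : ((F.erase v).erase u).card = F.card - 2 := by
          rw [card_erase_of_mem hu, card_erase_of_mem hv]; omega
        refine ih (F.card - 2) (by omega) _ _ hc ?_ ?_
        · rw [disjoint_left]
          intro x hx hx'
          rw [mem_erase, mem_erase] at hx
          rw [mem_insert] at hx'
          rcases hx' with h' | h'
          · exact hx.2.1 h'
          · exact (disjoint_left.1 hFM) hx.2.2 h'
        · rw [S.Rl_round hFM hv hu, hc]
          have h3 := hmax u huF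
          have h4 := S.Rlxx_le hg hFM huF hv huv
          have h5 : ((F.card - 2 : ℕ) : ℝ) = (F.card : ℝ) - 2 := by
            rw [Nat.cast_sub (by omega)]; norm_num
          rw [h5]
          linarith
      · intro he
        have : (F.erase v).card = 0 := by rw [he]; simp
        rw [card_erase_of_mem hv] at this
        omega

end Sys

end Pool.Agent.H23.VW
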