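import Mathlib
import Pool.Agent.H23.VW.RoundAsym
import Pool.Agent.H23.VW.Late

/-!
# The main phase by induction on the number of free points, and the switch
-/

set_option autoImplicit false

namespace Pool.Agent.H23.VW

open Finset

namespace Sys

variable {ι : Type} (S : Sys ι)

theorem main_induction {n N : ℕ} (V Y : Finset ℕ) {L k1 k7 e ρ η Q0 : ℝ}
    (hρN : 0 < ρ * N) (he : 0 ≤ e)
    (hround : ∀ F M : Finset ℕ, F ⊆ V → Disjoint F M → ¬ S.Wins M → ρ * N ≤ F.card →
      S.Pot Y L k1 k7 (bs (tm n N (F.card + 2))) F M ≤ N →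
      ∃ v ∈ F, ∀ u ∈ F.erase v,
        S.Pot Y L k1 k7 (bs (tm n N F.card)) ((F.erase v).erase u) (insert v M) ≤
          S.Pot Y L k1 k7 (bs (tm n N (F.card + 2))) F M + e)
    (hswitch : ∀ F M : Finset ℕ, F ⊆ V → Disjoint F M → ρ * N ≤ F.card →
      (F.card : ℝ) < ρ * N + 2 →
      S.Pot Y L k1 k7 (bs (tm n N (F.card + 2))) F M ≤ η * N → MWin S.Wins F M)
    (hη : η ≤ 1) (hQ0 : Q0 + N / 2 * e ≤ η * N) :
    ∀ (k : ℕ) (F M : Finset ℕ), F.card = k → F ⊆ V → Disjoint F M → ρ * N ≤ F.card →
      S.Pot Y L k1 k7 (bs (tm n N (F.card + 2))) F M ≤ Q0 + (N - F.card) / 2 * e →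
      MWin S.Wins F M := by
  intro k
  induction k using Nat.strong_induction_on with
  | _ k ih =>
    intro F M hk hFV hFM hF hPot
    by_cases hw : S.Wins M
    · exact MWin.done _ _ hw
    · have hle : S.Pot Y L k1 k7 (bs (tm n N (F.card + 2))) F M ≤ η * N := by
        have h1 : ((N : ℝ) - F.card) / 2 * e ≤ N / 2 * e := by
          refine mul_le_mul_of_nonneg_right ?_ he
          have : (0 : ℝ) ≤ F.card := by positivity
          linarith
        linarith
      by_cases hsmall : (F.card : ℝ) < ρ * N + 2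
      · exact hswitch F M hFV hFM hF hsmall hle
      · push Not at hsmall
        have hN0 : (0 : ℝ) ≤ N := by positivity
        have hleN : S.Pot Y L k1 k7 (bs (tm n N (F.card + 2))) F M ≤ N :=
          hle.trans (by nlinarith)
        obtain ⟨v, hv, hvu⟩ := hround F M hFV hFM hw hF hleN
        have hc2 : 2 < F.card := by
          have : (2 : ℝ) < F.card := by linarith
          exact_mod_cast this
        refine MWin.step _ _ v hv ?_ ?_
        · intro u hu
          have hc : ((F.erase v).erase u).card = F.card - 2 := by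
            rw [card_erase_of_mem hu, card_erase_of_mem hv]; omega
          have hcR : ((F.card - 2 : ℕ) : ℝ) = (F.card : ℝ) - 2 := by
            rw [Nat.cast_sub (by omega)]; norm_num
          refine ih (F.card - 2) (by omega) _ _ hc ?_ ?_ ?_ ?_
          · exact ((erase_subset _ _).trans (erase_subset _ _)).trans hFV
          · rw [disjoint_left]
            intro x hx hx'
            rw [mem_erase, mem_erase] at hx
            rw [mem_insert] at hx'
            rcases hx' with h' | h'
            · exact hx.2.1 h'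
            · exact (disjoint_left.1 hFM) hx.2.2 h'
          · rw [hc, hcR]; linarith
          · have h2 : F.card - 2 + 2 = F.card := by omega
            rw [hc, h2, hcR]
            have := hvu u hu
            linarith
        · intro hem
          have : (F.erase v).card = 0 := by rw [hem]; simp
          rw [card_erase_of_mem hv] at this
          omega

/-- Comparison of the values at the two bases. -/
theorem f_mul_h_le {n : ℕ} (hg : S.Good n) {t : ℝ} (ht0 : 0 ≤ t) (ht : t ≤ 1 / 3)
    {F M : Finset ℕ} (hFM : Disjoint F M) {i : ι} (hi : i ∈ S.I) :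
    t * (S.f F i * S.h (bs t) F M i) ≤ S.h (1 / 2) F M i := by
  have hb00 := bs_pos t
  have hb0 := third_le_bs ht
  have hb := bs_le_half ht0
  have hs := hg.s_notMem i hi
  have hf0 := S.f_nonneg F i
  have hG := G_nonneg hb00.le F M (S.A i)
  have e0 : bs 0 = 1 / 2 := by unfold bs; simp
  have hGG : G (1 / 2) F M (S.A i) = G (bs t) F M (S.A i) * Real.exp (t * S.f F i) := by
    rw [← e0, G_bs 0 t]
    unfold f
    simp
  have hx0 : 0 ≤ t * S.f F i := mul_nonneg ht0 hf0
  have hexp : 2 * (t * S.f F i) ≤ Real.exp (t * S.f F i) := by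
    have h1 := Real.add_one_le_exp (t * S.f F i / 2)
    have h2 : Real.exp (t * S.f F i) =
        Real.exp (t * S.f F i / 2) * Real.exp (t * S.f F i / 2) := by
      rw [← Real.exp_add]; congr 1; ring
    have h3 := mul_self_le_mul_self (by linarith : 0 ≤ t * S.f F i / 2 + 1) h1
    rw [h2]
    nlinarith [sq_nonneg (t * S.f F i / 2 - 1)]
  by_cases h1 : S.s i ∈ F
  · rw [S.h_of_free hs h1, S.h_of_free hs h1, hGG]
    have h2 : t * S.f F i * (1 - bs t) ≤ (1 - 1 / 2) * Real.exp (t * S.f F i) := by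
      have : t * S.f F i * (1 - bs t) ≤ t * S.f F i * 1 :=
        mul_le_mul_of_nonneg_left (by linarith) hx0
      linarith
    have h3 := mul_le_mul_of_nonneg_right h2 hG
    linarith
  · by_cases h2 : S.s i ∈ M
    · rw [S.h_of_maker hFM h2, S.h_of_maker hFM h2]; simp
    · rw [S.h_of_out h1 h2, S.h_of_out h1 h2, hGG]
      have h3 : t * S.f F i ≤ Real.exp (t * S.f F i) := by linarith
      have h4 := mul_le_mul_of_nonneg_right h3 hG
      linarith

theorem switch_win {n N : ℕ} (hg : S.Good n) (V Y : Finset ℕ) {L s0 k1 k7 ρ η : ℝ}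
    (hn : 1 ≤ n) (hL : 0 ≤ L) (hk1 : 0 < k1) (hk7 : 0 ≤ k7) (hρ : 0 < ρ)
    (hYV : ((V \ Y).card : ℝ) ≤ ρ * N / 4) (hρN : 5 ≤ ρ * N) (hρn : 3 ≤ ρ * n)
    (hbad : Real.exp (L * s0 / 2) * η ≤ ρ / 8) (hs0 : 32 * ρ * n ≤ s0)
    (hP : Real.exp (2 / ρ) * η ≤ ρ / 4 * k1)
    {F M : Finset ℕ} (hFV : F ⊆ V) (hFM : Disjoint F M) (hF1 : ρ * N ≤ F.card)
    (hF2 : (F.card : ℝ) < ρ * N + 2)
    (hPot : S.Pot Y L k1 k7 (bs (tm n N (F.card + 2))) F M ≤ η * N) :
    MWin S.Wins F M := by
  refine S.late hg _ F M rfl hFM ?_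
  have hnp : (0 : ℝ) < n := by exact_mod_cast hn
  have hNp : (0 : ℝ) < N := by
    by_contra hc
    push Not at hc
    nlinarith
  set t := tm n N (F.card + 2) with ht
  have ht' : t = N / (n * (F.card + 2)) := by rw [ht]; unfold tm; push_cast; rfl
  have ht0 : 0 ≤ t := tm_nonneg _ _ _
  have hFp : (0 : ℝ) < F.card := by linarith
  have htρ : t * n ≤ 1 / ρ := by
    rw [ht', div_mul_eq_mul_div, div_le_div_iff₀ (by positivity) hρ]
    have : ρ * N ≤ F.card + 2 := by linarith
    have := mul_le_mul_of_nonneg_left this hnp.le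
    linarith
  have ht3 : t ≤ 1 / 3 := by
    have h1 : t * (ρ * n) ≤ 1 := by
      have := mul_le_mul_of_nonneg_right htρ hρ.le
      rw [one_div, inv_mul_cancel₀ hρ.ne'] at this
      linarith
    have h2 := mul_le_mul_of_nonneg_left hρn ht0
    linarith
  have htl : 1 ≤ 2 * ρ * n * t := by
    rw [ht', mul_div_assoc', le_div_iff₀ (by positivity)]
    have : (F.card : ℝ) + 2 ≤ 2 * ρ * N := by linarith
    have := mul_le_mul_of_nonneg_left this hnp.le
    linarith
  have hb00 := bs_pos t
  have hb := bs_le_half ht0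
  have hb1 : bs t ≤ 1 := by linarith
  -- the two parts of the potential
  have hZ0 : 0 ≤ S.Z Y L (bs t) F M := sum_nonneg fun y _ => (Real.exp_pos _).le
  have hP0 := S.P_nonneg hb00.le F M
  have hQ0 := S.Q_nonneg hb00.le F M
  have hk1P := mul_nonneg hk1.le hP0
  have hk7Q := mul_nonneg hk7 hQ0
  have hZ : S.Z Y L (bs t) F M ≤ η * N := by unfold Pot at hPot; linarith
  have hPP : k1 * S.P (bs t) F M ≤ η * N := by unfold Pot at hPot; linarith
  -- good centres
  set Gd := (F ∩ Y).filter (fun y => s0 / 2 ≤ S.Sv (bs t) F M y) with hGd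
  set Bd := (F ∩ Y).filter (fun y => ¬ s0 / 2 ≤ S.Sv (bs t) F M y) with hBd
  have hsplit : Gd.card + Bd.card = (F ∩ Y).card := card_filter_add_card_filter_not _
  have hFY : F.card ≤ (F ∩ Y).card + (V \ Y).card := by
    have h1 : F ⊆ (F ∩ Y) ∪ (V \ Y) := by
      intro x hx
      by_cases hxY : x ∈ Y
      · exact mem_union_left _ (mem_inter.2 ⟨hx, hxY⟩)
      · exact mem_union_right _ (mem_sdiff.2 ⟨hFV hx, hxY⟩)
    exact (card_le_card h1).trans (card_union_le _ _)
  have hBdc : (Bd.card : ℝ) ≤ ρ * N / 8 := by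
    have h1 : (Bd.card : ℝ) * Real.exp (-(L * s0 / 2)) ≤ S.Z Y L (bs t) F M := by
      unfold Z
      calc (Bd.card : ℝ) * Real.exp (-(L * s0 / 2)) =
          ∑ y ∈ Bd, Real.exp (-(L * s0 / 2)) := by rw [sum_const, nsmul_eq_mul]
        _ ≤ ∑ y ∈ Bd, Real.exp (-(L * S.Sv (bs t) F M y)) := by
            refine sum_le_sum fun y hy => ?_
            rw [Real.exp_le_exp]
            have h2 := (mem_filter.1 hy).2
            push Not at h2
            have := mul_le_mul_of_nonneg_left h2.le hL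
            linarith
        _ ≤ ∑ y ∈ F ∩ Y, Real.exp (-(L * S.Sv (bs t) F M y)) :=
            sum_le_sum_of_subset_of_nonneg (filter_subset _ _) fun _ _ _ =>
              (Real.exp_pos _).le
    have h2 : (Bd.card : ℝ) = Real.exp (L * s0 / 2) *
        ((Bd.card : ℝ) * Real.exp (-(L * s0 / 2))) := by
      have : Real.exp (L * s0 / 2) * Real.exp (-(L * s0 / 2)) = 1 := by
        rw [← Real.exp_add]; simp
      calc (Bd.card : ℝ) = (Real.exp (L * s0 / 2) * Real.exp (-(L * s0 / 2))) * Bd.card := by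
            rw [this, one_mul]
        _ = _ := by ring
    rw [h2]
    calc Real.exp (L * s0 / 2) * ((Bd.card : ℝ) * Real.exp (-(L * s0 / 2))) ≤
        Real.exp (L * s0 / 2) * (η * N) :=
          mul_le_mul_of_nonneg_left (h1.trans hZ) (Real.exp_pos _).le
      _ = (Real.exp (L * s0 / 2) * η) * N := by ring
      _ ≤ (ρ / 8) * N := mul_le_mul_of_nonneg_right hbad hNp.le
      _ = ρ * N / 8 := by ring
  have hGdc : ρ * N / 2 ≤ (Gd.card : ℝ) := by
    have h1 : (F.card : ℝ) ≤ ((F ∩ Y).card : ℝ) + ((V \ Y).card : ℝ) := by exact_mod_cast hFY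
    have h2 : (Gd.card : ℝ) + (Bd.card : ℝ) = ((F ∩ Y).card : ℝ) := by exact_mod_cast hsplit
    linarith
  have hs0' : 0 ≤ s0 := le_trans (by positivity) hs0
  have hsumS : ρ * N / 2 * (s0 / 2) ≤ ∑ i ∈ S.I, S.f F i * S.h (bs t) F M i := by
    have h1 := S.sum_centres_le (F := F) (F' := Gd)
      ((filter_subset _ _).trans inter_subset_left) S.I (fun i => S.h (bs t) F M i)
      (fun i _ => S.h_nonneg hb00.le hb1 F M i)
    refine le_trans ?_ h1
    calc ρ * N / 2 * (s0 / 2) ≤ (Gd.card : ℝ) * (s0 / 2) :=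
          mul_le_mul_of_nonneg_right hGdc (by linarith)
      _ = ∑ y ∈ Gd, (s0 / 2) := by rw [sum_const, nsmul_eq_mul]
      _ ≤ _ := sum_le_sum fun y hy => (mem_filter.1 hy).2
  have hsumh : t * (ρ * N / 2 * (s0 / 2)) ≤ ∑ i ∈ S.I, S.h (1 / 2) F M i := by
    refine (mul_le_mul_of_nonneg_left hsumS ht0).trans ?_
    rw [mul_sum]
    exact sum_le_sum fun i hi => S.f_mul_h_le hg ht0 ht3 hFM hi
  have hmain : 4 * ρ * N ≤ t * (ρ * N / 2 * (s0 / 2)) := by
    have h1 : t * (ρ * N / 2 * (32 * ρ * n / 2)) ≤ t * (ρ * N / 2 * (s0 / 2)) := by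
      refine mul_le_mul_of_nonneg_left ?_ ht0
      refine mul_le_mul_of_nonneg_left ?_ (by positivity)
      linarith
    have h2 : t * (ρ * N / 2 * (32 * ρ * n / 2)) = 4 * ρ * N * (2 * ρ * n * t) := by ring
    have h3 := mul_le_mul_of_nonneg_left htl (by positivity : 0 ≤ 4 * ρ * N)
    linarith
  -- the pair term
  have hpair : ∑ p ∈ S.PL, G (1 / 2) F M (S.A p.1 ∪ S.A p.2) ≤ ρ * N / 4 := by
    have e0 : bs 0 = 1 / 2 := by unfold bs; simp
    have h1 : ∑ p ∈ S.PL, G (1 / 2) F M (S.A p.1 ∪ S.A p.2) ≤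
        Real.exp (2 / ρ) * S.P (bs t) F M := by
      classical
      let φ : ι × ι → (ι × Bool) × (ι × Bool) := fun p => ((p.1, false), (p.2, false))
      have hφ : ∀ p ∈ S.PL, ∀ p' ∈ S.PL, φ p = φ p' → p = p' := by
        intro p _ p' _ h
        simp only [φ, Prod.mk.injEq, and_true] at h
        exact Prod.ext h.1 h.2
      have hsub : S.PL.image φ ⊆ S.PP := by
        intro q hq
        obtain ⟨p, hp, rfl⟩ := mem_image.1 hq
        unfold PL at hp
        rw [mem_filter, mem_product] at hp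
        unfold PP J
        rw [mem_filter]
        refine ⟨?_, hp.2.1, ?_⟩
        · simp only [φ, mem_product, mem_univ, and_true]
          exact hp.1
        · simpa [φ, U] using hp.2.2
      unfold P
      rw [mul_sum]
      calc ∑ p ∈ S.PL, G (1 / 2) F M (S.A p.1 ∪ S.A p.2)
          ≤ ∑ p ∈ S.PL, Real.exp (2 / ρ) * G (bs t) F M (S.U (φ p).1 ∪ S.U (φ p).2) := by
            refine sum_le_sum fun p hp => ?_
            unfold PL at hp
            rw [mem_filter, mem_product] at hp
            have e1 : S.U (φ p).1 ∪ S.U (φ p).2 = S.A p.1 ∪ S.A p.2 := by simp [φ, U]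
            rw [e1, ← e0, G_bs 0 t, mul_comm]
            refine mul_le_mul_of_nonneg_right ?_ (G_nonneg hb00.le _ _ _)
            rw [Real.exp_le_exp, sub_zero]
            have h2 : (((S.A p.1 ∪ S.A p.2) ∩ F).card : ℝ) ≤ 2 * n := by
              have h3 := hg.card_le p.1 hp.1.1
              have h4 := hg.card_le p.2 hp.1.2
              have h5 : ((S.A p.1 ∪ S.A p.2) ∩ F).card ≤ 2 * n := by
                refine (card_le_card inter_subset_left).trans ((card_union_le _ _).trans ?_)
                omega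
              exact_mod_cast h5
            have h6 := mul_le_mul_of_nonneg_left h2 ht0
            have h7 : 2 / ρ = 2 * (1 / ρ) := by ring
            rw [h7]
            linarith
        _ = ∑ q ∈ S.PL.image φ, Real.exp (2 / ρ) * G (bs t) F M (S.U q.1 ∪ S.U q.2) := by
            rw [sum_image hφ]
        _ ≤ _ := sum_le_sum_of_subset_of_nonneg hsub fun q _ _ =>
            mul_nonneg (Real.exp_pos _).le (G_nonneg hb00.le _ _ _)
    have h2 : k1 * (Real.exp (2 / ρ) * S.P (bs t) F M) ≤ k1 * (ρ * N / 4) := by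
      calc k1 * (Real.exp (2 / ρ) * S.P (bs t) F M) =
          Real.exp (2 / ρ) * (k1 * S.P (bs t) F M) := by ring
        _ ≤ Real.exp (2 / ρ) * (η * N) := mul_le_mul_of_nonneg_left hPP (Real.exp_pos _).le
        _ = (Real.exp (2 / ρ) * η) * N := by ring
        _ ≤ (ρ / 4 * k1) * N := mul_le_mul_of_nonneg_right hP hNp.le
        _ = k1 * (ρ * N / 4) := by ring
    exact h1.trans (le_of_mul_le_mul_left h2 hk1)
  unfold Rl
  linarith

end Sys

end Pool.Agent.H23.VW
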