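import Mathlib
import Pool.Agent.H23.VW.MainInd
import Pool.Agent.H23.VW.Initial
import Pool.Agent.H23.VW.Growth
import Pool.Agent.H23.VW.Game

/-!
# Maker wins on `{1, ..., ⌈δ n 2^n⌉}` for every `δ > 0` and all large `n`
-/

set_option autoImplicit false

namespace Pool.Agent.H23.VW

open Finset

theorem game_upper {δ : ℝ} (hδ : 0 < δ) : ∃ n0 : ℕ, ∀ n : ℕ, n0 ≤ n →
    MWin (apSys n ⌈δ * n * 2 ^ n⌉₊).Wins (Icc 1 ⌈δ * n * 2 ^ n⌉₊) ∅ := by
  -- the parameters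
  obtain ⟨K, hKδ, hKpos'⟩ : ∃ K : ℕ, 12288 ≤ (K : ℝ) * δ ∧ 0 < K := by
    refine ⟨⌈12288 / δ⌉₊ + 1, ?_, by omega⟩
    have h1 : 12288 / δ ≤ (⌈12288 / δ⌉₊ : ℝ) := Nat.le_ceil _
    rw [div_le_iff₀ hδ] at h1
    push_cast
    linarith
  set ρ : ℝ := 1 / 2 ^ K with hρ'
  have hρ : 0 < ρ := by positivity
  have hρ1 : ρ ≤ 1 := by
    rw [hρ', div_le_one (by positivity)]
    exact one_le_pow₀ (by norm_num)
  have hKpos : (0 : ℝ) < K := by exact_mod_cast hKpos'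
  set σ : ℝ := K * δ * ρ / 384 with hσ'
  have hσ : 0 < σ := by positivity
  have hσρ : 32 * ρ ≤ σ := by
    rw [hσ', le_div_iff₀ (by norm_num)]
    have := mul_le_mul_of_nonneg_right hKδ hρ.le
    linarith
  set lam : ℝ := 2 * Real.log (16 / ρ) with hlam'
  have h16 : 1 ≤ 16 / ρ := by
    rw [le_div_iff₀ hρ]; linarith
  have hlam : 0 ≤ lam := by
    rw [hlam']
    have := Real.log_nonneg h16
    linarith
  have hexp2 : Real.exp (lam / 2) = 16 / ρ := by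
    rw [hlam', mul_div_cancel_left₀ _ (by norm_num : (2:ℝ) ≠ 0), Real.exp_log (by positivity)]
  have hexpn : Real.exp (-lam) = ρ ^ 2 / 256 := by
    have h1 : Real.exp (-lam) = (Real.exp (lam / 2) ^ 2)⁻¹ := by
      rw [← Real.exp_nat_mul, ← Real.exp_neg]; congr 1; push_cast; ring
    rw [h1, hexp2, div_pow]
    field_simp
    norm_num
  set l : ℝ := lam / σ with hl'
  have hl : 0 ≤ l := by positivity
  set q0 : ℝ := ρ ^ 2 / 1024 with hq0'
  set k : ℝ := q0 / (4096 * δ ^ 3) with hk'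
  have hk : 0 < k := by positivity
  set e : ℝ := ρ ^ 2 / 512 with he'
  have he : 0 < e := by positivity
  set η : ℝ := ρ ^ 2 / 128 with hη'
  have hη0 : 0 ≤ η := by positivity
  -- largeness of n
  obtain ⟨n1, hn1⟩ := round_asym (ρ := ρ) (l := l) (k := k) (e := e) hρ hl hk he
  obtain ⟨n2, hn2⟩ := growth_one ((1 + 2 ^ (2 * K + 10)) / δ)
  obtain ⟨n3, hn3⟩ := growth_two (64 * δ * 1024 / ρ ^ 2) (by positivity)
  obtain ⟨n4, hn4⟩ := exists_nat_ge (2 + 3 / ρ + Real.exp (2 / ρ) * η / (ρ / 4))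
  refine ⟨max (max n1 n2) (max n3 n4), fun n hn => ?_⟩
  have hnn1 : n1 ≤ n := ((le_max_left _ _).trans (le_max_left _ _)).trans hn
  have hnn2 : n2 ≤ n := ((le_max_right _ _).trans (le_max_left _ _)).trans hn
  have hnn3 : n3 ≤ n := ((le_max_left _ _).trans (le_max_right _ _)).trans hn
  have hnn4 : n4 ≤ n := ((le_max_right _ _).trans (le_max_right _ _)).trans hn
  have G2 := hn2 n hnn2
  have G3 := hn3 n hnn3
  have G4 : 2 + 3 / ρ + Real.exp (2 / ρ) * η / (ρ / 4) ≤ (n : ℝ) :=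
    hn4.trans (by exact_mod_cast hnn4)
  have g1 : 0 ≤ 3 / ρ := by positivity
  have g2 : 0 ≤ Real.exp (2 / ρ) * η / (ρ / 4) :=
    div_nonneg (mul_nonneg (Real.exp_pos _).le hη0) (by positivity)
  have hnR2 : (2 : ℝ) ≤ n := by linarith
  have hn2' : 2 ≤ n := by exact_mod_cast hnR2
  have hnp : (0 : ℝ) < n := by linarith
  set N : ℕ := ⌈δ * n * 2 ^ n⌉₊ with hN'
  have hNlow : δ * n * 2 ^ n ≤ N := Nat.le_ceil _
  have hδ2 : 1 + 2 ^ (2 * K + 10) ≤ δ * 2 ^ n := by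
    rw [div_le_iff₀ hδ] at G2; linarith
  have hone : 1 ≤ δ * n * 2 ^ n := by
    have h1 : (0:ℝ) ≤ 2 ^ (2 * K + 10) := by positivity
    have h2 : 1 ≤ δ * 2 ^ n := by linarith
    have h3 : (1:ℝ) ≤ n := by linarith
    have h4 := one_le_mul_of_one_le_of_one_le h2 h3
    linarith
  have hNup : (N : ℝ) ≤ 2 * (δ * n * 2 ^ n) := by
    have := (Nat.ceil_lt_add_one (by positivity : 0 ≤ δ * n * 2 ^ n)).le
    rw [← hN'] at this
    linarith
  have hNK : ((2 ^ (2 * K + 10) * n : ℕ) : ℝ) ≤ N := by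
    push_cast
    have h1 : (2:ℝ) ^ (2 * K + 10) ≤ δ * 2 ^ n := by linarith
    have := mul_le_mul_of_nonneg_right h1 hnp.le
    linarith
  have hNKn : 2 ^ (2 * K + 10) * n ≤ N := by exact_mod_cast hNK
  have hnN : n ≤ N := by
    refine le_trans ?_ hNKn
    exact Nat.le_mul_of_pos_left n (by positivity)
  have hNp : (0 : ℝ) < N := by
    have : (n : ℝ) ≤ N := by exact_mod_cast hnN
    linarith
  have hρN : 5 ≤ ρ * N := by
    have h1 : (2:ℝ) ^ (2 * K + 10) ≤ N := by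
      push_cast at hNK
      have : (2:ℝ) ^ (2 * K + 10) * 1 ≤ 2 ^ (2 * K + 10) * n :=
        mul_le_mul_of_nonneg_left (by linarith) (by positivity)
      linarith
    have h2 : ρ * 2 ^ (2 * K + 10) = 2 ^ (K + 10) := by
      rw [hρ', show 2 * K + 10 = K + (K + 10) by ring, pow_add]; field_simp
    have h3 := mul_le_mul_of_nonneg_left h1 hρ.le
    rw [h2] at h3
    have h4 : (2:ℝ) ^ 10 ≤ 2 ^ (K + 10) := pow_le_pow_right₀ (by norm_num) (by omega)
    linarith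
  have hρn : 3 ≤ ρ * n := by
    have : 3 / ρ ≤ n := by linarith
    rw [div_le_iff₀ hρ] at this
    linarith
  -- the system
  set S := apSys n N with hS
  have hg : S.Good n := apSys_good n N
  set Y := centres N K with hY
  set k1 : ℝ := (n : ℝ) ^ 7 with hk1'
  have hn1R : (1:ℝ) ≤ n := by linarith
  have hk1 : (n : ℝ) ^ 6 ≤ k1 := pow_le_pow_right₀ hn1R (by norm_num)
  have hk1p : 0 < k1 := by positivity
  have hk1n : (n : ℝ) ≤ k1 := by
    calc (n : ℝ) = n ^ 1 := (pow_one _).symm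
      _ ≤ n ^ 7 := pow_le_pow_right₀ hn1R (by norm_num)
  have hL : 0 ≤ l / n := by positivity
  have hk7 : 0 ≤ k / (n : ℝ) ^ 3 := by positivity
  have hLs : l / n * (σ * n) = lam := by
    rw [hl']; field_simp
  -- initial value
  set t := tm n N (N + 2) with ht
  have ht0 : 0 ≤ t := tm_nonneg _ _ _
  have htn : t * n ≤ 1 := by
    have : t = N / (n * (N + 2)) := by rw [ht]; unfold tm; push_cast; rfl
    rw [this, div_mul_eq_mul_div, div_le_one (by positivity)]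
    linarith
  have hs0 : σ * n ≤ (K : ℝ) / 64 / 2 ^ K * N * (1 / 2 ^ n / 6) := by
    have h1 : (K : ℝ) / 64 / 2 ^ K * (δ * n * 2 ^ n) * (1 / 2 ^ n / 6) ≤
        (K : ℝ) / 64 / 2 ^ K * N * (1 / 2 ^ n / 6) := by
      refine mul_le_mul_of_nonneg_right ?_ (by positivity)
      exact mul_le_mul_of_nonneg_left hNlow (by positivity)
    have h2 : (K : ℝ) / 64 / 2 ^ K * (δ * n * 2 ^ n) * (1 / 2 ^ n / 6) = σ * n := by
      rw [hσ', hρ']; field_simp; norm_num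
    linarith
  have hpot := Pot_zero_le (k1 := k1) (k7 := k / n ^ 3) hn2' hNKn ht0 htn hL hk1p.le hk7 hs0
  rw [hLs, hexpn] at hpot
  have hterm1 : k1 * (32 * (N : ℝ) ^ 2 * (n + 1) ^ 4 / 2 ^ (n + n / 2)) ≤ q0 * N := by
    have h1 : 64 * δ * n ^ 8 * (n + 1) ^ 4 ≤ q0 * 2 ^ (n / 2) := by
      have h2 := mul_le_mul_of_nonneg_left G3 (by positivity : 0 ≤ q0)
      have h3 : q0 * (64 * δ * 1024 / ρ ^ 2 * (n : ℝ) ^ 8 * (n + 1) ^ 4) =
          64 * δ * n ^ 8 * (n + 1) ^ 4 := by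
        rw [hq0']; field_simp
      linarith
    rw [mul_div_assoc', div_le_iff₀ (by positivity), pow_add]
    have h4 : k1 * (32 * (N : ℝ) ^ 2 * (n + 1) ^ 4) ≤
        32 * k1 * (n + 1) ^ 4 * N * (2 * (δ * n * 2 ^ n)) := by
      have := mul_le_mul_of_nonneg_left hNup
        (by positivity : (0:ℝ) ≤ 32 * k1 * (n + 1) ^ 4 * N)
      calc k1 * (32 * (N : ℝ) ^ 2 * (n + 1) ^ 4) = 32 * k1 * (n + 1) ^ 4 * N * N := by ring
        _ ≤ _ := this
    have h5 : 32 * k1 * ((n:ℝ) + 1) ^ 4 * N * (2 * (δ * n * 2 ^ n)) =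
        (64 * δ * n ^ 8 * (n + 1) ^ 4) * (N * 2 ^ n) := by rw [hk1']; ring
    have h6 := mul_le_mul_of_nonneg_right h1 (by positivity : (0:ℝ) ≤ N * 2 ^ n)
    calc _ ≤ 32 * k1 * (n + 1) ^ 4 * N * (2 * (δ * n * 2 ^ n)) := h4
      _ = (64 * δ * n ^ 8 * (n + 1) ^ 4) * (N * 2 ^ n) := h5
      _ ≤ q0 * 2 ^ (n / 2) * (N * 2 ^ n) := h6
      _ = _ := by ring
  have hterm2 : k / n ^ 3 * (512 * (N : ℝ) ^ 4 / 2 ^ (3 * n)) ≤ q0 * N := by
    have h1 : (N : ℝ) ^ 3 ≤ (2 * (δ * n * 2 ^ n)) ^ 3 := pow_le_pow_left₀ hNp.le hNup 3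
    have h2 : k / n ^ 3 * (512 * (N : ℝ) ^ 4 / 2 ^ (3 * n)) =
        512 * k / n ^ 3 * N / 2 ^ (3 * n) * N ^ 3 := by ring
    have h3 : 512 * k / n ^ 3 * N / 2 ^ (3 * n) * (2 * (δ * n * 2 ^ n)) ^ 3 = q0 * N := by
      have h4 : (2:ℝ) ^ (3 * n) = (2 ^ n) ^ 3 := by rw [mul_comm, pow_mul]
      rw [h4, hk']; field_simp; ring
    rw [h2, ← h3]
    exact mul_le_mul_of_nonneg_left h1 (by positivity)
  -- the induction
  refine S.main_induction (n := n) (N := N) (Icc 1 N) Y (L := l / n) (k1 := k1)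
    (k7 := k / n ^ 3) (e := e) (ρ := ρ) (η := η) (Q0 := N * (ρ ^ 2 / 256) + q0 * N + q0 * N)
    (by positivity) he.le ?_ ?_ ?_ ?_ N (Icc 1 N) ∅ ?_ (Subset.refl _)
    (disjoint_empty_right _) ?_ ?_
  · intro F M hFV hFM hnw hF hP
    exact hn1 n hnn1 N hnN k1 hk1 S hg (card_apI hn2') Y (card_centres_le N K) F M hFM hnw hF hP
  · intro F M hFV hFM hF1 hF2 hP
    refine S.switch_win hg (Icc 1 N) Y (s0 := σ * n) (by omega) hL hk1p hk7 hρ ?_ hρN hρn
      ?_ ?_ ?_ hFV hFM hF1 hF2 hP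
    · exact card_sdiff_centres_le N K
    · rw [hLs, hexp2, hη']
      have : 16 / ρ * (ρ ^ 2 / 128) = ρ / 8 := by field_simp; norm_num
      rw [this]
    · have := mul_le_mul_of_nonneg_right hσρ hnp.le
      linarith
    · have h1 : Real.exp (2 / ρ) * η / (ρ / 4) ≤ k1 := by linarith
      rw [div_le_iff₀ (by positivity)] at h1
      linarith
  · rw [hη', div_le_one (by norm_num)]
    have : ρ ^ 2 ≤ 1 := pow_le_one₀ hρ.le hρ1
    linarith
  · rw [hη', he', hq0']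
    have : 0 ≤ ρ ^ 2 * N := by positivity
    linarith
  · rw [Nat.card_Icc, Nat.add_sub_cancel]
  · rw [Nat.card_Icc, Nat.add_sub_cancel]
    exact mul_le_of_le_one_left hNp.le hρ1
  · rw [Nat.card_Icc, Nat.add_sub_cancel, sub_self, zero_div, zero_mul, add_zero]
    rw [← ht]
    linarith

end Pool.Agent.H23.VW
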