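import Mathlib
import Pool.Agent.H23.VW.GameFinal

/-!
# The upper bound for the Weak Win threshold, in the form of the frozen statement
-/

set_option autoImplicit false

namespace Pool.Agent.H23.VW

open Finset

/-- For every `δ > 0` and all large `n` the number `⌈δ n 2^n⌉` belongs to the set whose least
element is `ww(n)`. -/
theorem ww_mem {δ : ℝ} (hδ : 0 < δ) : ∃ n0 : ℕ, ∀ n : ℕ, n0 ≤ n →
    ⌈δ * n * 2 ^ n⌉₊ ∈ {N₀ : ℕ | ∀ N : ℕ, N₀ ≤ N → ∀ P : Finset ℕ → Finset ℕ → Prop,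
          (∀ M B : Finset ℕ, (∃ a d : ℕ, 0 < d ∧ ∀ i < n, a + i * d ∈ M) → P M B) →
          (∀ M B : Finset ℕ, M.card = B.card →
              (∃ x ∈ Finset.Icc 1 N, x ∉ M ∧ x ∉ B ∧ P (insert x M) B) → P M B) →
          (∀ M B : Finset ℕ, M.card = B.card + 1 →
              (∃ y ∈ Finset.Icc 1 N, y ∉ M ∧ y ∉ B) →
              (∀ y ∈ Finset.Icc 1 N, y ∉ M → y ∉ B → P M (insert y B)) → P M B) →
          P ∅ ∅} := by
  obtain ⟨n0, hn0⟩ := game_upper hδ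
  refine ⟨n0, fun n hn N hN P h1 h2 h3 => ?_⟩
  refine bridge (apSys n ⌈δ * n * 2 ^ n⌉₊).Wins ⌈δ * n * 2 ^ n⌉₊ N hN (hn0 n hn) P ?_ h2 h3
  rintro M B ⟨p, hp, hpM⟩
  refine h1 M B ⟨p.1, p.2, ?_, fun i hi => hpM ?_⟩
  · exact (mem_apI.1 (show (p.1, p.2) ∈ (apSys n ⌈δ * n * 2 ^ n⌉₊).I from hp)).2.1
  · exact mem_prog.2 ⟨i, hi, rfl⟩

end Pool.Agent.H23.VW
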